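import Pool.Agent.Nu3.Gauss

/-!
Equidistribution-free choice of an odd power of a Gaussian prime.
-/

namespace Pool.Agent.Nu3

open Finset Filter Topology

theorem window' {x y : ℝ} (hy : 0 < y) (hirr : Irrational (x / y)) {α β : ℝ}
    (hαβ : α < β) : ∃ n : ℕ, 1 ≤ n ∧ ∃ b : ℤ, α < n * (2 * x) - b * (2 * y) ∧
      n * (2 * x) - b * (2 * y) < β := by
  have : Fact (0 < 2 * y) := ⟨by linarith⟩
  have hd : DenseRange (· • ((2 * x : ℝ) : AddCircle (2 * y)) : ℤ → AddCircle (2 * y)) := by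
    rw [AddCircle.denseRange_zsmul_coe_iff]
    rw [mul_div_mul_left _ _ (two_ne_zero)]
    exact hirr
  set t : AddCircle (2 * y) := (((α + β) / 2 : ℝ) : AddCircle (2 * y)) with ht
  set U : Set (AddCircle (2 * y)) := (fun r : ℝ => (r : AddCircle (2 * y))) ''
    Set.Ioo α β with hU
  have hUo : IsOpen U := QuotientAddGroup.isOpenMap_coe _ isOpen_Ioo
  have htU : t ∈ U := ⟨(α + β) / 2, ⟨by linarith, by linarith⟩, rfl⟩
  have hcl : MapClusterPt t atTop (fun n : ℕ => n • ((2 * x : ℝ) : AddCircle (2 * y))) := by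
    rw [mapClusterPt_atTop_nsmul_iff_mem_topologicalClosure_zmultiples]
    have : t ∈ closure (Set.range (fun n : ℤ => n • ((2 * x : ℝ) : AddCircle (2 * y)))) := hd t
    have h2 : Set.range (fun n : ℤ => n • ((2 * x : ℝ) : AddCircle (2 * y))) =
        (AddSubgroup.zmultiples ((2 * x : ℝ) : AddCircle (2 * y)) : Set (AddCircle (2 * y))) := by
      rw [AddSubgroup.coe_zmultiples]
    rw [h2] at this
    exact this
  have hfr := hcl.frequently (hUo.mem_nhds htU)
  obtain ⟨n, hn, hnU⟩ := frequently_atTop.mp hfr 1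
  obtain ⟨τ, ⟨hτ1, hτ2⟩, hτ⟩ := hnU
  have hτ' : ((τ : ℝ) : AddCircle (2 * y)) = ((n * (2 * x) : ℝ) : AddCircle (2 * y)) := by
    rw [show ((n * (2 * x) : ℝ) : AddCircle (2 * y)) = n • ((2 * x : ℝ) : AddCircle (2 * y)) by
      rw [← AddCircle.coe_nsmul, nsmul_eq_mul]]
    exact hτ
  rw [QuotientAddGroup.eq] at hτ'
  rw [AddSubgroup.mem_zmultiples_iff] at hτ'
  obtain ⟨b, hb⟩ := hτ'
  have hb' : (b : ℝ) * (2 * y) = - τ + n * (2 * x) := by
    rw [← hb]; simp
  exact ⟨n, hn, b, by linarith, by linarith⟩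

/-- `Re (w^2 e^{it})` -/
noncomputable def fw (w : GaussianInt) (t : ℝ) : ℝ :=
  ((w : ℂ) ^ 2 * Complex.exp (t * Complex.I)).re

theorem fw_cont (w : GaussianInt) : Continuous (fw w) := by
  unfold fw
  fun_prop

theorem fw_period (w : GaussianInt) (t : ℝ) (b : ℤ) : fw w (t - b * (2 * Real.pi)) = fw w t := by
  unfold fw
  have : Complex.exp (((t - b * (2 * Real.pi) : ℝ) : ℂ) * Complex.I) =
      Complex.exp ((t : ℂ) * Complex.I) := by
    push_cast
    rw [sub_mul, Complex.exp_sub]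
    have h2 : Complex.exp ((b : ℂ) * (2 * (Real.pi : ℂ)) * Complex.I) = 1 := by
      have := Complex.exp_int_mul_two_pi_mul_I b
      rw [← this]
      congr 1
      ring
    rw [h2, div_one]
  rw [this]

theorem fw_neg (w : GaussianInt) (t : ℝ) : fw (-w) t = fw w t := by
  unfold fw
  congr 2
  simp

theorem norm_toComplex (w : GaussianInt) : ‖(w : ℂ)‖ ^ 2 = w.norm := by
  rw [← Complex.normSq_eq_norm_sq, GaussianInt.intCast_real_norm]

/-- explicit form of `fw` -/
theorem fw_formula (w w1 : GaussianInt) {n1 : ℕ} (hn1 : 0 < n1) (h1 : w1.norm = n1) (s : ℝ) :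
    n1 * fw w (Real.pi / 2 - ((w1 : ℂ) ^ 2).arg + s) =
      ((w : ℂ) ^ 2 * (starRingEnd ℂ) ((w1 : ℂ) ^ 2) * Complex.I * Complex.exp (s * Complex.I)).re := by
  have hn : ‖(w1 : ℂ) ^ 2‖ = n1 := by
    rw [norm_pow, norm_toComplex, h1]
    simp
  have hpol := Complex.norm_mul_exp_arg_mul_I ((w1 : ℂ) ^ 2)
  rw [hn] at hpol
  set ψ := ((w1 : ℂ) ^ 2).arg with hψ
  have hconj : (starRingEnd ℂ) ((w1 : ℂ) ^ 2) = n1 * Complex.exp (-(ψ * Complex.I)) := by
    rw [← hpol, map_mul, ← Complex.exp_conj]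
    simp
  rw [hconj]
  unfold fw
  have e : Complex.exp (((Real.pi / 2 - ψ + s : ℝ) : ℂ) * Complex.I) =
      Complex.I * Complex.exp (-(ψ * Complex.I)) * Complex.exp (s * Complex.I) := by
    have : (((Real.pi / 2 - ψ + s : ℝ) : ℂ) * Complex.I) =
        (Real.pi / 2 : ℂ) * Complex.I + (-(ψ * Complex.I)) + (s * Complex.I) := by
      push_cast; ring
    rw [this, Complex.exp_add, Complex.exp_add, Complex.exp_pi_div_two_mul_I]
  rw [e]
  have : (w : ℂ) ^ 2 * (n1 * Complex.exp (-(ψ * Complex.I))) * Complex.I *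
      Complex.exp (s * Complex.I) = n1 * ((w : ℂ) ^ 2 *
      (Complex.I * Complex.exp (-(ψ * Complex.I)) * Complex.exp (s * Complex.I))) := by ring
  rw [this]
  rw [← Complex.ofReal_natCast, Complex.re_ofReal_mul]

theorem fw_self (w1 : GaussianInt) {n1 : ℕ} (hn1 : 0 < n1) (h1 : w1.norm = n1) (s : ℝ) :
    fw w1 (Real.pi / 2 - ((w1 : ℂ) ^ 2).arg + s) = - (n1 * Real.sin s) := by
  have h := fw_formula w1 w1 hn1 h1 s
  have e : (w1 : ℂ) ^ 2 * (starRingEnd ℂ) ((w1 : ℂ) ^ 2) = ((n1 : ℝ) ^ 2 : ℝ) := by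
    rw [Complex.mul_conj, Complex.normSq_eq_norm_sq, norm_pow, norm_toComplex, h1]
    simp
  rw [e] at h
  have e2 : ((((n1 : ℝ) ^ 2 : ℝ) : ℂ) * Complex.I * Complex.exp (s * Complex.I)).re =
      - (n1 * (n1 * Real.sin s)) := by
    rw [mul_assoc, Complex.re_ofReal_mul, Complex.exp_mul_I]
    simp [Complex.sin_ofReal_re, Complex.cos_ofReal_re]
    ring
  rw [e2] at h
  have hn : (n1 : ℝ) ≠ 0 := by exact_mod_cast hn1.ne'
  have : n1 * fw w1 (Real.pi / 2 - ((w1 : ℂ) ^ 2).arg + s) = n1 * (-(n1 * Real.sin s)) := by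
    rw [h]; ring
  exact mul_left_cancel₀ hn this

theorem fw_other (w w1 : GaussianInt) {n1 : ℕ} (hn1 : 0 < n1) (hw : w ∈ Gs n1) (hw1 : w1 ∈ Gs n1)
    (hodd : n1 % 2 = 1) (hne : w ≠ w1) (hne' : w ≠ -w1) :
    fw w (Real.pi / 2 - ((w1 : ℂ) ^ 2).arg) ≠ 0 := by
  rw [mem_Gs] at hw hw1
  intro h0
  have h := fw_formula w w1 hn1 hw1.1 0
  rw [add_zero, h0, mul_zero] at h
  simp only [Complex.ofReal_zero, zero_mul, Complex.exp_zero, mul_one] at h
  -- compute
  set a := w.re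
  set b := w.im
  set c := w1.re
  set d := w1.im
  have e : ((w : ℂ) ^ 2 * (starRingEnd ℂ) ((w1 : ℂ) ^ 2) * Complex.I).re =
      -(2 * ((a * c + b * d : ℤ) : ℝ) * ((b * c - a * d : ℤ) : ℝ)) := by
    have r1 : (w : ℂ).re = a := (GaussianInt.intCast_re w).symm
    have r2 : (w : ℂ).im = b := (GaussianInt.intCast_im w).symm
    have r3 : (w1 : ℂ).re = c := (GaussianInt.intCast_re w1).symm
    have r4 : (w1 : ℂ).im = d := (GaussianInt.intCast_im w1).symm
    simp only [pow_two, map_mul, Complex.mul_re, Complex.mul_im, Complex.conj_re, Complex.conj_im,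
      Complex.I_re, Complex.I_im, r1, r2, r3, r4]
    push_cast
    ring
  rw [e] at h
  have h2 : ((a * c + b * d : ℤ) : ℝ) * ((b * c - a * d : ℤ) : ℝ) = 0 := by linarith
  have h3 : (a * c + b * d) * (b * c - a * d) = 0 := by exact_mod_cast h2
  have hn := hw.1
  have hn' := hw1.1
  rw [norm_eq] at hn hn'
  have ha : ¬ (2 : ℤ) ∣ a := by
    rintro ⟨k, hk⟩
    obtain ⟨l, hl⟩ := hw.2
    change a * a + b * b = _ at hn
    change b = _ at hl
    rw [hk, hl] at hn
    have : (n1 : ℤ) = 2 * (2 * (k * k) + 2 * (l * l)) := by rw [← hn]; ring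
    omega
  have hc : ¬ (2 : ℤ) ∣ c := by
    rintro ⟨k, hk⟩
    obtain ⟨l, hl⟩ := hw1.2
    change c * c + d * d = _ at hn'
    change d = _ at hl
    rw [hk, hl] at hn'
    have : (n1 : ℤ) = 2 * (2 * (k * k) + 2 * (l * l)) := by rw [← hn']; ring
    omega
  rcases mul_eq_zero.mp h3 with h4 | h4
  · obtain ⟨l, hl⟩ := hw.2
    change b = _ at hl
    have h5 : (2 : ℤ) ∣ a * c := ⟨-(l * d), by rw [hl] at h4; linarith⟩
    rcases Int.prime_two.dvd_or_dvd h5 with h | h
    · exact ha h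
    · exact hc h
  · -- parallel
    change a * a + b * b = _ at hn
    change c * c + d * d = _ at hn'
    have h6 : (a * c + b * d) ^ 2 = (n1 : ℤ) ^ 2 := by
      have : (a * c + b * d) ^ 2 + (b * c - a * d) ^ 2 = (a * a + b * b) * (c * c + d * d) := by ring
      rw [h4, hn, hn'] at this
      linarith
    rcases sq_eq_sq_iff_eq_or_eq_neg.mp h6 with h7 | h7
    · apply hne
      have h8 : (a - c) ^ 2 + (b - d) ^ 2 = 0 := by nlinarith
      have h9 : a - c = 0 := by nlinarith [sq_nonneg (a - c), sq_nonneg (b - d)]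
      have h10 : b - d = 0 := by nlinarith [sq_nonneg (a - c), sq_nonneg (b - d)]
      ext
      · change a = c; omega
      · change b = d; omega
    · apply hne'
      have h8 : (a + c) ^ 2 + (b + d) ^ 2 = 0 := by nlinarith
      have h9 : a + c = 0 := by nlinarith [sq_nonneg (a + c), sq_nonneg (b + d)]
      have h10 : b + d = 0 := by nlinarith [sq_nonneg (a + c), sq_nonneg (b + d)]
      ext
      · rw [Zsqrtd.re_neg]; change a = -c; omega
      · rw [Zsqrtd.im_neg]; change b = -d; omega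

end Pool.Agent.Nu3
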