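import Pool.Agent.Nu3.Angle

/-!
Existence of an odd power with prescribed parity.
-/

namespace Pool.Agent.Nu3

open Finset Filter Topology

/-- sector count as a function of an angle -/
noncomputable def Fs (n1 : ℤ) (t : ℝ) : ℕ := by
  classical
  exact ((Gs n1).filter (fun w => 0 < fw w t)).card

theorem Fs_interval {n1 : ℕ} (hn1 : 0 < n1) (hodd : n1 % 2 = 1) (hne : (Gs n1).Nonempty) :
    ∃ t1 t2 : ℝ, t1 < t2 ∧ ∀ t, t1 < t → t < t2 → ¬ 4 ∣ Fs n1 t := by
  classical
  obtain ⟨w1, hw1⟩ := hne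
  have hw1' := hw1
  rw [mem_Gs] at hw1'
  have hneg : -w1 ∈ Gs n1 := by
    rw [mem_Gs]
    refine ⟨by rw [Zsqrtd.norm_neg]; exact hw1'.1, ?_⟩
    have := hw1'.2
    rw [Zsqrtd.im_neg]
    omega
  have hw1n : w1 ≠ -w1 := by
    intro h
    have h1 : w1 = 0 := by
      have : (2 : GaussianInt) * w1 = 0 := by linear_combination h
      rcases mul_eq_zero.mp this with h | h
      · exfalso
        have := congrArg Zsqrtd.re h
        norm_num at this
      · exact h
    rw [h1] at hw1'
    have := hw1'.1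
    rw [Zsqrtd.norm_zero] at this
    omega
  set t0 : ℝ := Real.pi / 2 - ((w1 : ℂ) ^ 2).arg with ht0
  set G' := ((Gs n1).erase w1).erase (-w1) with hG'
  -- local constancy
  have hloc : ∀ᶠ t in 𝓝 t0, ∀ w ∈ G', (0 < fw w t ↔ 0 < fw w t0) := by
    rw [Filter.eventually_all_finset]
    intro w hw
    rw [hG', mem_erase, mem_erase] at hw
    have h0 := fw_other w w1 hn1 hw.2.2 hw1 hodd hw.2.1 hw.1
    have hc := (fw_cont w).continuousAt (x := t0)
    rcases lt_or_gt_of_ne h0 with h | h
    · have := hc.eventually (gt_mem_nhds h)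
      filter_upwards [this] with t ht
      constructor
      · intro h'; linarith
      · intro h'; linarith
    · have := hc.eventually (lt_mem_nhds h)
      filter_upwards [this] with t ht
      constructor
      · intro _; exact h
      · intro _; exact ht
  obtain ⟨δ, hδ, hball⟩ := Metric.eventually_nhds_iff.mp hloc
  set δ' := min δ 1 with hδ'
  have hδ'pos : 0 < δ' := lt_min hδ one_pos
  have hpi := Real.pi_gt_three
  have hsplit : ∀ t, Fs n1 t = (G'.filter (fun w => 0 < fw w t)).card +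
      (if 0 < fw w1 t then 2 else 0) := by
    intro t
    unfold Fs
    have hGs : Gs n1 = insert w1 (insert (-w1) G') := by
      rw [hG', Finset.insert_erase, Finset.insert_erase hw1]
      rw [mem_erase]
      exact ⟨fun h => hw1n h.symm, hneg⟩
    rw [hGs, filter_insert, filter_insert]
    have e : fw (-w1) t = fw w1 t := fw_neg w1 t
    have n1' : -w1 ∉ G' := by rw [hG']; simp
    have n2' : w1 ∉ G' := by
      rw [hG', mem_erase, mem_erase]; tauto
    rw [e]
    by_cases h : 0 < fw w1 t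
    · rw [if_pos h, if_pos h, if_pos h]
      rw [card_insert_of_notMem, card_insert_of_notMem]
      · simp only [mem_filter]; tauto
      · simp only [mem_insert, mem_filter]; tauto
    · rw [if_neg h, if_neg h, if_neg h]
      simp
  set a := (G'.filter (fun w => 0 < fw w t0)).card with ha
  have hconst : ∀ s : ℝ, |s| < δ' → (G'.filter (fun w => 0 < fw w (t0 + s))).card = a := by
    intro s hs
    have hd : dist (t0 + s) t0 < δ := by
      rw [Real.dist_eq]
      have : t0 + s - t0 = s := by ring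
      rw [this]
      exact lt_of_lt_of_le hs (min_le_left _ _)
    have := hball hd
    rw [ha]
    congr 1
    exact filter_congr this
  have hself := fw_self w1 hn1 hw1'.1
  have hn1R : (0 : ℝ) < n1 := by exact_mod_cast hn1
  by_cases h4 : 4 ∣ a
  · refine ⟨t0 - δ', t0, by linarith, ?_⟩
    intro t ht1 ht2
    obtain ⟨s, rfl⟩ : ∃ s, t = t0 + s := ⟨t - t0, by ring⟩
    have hs1 : -δ' < s := by linarith
    have hs2 : s < 0 := by linarith
    have hs : |s| < δ' := by rw [abs_of_neg hs2]; linarith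
    have hle : δ' ≤ 1 := min_le_right _ _
    have hsin : Real.sin s < 0 := by
      have : Real.sin (-s) > 0 := Real.sin_pos_of_pos_of_lt_pi (by linarith) (by linarith)
      rw [Real.sin_neg] at this
      linarith
    have hpos : 0 < fw w1 (t0 + s) := by
      rw [ht0, hself s]
      nlinarith
    rw [hsplit, hconst s hs, if_pos hpos]
    omega
  · refine ⟨t0, t0 + δ', by linarith, ?_⟩
    intro t ht1 ht2
    obtain ⟨s, rfl⟩ : ∃ s, t = t0 + s := ⟨t - t0, by ring⟩
    have hs1 : s < δ' := by linarith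
    have hs2 : 0 < s := by linarith
    have hs : |s| < δ' := by rw [abs_of_pos hs2]; linarith
    have hle : δ' ≤ 1 := min_le_right _ _
    have hsin : 0 < Real.sin s := Real.sin_pos_of_pos_of_lt_pi (by linarith) (by linarith)
    have hpos : ¬ 0 < fw w1 (t0 + s) := by
      rw [ht0, hself s]
      push Not
      nlinarith
    rw [hsplit, hconst s hs, if_neg hpos, add_zero]
    exact h4

namespace Pi

variable {π : GaussianInt} {p : ℕ} (P : Pi π p)
include P

theorem cpow_eq : (π : ℂ) ^ 2 = p * Complex.exp (((π : ℂ) ^ 2).arg * Complex.I) := by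
  have hn : ‖(π : ℂ) ^ 2‖ = p := by
    rw [_root_.norm_pow, norm_toComplex, P.hn]
    simp
  have := Complex.norm_mul_exp_arg_mul_I ((π : ℂ) ^ 2)
  rw [hn] at this
  exact this.symm

theorem irr_arg : Irrational (((π : ℂ) ^ 2).arg / Real.pi) := by
  rintro ⟨r, hr⟩
  set φ := ((π : ℂ) ^ 2).arg with hφ
  have hden : (r.den : ℝ) ≠ 0 := by exact_mod_cast r.den_ne_zero
  have h1 : (r.den : ℝ) * φ = r.num * Real.pi := by
    have h2 : (r : ℝ) = (r.num : ℝ) / r.den := Rat.cast_def r
    rw [h2] at hr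
    have hpi := Real.pi_pos.ne'
    field_simp at hr
    linarith
  -- π^(4 den) = p^(2 den)
  have h3 : ((π : ℂ) ^ 2) ^ (2 * r.den) = (p : ℂ) ^ (2 * r.den) := by
    rw [P.cpow_eq, mul_pow, ← Complex.exp_nat_mul]
    have : ((2 * r.den : ℕ) : ℂ) * ((φ : ℂ) * Complex.I) = r.num * (2 * Real.pi * Complex.I) := by
      have h4 := congrArg (Complex.ofReal) h1
      push_cast at h4 ⊢
      linear_combination (2 * Complex.I) * h4
    rw [this, Complex.exp_int_mul_two_pi_mul_I, mul_one]
  have h5 : (π ^ 2) ^ (2 * r.den) = (p : GaussianInt) ^ (2 * r.den) := by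
    apply GaussianInt.toComplex_injective
    simpa using h3
  rw [← P.mul_star, mul_pow, ← pow_mul] at h5
  have e : 2 * (2 * r.den) = 2 * r.den + 2 * r.den := by ring
  rw [e, pow_add] at h5
  have h6 := mul_left_cancel₀ (pow_ne_zero _ P.prime.ne_zero) h5
  have h7 : π ∣ Star.star π ^ (2 * r.den) := by
    rw [← h6]
    exact dvd_pow_self _ (by have := r.den_pos; omega)
  exact P.not_dvd_star (P.prime.dvd_of_dvd_pow h7)

theorem sector_iff (w : GaussianInt) (k : ℕ) :
    (w * π ^ k).im * (w * π ^ k).im < (w * π ^ k).re * (w * π ^ k).re ↔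
      0 < fw w (k * ((π : ℂ) ^ 2).arg) := by
  have hp0 : (0 : ℝ) < (p : ℝ) ^ k := by
    have : (0 : ℝ) < p := by exact_mod_cast P.hp.pos
    positivity
  have h1 : (((w * π ^ k : GaussianInt) : ℂ) ^ 2).re =
      (p : ℝ) ^ k * fw w (k * ((π : ℂ) ^ 2).arg) := by
    unfold fw
    have : ((w * π ^ k : GaussianInt) : ℂ) ^ 2 = ((p : ℝ) ^ k : ℝ) * ((w : ℂ) ^ 2 *
        Complex.exp ((k * ((π : ℂ) ^ 2).arg : ℝ) * Complex.I)) := by
      have e1 : ((w * π ^ k : GaussianInt) : ℂ) ^ 2 = (w : ℂ) ^ 2 * ((π : ℂ) ^ 2) ^ k := by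
        simp only [map_mul, map_pow]
        ring
      rw [e1, P.cpow_eq, mul_pow, ← Complex.exp_nat_mul]
      rw [← P.cpow_eq]
      push_cast
      rw [mul_assoc (k : ℂ)]
      ring
    rw [this, Complex.re_ofReal_mul]
  have h2 : (((w * π ^ k : GaussianInt) : ℂ) ^ 2).re =
      (((w * π ^ k).re * (w * π ^ k).re - (w * π ^ k).im * (w * π ^ k).im : ℤ) : ℝ) := by
    rw [pow_two, Complex.mul_re, ← GaussianInt.intCast_re, ← GaussianInt.intCast_im]
    push_cast
    ring
  constructor
  · intro h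
    have h3 : (0 : ℝ) < (((w * π ^ k).re * (w * π ^ k).re - (w * π ^ k).im * (w * π ^ k).im : ℤ) : ℝ) := by
      exact_mod_cast sub_pos.mpr h
    rw [← h2, h1] at h3
    exact (mul_pos_iff_of_pos_left hp0).mp h3
  · intro h
    have h3 : 0 < (p : ℝ) ^ k * fw w (k * ((π : ℂ) ^ 2).arg) := mul_pos hp0 h
    rw [← h1, h2] at h3
    have h4 : 0 < (w * π ^ k).re * (w * π ^ k).re - (w * π ^ k).im * (w * π ^ k).im := by
      exact_mod_cast h3
    linarith

theorem exists_pow {n1 : ℕ} (hn1 : 0 < n1) (hodd : n1 % 2 = 1) (hne : (Gs n1).Nonempty) :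
    ∃ n : ℕ, 1 ≤ n ∧ ¬ 4 ∣ ((Gs n1).filter (fun w => (w * π ^ (2 * n + 1)).im *
      (w * π ^ (2 * n + 1)).im < (w * π ^ (2 * n + 1)).re * (w * π ^ (2 * n + 1)).re)).card := by
  classical
  obtain ⟨t1, t2, ht, hF⟩ := Fs_interval hn1 hodd hne
  set φ := ((π : ℂ) ^ 2).arg with hφ
  obtain ⟨n, hn, b, h1, h2⟩ := window' Real.pi_pos P.irr_arg (α := t1 - φ) (β := t2 - φ)
    (by linarith)
  refine ⟨n, hn, ?_⟩
  have h3 := hF ((2 * n + 1 : ℕ) * φ - b * (2 * Real.pi)) (by push_cast; linarith)
    (by push_cast; linarith)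
  unfold Fs at h3
  have h4 : (Gs n1).filter (fun w => 0 < fw w ((2 * n + 1 : ℕ) * φ - b * (2 * Real.pi))) =
      (Gs n1).filter (fun w => (w * π ^ (2 * n + 1)).im *
      (w * π ^ (2 * n + 1)).im < (w * π ^ (2 * n + 1)).re * (w * π ^ (2 * n + 1)).re) := by
    refine filter_congr ?_
    intro w _
    rw [fw_period, P.sector_iff]
  rw [h4] at h3
  exact h3

end Pi

end Pool.Agent.Nu3
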