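import Mathlib

/-!
Basic counting sets for the parity of the number of partitions with three part sizes.
-/

namespace Pool.Agent.Nu3

open Finset

/-- Triples `(x,u,v)` of integers with `u,v > 0` and `x^2 + 2uv = N`. -/
noncomputable def Om (N : ℤ) : Finset (ℤ × ℤ × ℤ) :=
  ((Icc (-N) N) ×ˢ (Icc 1 N) ×ˢ (Icc 1 N)).filter (fun e => e.1 ^ 2 + 2 * e.2.1 * e.2.2 = N)

theorem mem_Om {N x u v : ℤ} : (x, u, v) ∈ Om N ↔ 0 < u ∧ 0 < v ∧ x ^ 2 + 2 * u * v = N := by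
  unfold Om
  simp only [mem_filter, mem_product, mem_Icc]
  constructor
  · rintro ⟨⟨_, ⟨h1, _⟩, ⟨h2, _⟩⟩, h⟩
    exact ⟨by omega, by omega, h⟩
  · rintro ⟨hu, hv, h⟩
    have huv : 0 < u * v := mul_pos hu hv
    have hx : 0 ≤ x ^ 2 := sq_nonneg x
    have h1 : u ≤ u * v := by nlinarith
    have h2 : v ≤ u * v := by nlinarith
    have h3 : x ≤ x ^ 2 := by
      rcases le_or_gt x 0 with h | h
      · linarith
      · nlinarith
    have h4 : -x ≤ x ^ 2 := by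
      rcases le_or_gt 0 x with h | h
      · linarith
      · nlinarith
    refine ⟨⟨⟨by nlinarith, by nlinarith⟩, ⟨by omega, by nlinarith⟩, ⟨by omega, by nlinarith⟩⟩, h⟩

/-- The number `C(N)` of `(x,u,v)` with `x^2+2uv=N` and `0<v<x`, `u>0`. -/
noncomputable def C (N : ℤ) : ℕ := ((Om N).filter (fun e => e.2.2 < e.1)).card

theorem trich {N x u v : ℤ} (hN : ¬ IsSquare N) (h : (x, u, v) ∈ Om N) :
    (2 * u + 2 * x < v ∧ ¬ (2 * v < u + 2 * x) ∧ ¬ (v < 2 * u + 2 * x ∧ u + 2 * x < 2 * v)) ∨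
    (¬ (2 * u + 2 * x < v) ∧ (2 * v < u + 2 * x) ∧ ¬ (v < 2 * u + 2 * x ∧ u + 2 * x < 2 * v)) ∨
    (¬ (2 * u + 2 * x < v) ∧ ¬ (2 * v < u + 2 * x) ∧ (v < 2 * u + 2 * x ∧ u + 2 * x < 2 * v)) := by
  rw [mem_Om] at h
  obtain ⟨hu, hv, h⟩ := h
  have h1 : v ≠ 2 * u + 2 * x := by
    rintro rfl
    exact hN ⟨x + 2 * u, by rw [← h]; ring⟩
  have h2 : u + 2 * x ≠ 2 * v := by
    intro h2
    have : u = 2 * v - 2 * x := by linarith
    subst this
    exact hN ⟨x - 2 * v, by rw [← h]; ring⟩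
  omega

theorem sum_split {N : ℤ} (hN : ¬ IsSquare N) (f : ℤ × ℤ × ℤ → ℤ) :
    ∑ e ∈ Om N, f e =
      ∑ e ∈ (Om N).filter (fun e => 2 * e.2.1 + 2 * e.1 < e.2.2), f e +
      ∑ e ∈ (Om N).filter (fun e => 2 * e.2.2 < e.2.1 + 2 * e.1), f e +
      ∑ e ∈ (Om N).filter (fun e => e.2.2 < 2 * e.2.1 + 2 * e.1 ∧ e.2.1 + 2 * e.1 < 2 * e.2.2),
        f e := by
  rw [sum_filter, sum_filter, sum_filter, ← sum_add_distrib, ← sum_add_distrib]
  refine sum_congr rfl ?_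
  rintro ⟨x, u, v⟩ he
  rcases trich hN he with ⟨h1, h2, h3⟩ | ⟨h1, h2, h3⟩ | ⟨h1, h2, h3⟩
  · simp [h1, h2, h3]
  · simp [h1, h2, h3]
  · simp [h1, h2, h3]

/-- sum over E1 equals sum over E2 for a rho-invariant function -/
theorem sum_E1_eq_E2 {N : ℤ} (f : ℤ × ℤ × ℤ → ℤ)
    (hr : ∀ x u v, (x, u, v) ∈ Om N → f (-x, v, u) = f (x, u, v)) :
    ∑ e ∈ (Om N).filter (fun e => 2 * e.2.1 + 2 * e.1 < e.2.2), f e =
      ∑ e ∈ (Om N).filter (fun e => 2 * e.2.2 < e.2.1 + 2 * e.1), f e := by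
  refine sum_nbij' (fun e => (-e.1, e.2.2, e.2.1)) (fun e => (-e.1, e.2.2, e.2.1)) ?_ ?_ ?_ ?_ ?_
  · rintro ⟨x, u, v⟩ he
    simp only [mem_filter, mem_Om] at he ⊢
    obtain ⟨⟨hu, hv, h⟩, h'⟩ := he
    exact ⟨⟨hv, hu, by rw [← h]; ring⟩, by linarith⟩
  · rintro ⟨x, u, v⟩ he
    simp only [mem_filter, mem_Om] at he ⊢
    obtain ⟨⟨hu, hv, h⟩, h'⟩ := he
    exact ⟨⟨hv, hu, by rw [← h]; ring⟩, by linarith⟩
  · rintro ⟨x, u, v⟩ _
    simp
  · rintro ⟨x, u, v⟩ _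
    simp
  · rintro ⟨x, u, v⟩ he
    simp only [mem_filter] at he
    exact (hr x u v he.1).symm

/-- The sum over E2 of a tau2-invariant function. -/
theorem sum_E2 {N : ℤ} (f : ℤ × ℤ × ℤ → ℤ)
    (h2 : ∀ x u v, (x, u, v) ∈ Om N → 2 * v < u + 2 * x →
      f (2 * v - x, u + 2 * x - 2 * v, v) = f (x, u, v)) :
    ∑ e ∈ (Om N).filter (fun e => 2 * e.2.2 < e.2.1 + 2 * e.1), f e =
      2 * ∑ e ∈ (Om N).filter (fun e => e.2.2 < e.1), f e +
        ∑ e ∈ (Om N).filter (fun e => e.1 = e.2.2), f e := by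
  have key : ∑ e ∈ (Om N).filter (fun e => 2 * e.2.2 < e.2.1 + 2 * e.1), f e =
      ∑ e ∈ (Om N).filter (fun e => e.2.2 < e.1), f e +
      ∑ e ∈ (Om N).filter (fun e => 2 * e.2.2 < e.2.1 + 2 * e.1 ∧ e.1 < e.2.2), f e +
        ∑ e ∈ (Om N).filter (fun e => e.1 = e.2.2), f e := by
    rw [sum_filter, sum_filter, sum_filter, sum_filter, ← sum_add_distrib, ← sum_add_distrib]
    refine sum_congr rfl ?_
    rintro ⟨x, u, v⟩ he
    rw [mem_Om] at he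
    obtain ⟨hu, hv, h⟩ := he
    rcases lt_trichotomy x v with h1 | h1 | h1
    · have a1 : ¬ (v < x) := by omega
      have a2 : ¬ (x = v) := by omega
      by_cases h3 : 2 * v < u + 2 * x
      · simp [h1, h3, a1, a2]
      · simp [h3, a1, a2]
    · have a1 : ¬ (v < x) := by omega
      have a2 : ¬ (x < v) := by omega
      have a3 : 2 * v < u + 2 * x := by omega
      subst h1
      simp [hu]
    · have a1 : ¬ (x < v) := by omega
      have a2 : ¬ (x = v) := by omega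
      have a3 : 2 * v < u + 2 * x := by omega
      simp [h1, a1, a2, a3]
  have key2 : ∑ e ∈ (Om N).filter (fun e => 2 * e.2.2 < e.2.1 + 2 * e.1 ∧ e.1 < e.2.2), f e =
      ∑ e ∈ (Om N).filter (fun e => e.2.2 < e.1), f e := by
    refine sum_nbij' (fun e => (2 * e.2.2 - e.1, e.2.1 + 2 * e.1 - 2 * e.2.2, e.2.2))
      (fun e => (2 * e.2.2 - e.1, e.2.1 + 2 * e.1 - 2 * e.2.2, e.2.2)) ?_ ?_ ?_ ?_ ?_
    · rintro ⟨x, u, v⟩ he
      simp only [mem_filter, mem_Om] at he ⊢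
      obtain ⟨⟨hu, hv, h⟩, h1, h'⟩ := he
      exact ⟨⟨by linarith, hv, by rw [← h]; ring⟩, by linarith⟩
    · rintro ⟨x, u, v⟩ he
      simp only [mem_filter, mem_Om] at he ⊢
      obtain ⟨⟨hu, hv, h⟩, h'⟩ := he
      exact ⟨⟨by linarith, hv, by rw [← h]; ring⟩, by linarith, by linarith⟩
    · rintro ⟨x, u, v⟩ _
      simp only [Prod.mk.injEq]
      refine ⟨by ring, by ring, trivial⟩
    · rintro ⟨x, u, v⟩ _
      simp only [Prod.mk.injEq]
      refine ⟨by ring, by ring, trivial⟩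
    · rintro ⟨x, u, v⟩ he
      simp only [mem_filter] at he
      exact (h2 x u v he.1 he.2.1).symm
  rw [key, key2]
  ring

/-- Twisted identity. -/
theorem twisted {N : ℤ} (hN : ¬ IsSquare N) (f : ℤ × ℤ × ℤ → ℤ)
    (h1 : ∀ x u v, (x, u, v) ∈ Om N → f (-x, u, v) = - f (x, u, v))
    (hr : ∀ x u v, (x, u, v) ∈ Om N → f (-x, v, u) = f (x, u, v))
    (h2 : ∀ x u v, (x, u, v) ∈ Om N → 2 * v < u + 2 * x →
      f (2 * v - x, u + 2 * x - 2 * v, v) = f (x, u, v))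
    (h3 : ∀ x u v, (x, u, v) ∈ Om N → v < 2 * u + 2 * x → u + 2 * x < 2 * v →
      f (-3 * x - 2 * u + 2 * v, 2 * u + 2 * x - v, 2 * v - u - 2 * x) = - f (x, u, v)) :
    2 * ∑ e ∈ (Om N).filter (fun e => e.2.2 < e.1), f e =
      - ∑ e ∈ (Om N).filter (fun e => e.1 = e.2.2), f e := by
  have s0 : ∑ e ∈ Om N, f e = 0 := by
    have : ∑ e ∈ Om N, f e = ∑ e ∈ Om N, - f e := by
      refine sum_nbij' (fun e => (-e.1, e.2.1, e.2.2)) (fun e => (-e.1, e.2.1, e.2.2)) ?_ ?_ ?_ ?_ ?_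
      · rintro ⟨x, u, v⟩ he
        simp only [mem_Om] at he ⊢
        obtain ⟨hu, hv, h⟩ := he
        exact ⟨hu, hv, by rw [← h]; ring⟩
      · rintro ⟨x, u, v⟩ he
        simp only [mem_Om] at he ⊢
        obtain ⟨hu, hv, h⟩ := he
        exact ⟨hu, hv, by rw [← h]; ring⟩
      · rintro ⟨x, u, v⟩ _
        simp
      · rintro ⟨x, u, v⟩ _
        simp
      · rintro ⟨x, u, v⟩ he
        have := h1 x u v he
        simp only [this, neg_neg]
    rw [sum_neg_distrib] at this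
    linarith
  have s3 : ∑ e ∈ (Om N).filter
      (fun e => e.2.2 < 2 * e.2.1 + 2 * e.1 ∧ e.2.1 + 2 * e.1 < 2 * e.2.2), f e = 0 := by
    have : ∑ e ∈ (Om N).filter
      (fun e => e.2.2 < 2 * e.2.1 + 2 * e.1 ∧ e.2.1 + 2 * e.1 < 2 * e.2.2), f e =
      ∑ e ∈ (Om N).filter
      (fun e => e.2.2 < 2 * e.2.1 + 2 * e.1 ∧ e.2.1 + 2 * e.1 < 2 * e.2.2), - f e := by
      refine sum_nbij' (fun e => (-3 * e.1 - 2 * e.2.1 + 2 * e.2.2, 2 * e.2.1 + 2 * e.1 - e.2.2,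
          2 * e.2.2 - e.2.1 - 2 * e.1))
        (fun e => (-3 * e.1 - 2 * e.2.1 + 2 * e.2.2, 2 * e.2.1 + 2 * e.1 - e.2.2,
          2 * e.2.2 - e.2.1 - 2 * e.1)) ?_ ?_ ?_ ?_ ?_
      · rintro ⟨x, u, v⟩ he
        simp only [mem_filter, mem_Om] at he ⊢
        obtain ⟨⟨hu, hv, h⟩, h1, h'⟩ := he
        exact ⟨⟨by linarith, by linarith, by rw [← h]; ring⟩, by linarith, by linarith⟩
      · rintro ⟨x, u, v⟩ he
        simp only [mem_filter, mem_Om] at he ⊢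
        obtain ⟨⟨hu, hv, h⟩, h1, h'⟩ := he
        exact ⟨⟨by linarith, by linarith, by rw [← h]; ring⟩, by linarith, by linarith⟩
      · rintro ⟨x, u, v⟩ _
        simp only [Prod.mk.injEq]
        refine ⟨by ring, by ring, by ring⟩
      · rintro ⟨x, u, v⟩ _
        simp only [Prod.mk.injEq]
        refine ⟨by ring, by ring, by ring⟩
      · rintro ⟨x, u, v⟩ he
        simp only [mem_filter] at he
        have := h3 x u v he.1 he.2.1 he.2.2
        simp only [this, neg_neg]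
    rw [sum_neg_distrib] at this
    linarith
  have hs := sum_split hN f
  rw [s0, s3, sum_E1_eq_E2 f hr, sum_E2 f h2] at hs
  linarith

end Pool.Agent.Nu3
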