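import Pool.Agent.Nu3.OddFam

/-!
Second differences.
-/

namespace Pool.Agent.Nu3

open Finset

theorem phi_v1_odd (u : ZMod 4) (hu : u = 1 ∨ u = 3) : phi 1 u 1 = 1 := by
  revert u; decide
theorem phi_v1_even (u : ZMod 4) (hu : u = 0 ∨ u = 2) : phi 1 u 1 = -1 := by
  revert u; decide
theorem phi_n3_odd (u : ZMod 4) (hu : u = 1 ∨ u = 3) : phi 3 u 3 = -1 := by
  revert u; decide

namespace Fam

variable {p q N1 l1 l2 : ℕ} (F : Fam p q N1 l1 l2)
include F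

theorem cast0p : ((N1 : ℤ) : ZMod p) = 0 := by
  rw [ZMod.intCast_zmod_eq_zero_iff_dvd]
  exact F.hpN.int.1

theorem cast0q : ((N1 : ℤ) : ZMod q) = 0 := by
  rw [ZMod.intCast_zmod_eq_zero_iff_dvd]
  exact F.hqN.int.1

theorem gg_one [Fact p.Prime] [Fact q.Prime] : gg p q N1 1 = -1 := by
  obtain ⟨u, hu⟩ : ∃ u : ℤ, (N1 : ℤ) = 1 + 2 * u := ⟨((N1 : ℤ) - 1) / 2, by have := F.hN1; omega⟩
  have rp := ringChar_ne_two (p := p) (by have := F.hp8; omega)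
  have rq := ringChar_ne_two (p := q) (by have := F.hq8; omega)
  obtain ⟨c3, c3'⟩ := chi2_3 F.hp8
  obtain ⟨c5, c5'⟩ := chi2_5 F.hq8
  have hP : ((1 : ℤ) : ZMod p) ^ 2 + 2 * (u : ZMod p) * ((1 : ℤ) : ZMod p) = 0 := by
    have := F.cast0p
    rw [hu] at this
    push_cast at this ⊢
    linear_combination this
  have hQ : ((1 : ℤ) : ZMod q) ^ 2 + 2 * (u : ZMod q) * ((1 : ℤ) : ZMod q) = 0 := by
    have := F.cast0q
    rw [hu] at this
    push_cast at this ⊢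
    linear_combination this
  unfold gg
  have e1 : (((N1 / 1 : ℕ) : ℤ) - ((1 : ℕ) : ℤ)) / 2 = u := by
    rw [Nat.div_one]; push_cast; omega
  rw [e1]
  unfold lam
  simp only [Nat.cast_one]
  split_ifs with h
  · rw [sF_of_ne rq hQ (by simp), c5']
    have := phi_v1_odd (u : ZMod 4) (cast4 u (by omega))
    simp only [Int.cast_one, map_one, mul_one]
    rw [this]; norm_num
  · rw [sF_of_ne rp hP (by simp), c3']
    have := phi_v1_even (u : ZMod 4) (cast4_even u (by omega))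
    simp only [Int.cast_one, map_one, mul_one]
    rw [this]

theorem gg_self [Fact p.Prime] [Fact q.Prime] : gg p q N1 N1 = 1 := by
  obtain ⟨u, hu⟩ : ∃ u : ℤ, (1 : ℤ) = N1 + 2 * u := ⟨(1 - (N1 : ℤ)) / 2, by have := F.hN1; omega⟩
  have rp := ringChar_ne_two (p := p) (by have := F.hp8; omega)
  have rq := ringChar_ne_two (p := q) (by have := F.hq8; omega)
  obtain ⟨c3, c3'⟩ := chi2_3 F.hp8
  obtain ⟨c5, c5'⟩ := chi2_5 F.hq8
  have hP : (2 : ZMod p) * (u : ZMod p) = 1 := by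
    have h1 := congrArg (Int.cast : ℤ → ZMod p) hu
    have := F.cast0p
    push_cast at this h1
    rw [this] at h1
    linear_combination -h1
  have hQ : (2 : ZMod q) * (u : ZMod q) = 1 := by
    have h1 := congrArg (Int.cast : ℤ → ZMod q) hu
    have := F.cast0q
    push_cast at this h1
    rw [this] at h1
    linear_combination -h1
  have key : ∀ {K : Type} [Field K] [Fintype K] [DecidableEq K] (w : K), (2 : K) * w = 1 →
      quadraticChar K 2 = -1 → sF w 0 = -1 := by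
    intro K _ _ _ w hw h2
    have hw0 : w ≠ 0 := by
      rintro rfl
      simp at hw
    unfold sF
    rw [if_pos hw0]
    have : quadraticChar K 2 * quadraticChar K w = 1 := by rw [← map_mul, hw, map_one]
    rw [h2] at this
    linarith
  unfold gg
  have e1 : (((N1 / N1 : ℕ) : ℤ) - ((N1 : ℕ) : ℤ)) / 2 = u := by
    rw [Nat.div_self F.N1pos]; push_cast; omega
  rw [e1]
  unfold lam
  simp only
  rw [F.cast0p, F.cast0q]
  split_ifs with h
  · rw [key _ hQ c5]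
    have hN : (N1 : ℤ) % 4 = 3 := by omega
    have h3 : ((N1 : ℤ) : ZMod 4) = 3 := by
      have : ((N1 : ℤ) : ZMod 4) = ((3 : ℤ) : ZMod 4) := by
        rw [ZMod.intCast_eq_intCast_iff_dvd_sub]
        push_cast
        omega
      simpa using this
    rw [h3, phi_n3_odd (u : ZMod 4) (cast4 u (by omega))]
    norm_num
  · rw [key _ hP c3]
    have hN : (N1 : ℤ) % 4 = 1 := by have := F.hN1; omega
    have h3 : ((N1 : ℤ) : ZMod 4) = 1 := by
      have : ((N1 : ℤ) : ZMod 4) = ((1 : ℤ) : ZMod 4) := by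
        rw [ZMod.intCast_eq_intCast_iff_dvd_sub]
        push_cast
        omega
      simpa using this
    rw [h3, phi_v1_even (u : ZMod 4) (cast4_even u (by omega))]
    norm_num

theorem gg_sum_even [Fact p.Prime] [Fact q.Prime] :
    (2 : ℤ) ∣ ∑ d ∈ N1.divisors, gg p q N1 d := by
  have h1 : (2 : ℤ) ∣ ∑ d ∈ N1.divisors, gg p q N1 d - (N1.divisors.card : ℤ) := by
    refine two_dvd_sum_sub_card _ _ ?_
    intro d hd
    rw [Nat.mem_divisors] at hd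
    obtain ⟨⟨e, he⟩, _⟩ := hd
    have hd0 : 0 < d := Nat.pos_of_ne_zero (by rintro rfl; simp at he; have := F.N1pos; omega)
    have hodd : d % 2 = 1 ∧ e % 2 = 1 := by
      have h := F.hN1
      rw [he] at h
      have := Nat.odd_mul.mp (Nat.odd_iff.mpr h)
      exact ⟨Nat.odd_iff.mp this.1, Nat.odd_iff.mp this.2⟩
    have hx := F.hpN.int
    have hy := F.hqN.int
    refine lam_sq' (N := (N1 : ℤ)) (by have := F.hN1; omega) F.hp8 F.hq8 hx.1 hx.2 hy.1 hy.2 ?_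
    have e1 : N1 / d = e := by rw [he, Nat.mul_div_cancel_left _ hd0]
    rw [e1]
    obtain ⟨t, ht⟩ : ∃ t : ℤ, (e : ℤ) = d + 2 * t := ⟨((e : ℤ) - d) / 2, by omega⟩
    have e2 : ((e : ℤ) - d) / 2 = t := by omega
    rw [e2, he]
    push_cast
    rw [ht]
    ring
  have h2 : 2 ∣ N1.divisors.card := even_card_divisors (F.hpN.not_sq F.hp)
  have h3 : (2 : ℤ) ∣ (N1.divisors.card : ℤ) := by exact_mod_cast h2
  have := dvd_add h1 h3
  simpa using this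

/-- Corner sum of a divisor `d` of `N1`, `c = n` threshold. -/
theorem kappa_big {n i j : ℕ} (hn : N1 ≤ n) (hnl : n ≤ l1)
    (hR : (n : ℝ) * (l2 : ℝ) ^ (j + 2) < (l1 : ℝ) ^ (i + 2)) {d : ℕ} (hd : d ∈ N1.divisors) :
    Asum (hh l1 l2 ((d : ℝ) ^ 2) n) (i + 2) (j + 2) + Asum (hh l1 l2 ((d : ℝ) ^ 2) n) i j -
      Asum (hh l1 l2 ((d : ℝ) ^ 2) n) (i + 2) j - Asum (hh l1 l2 ((d : ℝ) ^ 2) n) i (j + 2) = 2 := by
  rw [Asum_diff]
  have hd1 : 1 ≤ d := Nat.pos_of_mem_divisors hd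
  have hdN : d ≤ N1 := Nat.divisor_le hd
  have r1 : (1 : ℝ) ≤ d := by exact_mod_cast hd1
  have r2 : (d : ℝ) ≤ N1 := by exact_mod_cast hdN
  have r3 : (N1 : ℝ) ≤ n := by exact_mod_cast hn
  have r4 : (n : ℝ) ≤ l1 := by exact_mod_cast hnl
  have r5 : (N1 : ℝ) < l1 := by exact_mod_cast F.hl1N
  have D1 : (1 : ℝ) ≤ (d : ℝ) ^ 2 := by nlinarith
  have dn : (d : ℝ) ^ 2 ≤ n ^ 2 := by
    have : (d : ℝ) ≤ n := by linarith
    nlinarith
  have dn2 : (d : ℝ) ^ 2 < n * l1 := by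
    have h1 : (d : ℝ) ^ 2 ≤ N1 * N1 := by nlinarith
    nlinarith
  obtain ⟨k1, k2, k3, k4⟩ := corner (i := i) (j := j) F.h1.one_lt F.h2.one_lt D1 (by linarith) r4 dn2
  rw [k1, k2, k3, k4]
  have q2 : (0 : ℝ) < (l2 : ℝ) ^ (j + 2) := by
    have : (0 : ℝ) < l2 := by exact_mod_cast F.h2.pos
    positivity
  have q1 : (0 : ℝ) < (l1 : ℝ) ^ (i + 2) := by
    have : (0 : ℝ) < l1 := by exact_mod_cast F.h1.pos
    positivity
  rw [if_neg, if_pos]
  · norm_num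
  · calc (d : ℝ) ^ 2 * (l2 : ℝ) ^ (j + 2) ≤ n ^ 2 * (l2 : ℝ) ^ (j + 2) := by
          exact mul_le_mul_of_nonneg_right dn q2.le
      _ = n * (n * (l2 : ℝ) ^ (j + 2)) := by ring
      _ < n * (l1 : ℝ) ^ (i + 2) := by
          apply mul_lt_mul_of_pos_left hR
          linarith
  · push Not
    nlinarith

/-- window, `2 N1 ≤ n` -/
theorem kappa_win {n i j : ℕ} (hn : 2 * N1 ≤ n) (hnl : n ≤ l1)
    (hR1 : (n : ℝ) / 4 * (l2 : ℝ) ^ (j + 2) < (l1 : ℝ) ^ (i + 2))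
    (hR2 : (l1 : ℝ) ^ (i + 2) < (n : ℝ) * (l2 : ℝ) ^ (j + 2)) {d : ℕ} (hd : d ∈ N1.divisors) :
    Asum (hh l1 l2 ((d : ℝ) ^ 2) n) (i + 2) (j + 2) + Asum (hh l1 l2 ((d : ℝ) ^ 2) n) i j -
      Asum (hh l1 l2 ((d : ℝ) ^ 2) n) (i + 2) j - Asum (hh l1 l2 ((d : ℝ) ^ 2) n) i (j + 2) =
      2 + (if d = 1 then 1 else 0) := by
  rw [Asum_diff]
  have hd1 : 1 ≤ d := Nat.pos_of_mem_divisors hd
  have hdN : d ≤ N1 := Nat.divisor_le hd
  have r1 : (1 : ℝ) ≤ d := by exact_mod_cast hd1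
  have r2 : (d : ℝ) ≤ N1 := by exact_mod_cast hdN
  have r3 : 2 * (N1 : ℝ) ≤ n := by exact_mod_cast hn
  have r4 : (n : ℝ) ≤ l1 := by exact_mod_cast hnl
  have r5 : (N1 : ℝ) < l1 := by exact_mod_cast F.hl1N
  have D1 : (1 : ℝ) ≤ (d : ℝ) ^ 2 := by nlinarith
  have dn : (d : ℝ) ^ 2 ≤ n ^ 2 / 4 := by
    have : 2 * (d : ℝ) ≤ n := by linarith
    nlinarith
  have dn2 : (d : ℝ) ^ 2 < n * l1 := by
    have h1 : (d : ℝ) ^ 2 ≤ N1 * N1 := by nlinarith
    nlinarith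
  obtain ⟨k1, k2, k3, k4⟩ := corner (i := i) (j := j) F.h1.one_lt F.h2.one_lt D1 (by linarith) r4 dn2
  rw [k1, k2, k3, k4]
  have q2 : (0 : ℝ) < (l2 : ℝ) ^ (j + 2) := by
    have : (0 : ℝ) < l2 := by exact_mod_cast F.h2.pos
    positivity
  have q1 : (0 : ℝ) < (l1 : ℝ) ^ (i + 2) := by
    have : (0 : ℝ) < l1 := by exact_mod_cast F.h1.pos
    positivity
  have k5 : (d : ℝ) ^ 2 * (l2 : ℝ) ^ (j + 2) < n * (l1 : ℝ) ^ (i + 2) := by
    calc (d : ℝ) ^ 2 * (l2 : ℝ) ^ (j + 2) ≤ n ^ 2 / 4 * (l2 : ℝ) ^ (j + 2) := by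
          exact mul_le_mul_of_nonneg_right dn q2.le
      _ = n * (n / 4 * (l2 : ℝ) ^ (j + 2)) := by ring
      _ < n * (l1 : ℝ) ^ (i + 2) := by
          apply mul_lt_mul_of_pos_left hR1
          linarith
  rw [if_pos k5]
  by_cases h1 : d = 1
  · subst h1
    rw [if_pos (by simpa using hR2), if_pos rfl]
    norm_num
  · have hd2 : (2 : ℝ) ≤ d := by
      have : 2 ≤ d := by omega
      exact_mod_cast this
    have : ¬ (d : ℝ) ^ 2 * (l1 : ℝ) ^ (i + 2) < n * (l2 : ℝ) ^ (j + 2) := by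
      push Not
      have : (4 : ℝ) ≤ (d : ℝ) ^ 2 := by nlinarith
      nlinarith
    rw [if_neg this, if_neg h1]
    norm_num

/-- window, `n = N1` -/
theorem kappa_win0 {i j : ℕ}
    (hR1 : (N1 : ℝ) / 4 * (l2 : ℝ) ^ (j + 2) < (l1 : ℝ) ^ (i + 2))
    (hR2 : (l1 : ℝ) ^ (i + 2) < (N1 : ℝ) * (l2 : ℝ) ^ (j + 2)) {d : ℕ} (hd : d ∈ N1.divisors) :
    Asum (hh l1 l2 ((d : ℝ) ^ 2) N1) (i + 2) (j + 2) + Asum (hh l1 l2 ((d : ℝ) ^ 2) N1) i j -
      Asum (hh l1 l2 ((d : ℝ) ^ 2) N1) (i + 2) j - Asum (hh l1 l2 ((d : ℝ) ^ 2) N1) i (j + 2) =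
      2 + (if d = 1 then 1 else 0) - (if d = N1 then 1 else 0) := by
  rw [Asum_diff]
  have hd1 : 1 ≤ d := Nat.pos_of_mem_divisors hd
  have hdN : d ≤ N1 := Nat.divisor_le hd
  have r1 : (1 : ℝ) ≤ d := by exact_mod_cast hd1
  have r2 : (d : ℝ) ≤ N1 := by exact_mod_cast hdN
  have r5 : (N1 : ℝ) < l1 := by exact_mod_cast F.hl1N
  have D1 : (1 : ℝ) ≤ (d : ℝ) ^ 2 := by nlinarith
  have dn2 : (d : ℝ) ^ 2 < N1 * l1 := by
    have h1 : (d : ℝ) ^ 2 ≤ N1 * N1 := by nlinarith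
    nlinarith
  obtain ⟨k1, k2, k3, k4⟩ := corner (i := i) (j := j) F.h1.one_lt F.h2.one_lt D1 (by linarith) r5.le
    dn2
  rw [k1, k2, k3, k4]
  have q2 : (0 : ℝ) < (l2 : ℝ) ^ (j + 2) := by
    have : (0 : ℝ) < l2 := by exact_mod_cast F.h2.pos
    positivity
  have q1 : (0 : ℝ) < (l1 : ℝ) ^ (i + 2) := by
    have : (0 : ℝ) < l1 := by exact_mod_cast F.h1.pos
    positivity
  have i1 : (if (d : ℝ) ^ 2 * (l1 : ℝ) ^ (i + 2) < N1 * (l2 : ℝ) ^ (j + 2) then (1 : ℤ) else 0) =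
      if d = 1 then 1 else 0 := by
    by_cases h1 : d = 1
    · subst h1
      rw [if_pos (by simpa using hR2), if_pos rfl]
    · have hd2 : (2 : ℝ) ≤ d := by
        have : 2 ≤ d := by omega
        exact_mod_cast this
      have : ¬ (d : ℝ) ^ 2 * (l1 : ℝ) ^ (i + 2) < N1 * (l2 : ℝ) ^ (j + 2) := by
        push Not
        have : (4 : ℝ) ≤ (d : ℝ) ^ 2 := by nlinarith
        nlinarith
      rw [if_neg this, if_neg h1]
  have i2 : (if (d : ℝ) ^ 2 * (l2 : ℝ) ^ (j + 2) < N1 * (l1 : ℝ) ^ (i + 2) then (1 : ℤ) else 0) =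
      1 - if d = N1 then 1 else 0 := by
    by_cases h1 : d = N1
    · have : ¬ (d : ℝ) ^ 2 * (l2 : ℝ) ^ (j + 2) < N1 * (l1 : ℝ) ^ (i + 2) := by
        push Not
        rw [h1]
        have hN : (0 : ℝ) < N1 := by linarith
        nlinarith
      rw [if_neg this, if_pos h1]
      norm_num
    · have hd2 : 2 * d ≤ N1 := by
        rw [Nat.mem_divisors] at hd
        obtain ⟨⟨e, he⟩, _⟩ := hd
        have : e ≠ 1 := by rintro rfl; rw [mul_one] at he; exact h1 he.symm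
        have : e ≠ 0 := by rintro rfl; simp at he; have := F.N1pos; omega
        have : 2 ≤ e := by omega
        rw [he]; nlinarith
      have hd3 : 2 * (d : ℝ) ≤ N1 := by exact_mod_cast hd2
      have dn : (d : ℝ) ^ 2 ≤ N1 ^ 2 / 4 := by nlinarith
      have k5 : (d : ℝ) ^ 2 * (l2 : ℝ) ^ (j + 2) < N1 * (l1 : ℝ) ^ (i + 2) := by
        calc (d : ℝ) ^ 2 * (l2 : ℝ) ^ (j + 2) ≤ N1 ^ 2 / 4 * (l2 : ℝ) ^ (j + 2) := by
              exact mul_le_mul_of_nonneg_right dn q2.le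
          _ = N1 * (N1 / 4 * (l2 : ℝ) ^ (j + 2)) := by ring
          _ < N1 * (l1 : ℝ) ^ (i + 2) := by
              apply mul_lt_mul_of_pos_left hR1
              linarith
      rw [if_pos k5, if_neg h1]
      norm_num
  rw [i1, i2]
  ring

end Fam

end Pool.Agent.Nu3
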