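import Pool.Agent.Nu3.Basic

/-!
Relation between `C (4M)` and `C M`.
-/

namespace Pool.Agent.Nu3

open Finset

/-- Triples `(z,a,b)` of integers with `a,b > 0` and `z^2 + ab = N`. -/
noncomputable def Th (N : ℤ) : Finset (ℤ × ℤ × ℤ) :=
  ((Icc (-N) N) ×ˢ (Icc 1 N) ×ˢ (Icc 1 N)).filter (fun e => e.1 ^ 2 + e.2.1 * e.2.2 = N)

theorem mem_Th {N z a b : ℤ} : (z, a, b) ∈ Th N ↔ 0 < a ∧ 0 < b ∧ z ^ 2 + a * b = N := by
  unfold Th
  simp only [mem_filter, mem_product, mem_Icc]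
  constructor
  · rintro ⟨⟨_, ⟨h1, _⟩, ⟨h2, _⟩⟩, h⟩
    exact ⟨by omega, by omega, h⟩
  · rintro ⟨hu, hv, h⟩
    have huv : 0 < a * b := mul_pos hu hv
    have hx : 0 ≤ z ^ 2 := sq_nonneg z
    have h1 : a ≤ a * b := by nlinarith
    have h2 : b ≤ a * b := by nlinarith
    have h3 : z ≤ z ^ 2 := by
      rcases le_or_gt z 0 with h | h
      · linarith
      · nlinarith
    have h4 : -z ≤ z ^ 2 := by
      rcases le_or_gt 0 z with h | h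
      · linarith
      · nlinarith
    refine ⟨⟨⟨by nlinarith, by nlinarith⟩, ⟨by omega, by nlinarith⟩, ⟨by omega, by nlinarith⟩⟩, h⟩

theorem card_filter_split {α : Type*} (s : Finset α) (p q r : α → Prop) [DecidablePred p]
    [DecidablePred q] [DecidablePred r]
    (h : ∀ a ∈ s, p a ↔ (q a ∨ r a)) (h' : ∀ a ∈ s, ¬ (q a ∧ r a)) :
    (s.filter p).card = (s.filter q).card + (s.filter r).card := by
  rw [card_filter, card_filter, card_filter, ← sum_add_distrib]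
  refine sum_congr rfl ?_
  intro a ha
  have h1 := h a ha
  have h2 := h' a ha
  by_cases hq : q a
  · have hr : ¬ r a := fun hr => h2 ⟨hq, hr⟩
    have hp : p a := h1.mpr (Or.inl hq)
    simp [hp, hq, hr]
  · by_cases hr : r a
    · have hp : p a := h1.mpr (Or.inr hr)
      simp [hp, hq, hr]
    · have hp : ¬ p a := fun hp => (h1.mp hp).elim hq hr
      simp [hp, hq, hr]

theorem even_x4 {M x u v : ℤ} (h : x ^ 2 + 2 * u * v = 4 * M) : (2 : ℤ) ∣ x ∧ (2 : ℤ) ∣ u * v := by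
  have hx : (2 : ℤ) ∣ x := by
    have : (2 : ℤ) ∣ x ^ 2 := ⟨2 * M - u * v, by linarith⟩
    exact Int.prime_two.dvd_of_dvd_pow this
  obtain ⟨y, rfl⟩ := hx
  refine ⟨⟨y, rfl⟩, ⟨M - y ^ 2, by linarith⟩⟩

/-- step 1 -/
theorem card_A1 (M : ℤ) :
    ((Om (4 * M)).filter (fun e => e.2.2 < e.1 ∧ (2 : ℤ) ∣ e.2.2)).card =
      ((Th M).filter (fun e => e.2.2 < e.1)).card := by
  refine card_nbij' (fun e => (e.1 / 2, e.2.1, e.2.2 / 2)) (fun e => (2 * e.1, e.2.1, 2 * e.2.2))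
    ?_ ?_ ?_ ?_
  · rintro ⟨x, u, v⟩ he
    simp only [coe_filter, Set.mem_ofPred_eq, mem_Om, mem_Th] at he ⊢
    obtain ⟨⟨hu, hv, h⟩, h1, h2⟩ := he
    obtain ⟨⟨y, rfl⟩, _⟩ := even_x4 h
    obtain ⟨w, rfl⟩ := h2
    have e1 : 2 * y / 2 = y := by omega
    have e2 : 2 * w / 2 = w := by omega
    rw [e1, e2]
    exact ⟨⟨hu, by omega, by linarith⟩, by omega⟩
  · rintro ⟨y, u, w⟩ he
    simp only [coe_filter, Set.mem_ofPred_eq, mem_Om, mem_Th] at he ⊢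
    obtain ⟨⟨hu, hv, h⟩, h1⟩ := he
    exact ⟨⟨hu, by omega, by rw [← h]; ring⟩, by omega, ⟨w, rfl⟩⟩
  · rintro ⟨x, u, v⟩ he
    simp only [coe_filter, Set.mem_ofPred_eq, mem_Om] at he
    obtain ⟨⟨hu, hv, h⟩, h1, h2⟩ := he
    obtain ⟨⟨y, rfl⟩, _⟩ := even_x4 h
    obtain ⟨w, rfl⟩ := h2
    simp only [Prod.mk.injEq]
    refine ⟨by omega, trivial, by omega⟩
  · rintro ⟨y, u, w⟩ he
    simp only [Prod.mk.injEq]
    refine ⟨by omega, trivial, by omega⟩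

/-- step 2 -/
theorem card_A2 (M : ℤ) :
    ((Om (4 * M)).filter (fun e => e.2.2 < e.1 ∧ ¬ (2 : ℤ) ∣ e.2.2)).card =
      ((Th M).filter (fun e => e.2.2 < 2 * e.1 ∧ ¬ (2 : ℤ) ∣ e.2.2)).card := by
  refine card_nbij' (fun e => (e.1 / 2, e.2.1 / 2, e.2.2)) (fun e => (2 * e.1, 2 * e.2.1, e.2.2))
    ?_ ?_ ?_ ?_
  · rintro ⟨x, u, v⟩ he
    simp only [coe_filter, Set.mem_ofPred_eq, mem_Om, mem_Th] at he ⊢
    obtain ⟨⟨hu, hv, h⟩, h1, h2⟩ := he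
    obtain ⟨⟨y, rfl⟩, huv⟩ := even_x4 h
    have h3 : (2 : ℤ) ∣ u := (Int.prime_two.dvd_or_dvd huv).resolve_right h2
    obtain ⟨w, rfl⟩ := h3
    have e1 : 2 * y / 2 = y := by omega
    have e2 : 2 * w / 2 = w := by omega
    rw [e1, e2]
    exact ⟨⟨by omega, hv, by linarith⟩, by omega, h2⟩
  · rintro ⟨y, u, w⟩ he
    simp only [coe_filter, Set.mem_ofPred_eq, mem_Om, mem_Th] at he ⊢
    obtain ⟨⟨hu, hv, h⟩, h1, h2⟩ := he
    exact ⟨⟨by omega, hv, by rw [← h]; ring⟩, by omega, h2⟩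
  · rintro ⟨x, u, v⟩ he
    simp only [coe_filter, Set.mem_ofPred_eq, mem_Om] at he
    obtain ⟨⟨hu, hv, h⟩, h1, h2⟩ := he
    obtain ⟨⟨y, rfl⟩, huv⟩ := even_x4 h
    have h3 : (2 : ℤ) ∣ u := (Int.prime_two.dvd_or_dvd huv).resolve_right h2
    obtain ⟨w, rfl⟩ := h3
    simp only [Prod.mk.injEq]
    refine ⟨by omega, by omega, trivial⟩
  · rintro ⟨y, u, w⟩ he
    simp only [Prod.mk.injEq]
    refine ⟨by omega, by omega, trivial⟩

/-- step 3 -/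
theorem card_A3 (M : ℤ) :
    ((Th M).filter (fun e => e.2.2 < e.1 ∧ (2 : ℤ) ∣ e.2.1)).card = C M := by
  unfold C
  refine card_nbij' (fun e => (e.1, e.2.1 / 2, e.2.2)) (fun e => (e.1, 2 * e.2.1, e.2.2))
    ?_ ?_ ?_ ?_
  · rintro ⟨x, u, v⟩ he
    simp only [coe_filter, Set.mem_ofPred_eq, mem_Om, mem_Th] at he ⊢
    obtain ⟨⟨hu, hv, h⟩, h1, h2⟩ := he
    obtain ⟨w, rfl⟩ := h2
    have e2 : 2 * w / 2 = w := by omega
    rw [e2]
    exact ⟨⟨by omega, by omega, by linarith⟩, by omega⟩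
  · rintro ⟨y, u, w⟩ he
    simp only [coe_filter, Set.mem_ofPred_eq, mem_Om, mem_Th] at he ⊢
    obtain ⟨⟨hu, hv, h⟩, h1⟩ := he
    exact ⟨⟨by omega, by omega, by rw [← h]⟩, by omega, ⟨u, rfl⟩⟩
  · rintro ⟨x, u, v⟩ he
    simp only [coe_filter, Set.mem_ofPred_eq, mem_Th] at he
    obtain ⟨⟨hu, hv, h⟩, h1, h2⟩ := he
    obtain ⟨w, rfl⟩ := h2
    simp only [Prod.mk.injEq]
    refine ⟨trivial, by omega, trivial⟩
  · rintro ⟨y, u, w⟩ he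
    simp only [Prod.mk.injEq]
    refine ⟨trivial, by omega, trivial⟩

/-- step 4 -/
theorem card_A4 (M : ℤ) :
    ((Th M).filter (fun e => e.2.2 < e.1 ∧ ¬ (2 : ℤ) ∣ e.2.1)).card =
    ((Th M).filter (fun e => 0 < e.1 ∧ e.2.1 + 2 * e.1 < e.2.2 ∧ ¬ (2 : ℤ) ∣ e.2.2 - e.2.1)).card := by
  refine card_nbij' (fun e => (e.1 - e.2.2, e.2.2, e.2.1 + 2 * e.1 - e.2.2))
    (fun e => (e.1 + e.2.1, e.2.2 - e.2.1 - 2 * e.1, e.2.1))
    ?_ ?_ ?_ ?_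
  · rintro ⟨x, u, v⟩ he
    simp only [coe_filter, Set.mem_ofPred_eq, mem_Th] at he ⊢
    obtain ⟨⟨hu, hv, h⟩, h1, h2⟩ := he
    exact ⟨⟨by omega, by omega, by rw [← h]; ring⟩, by omega, by omega, by omega⟩
  · rintro ⟨y, u, w⟩ he
    simp only [coe_filter, Set.mem_ofPred_eq, mem_Th] at he ⊢
    obtain ⟨⟨hu, hv, h⟩, h1, h2, h3⟩ := he
    exact ⟨⟨by omega, by omega, by rw [← h]; ring⟩, by omega, by omega⟩
  · rintro ⟨x, u, v⟩ he
    simp only [Prod.mk.injEq]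
    refine ⟨by ring, by ring, trivial⟩
  · rintro ⟨y, u, w⟩ he
    simp only [Prod.mk.injEq]
    refine ⟨by ring, trivial, by ring⟩

theorem odd_ab {M z a b : ℤ} (hz : ¬ (2 : ℤ) ∣ z) (h : z ^ 2 + a * b = 4 * M) :
    ¬ (2 : ℤ) ∣ a ∧ ¬ (2 : ℤ) ∣ b ∧ (4 : ℤ) ∣ a + b := by
  have hz2 : z ^ 2 % 4 = 1 := by
    obtain ⟨k, hk⟩ : ∃ k, z = 2 * k + 1 := ⟨z / 2, by omega⟩
    subst hk
    have : (2 * k + 1) ^ 2 = 4 * (k ^ 2 + k) + 1 := by ring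
    omega
  have hab : a * b % 4 = 3 := by omega
  have ha : ¬ (2 : ℤ) ∣ a := by
    rintro ⟨k, rfl⟩
    have : 2 * k * b = 2 * (k * b) := by ring
    omega
  have hb : ¬ (2 : ℤ) ∣ b := by
    rintro ⟨k, rfl⟩
    have : a * (2 * k) = 2 * (a * k) := by ring
    omega
  refine ⟨ha, hb, ?_⟩
  obtain ⟨k, hk⟩ : ∃ k, a = 4 * k + 1 ∨ a = 4 * k + 3 := ⟨a / 4, by omega⟩
  obtain ⟨l, hl⟩ : ∃ l, b = 4 * l + 1 ∨ b = 4 * l + 3 := ⟨b / 4, by omega⟩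
  rcases hk with rfl | rfl <;> rcases hl with rfl | rfl
  · exfalso
    have : (4 * k + 1) * (4 * l + 1) = 4 * (4 * k * l + k + l) + 1 := by ring
    omega
  · omega
  · omega
  · exfalso
    have : (4 * k + 3) * (4 * l + 3) = 4 * (4 * k * l + 3 * k + 3 * l + 2) + 1 := by ring
    omega

/-- step 5 -/
theorem card_A5 (M : ℤ) :
    ((Th M).filter (fun e => e.2.2 < 2 * e.1 ∧ ¬ (2 : ℤ) ∣ e.2.2)).card =
    ((Th (4 * M)).filter (fun e => 0 < e.1 ∧ e.2.1 + 2 * e.1 < e.2.2 ∧ ¬ (2 : ℤ) ∣ e.1)).card := by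
  refine card_nbij' (fun e => (2 * e.1 - e.2.2, e.2.2, 4 * e.2.1 + 4 * e.1 - e.2.2))
    (fun e => ((e.1 + e.2.1) / 2, (e.2.2 - e.2.1 - 2 * e.1) / 4, e.2.1))
    ?_ ?_ ?_ ?_
  · rintro ⟨x, u, v⟩ he
    simp only [coe_filter, Set.mem_ofPred_eq, mem_Th] at he ⊢
    obtain ⟨⟨hu, hv, h⟩, h1, h2⟩ := he
    exact ⟨⟨by omega, by omega, by rw [← h]; ring⟩, by omega, by omega, by omega⟩
  · rintro ⟨z, a, b⟩ he
    simp only [coe_filter, Set.mem_ofPred_eq, mem_Th] at he ⊢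
    obtain ⟨⟨hu, hv, h⟩, h1, h2, h3⟩ := he
    obtain ⟨ha, hb, hab⟩ := odd_ab h3 h
    obtain ⟨y, hy⟩ : ∃ y, z = 2 * y - a := ⟨(z + a) / 2, by omega⟩
    subst hy
    obtain ⟨u, hu'⟩ : ∃ u, b = 4 * u + 4 * y - a := ⟨(b - 4 * y + a) / 4, by omega⟩
    subst hu'
    have e1 : (2 * y - a + a) / 2 = y := by omega
    have e2 : (4 * u + 4 * y - a - a - 2 * (2 * y - a)) / 4 = u := by omega
    rw [e1, e2]
    refine ⟨⟨by omega, by omega, ?_⟩, by omega, by omega⟩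
    have : (2 * y - a) ^ 2 + a * (4 * u + 4 * y - a) = 4 * (y ^ 2 + u * a) := by ring
    omega
  · rintro ⟨x, u, v⟩ he
    simp only [Prod.mk.injEq]
    refine ⟨by omega, by omega, trivial⟩
  · rintro ⟨z, a, b⟩ he
    simp only [coe_filter, Set.mem_ofPred_eq, mem_Th] at he
    obtain ⟨⟨hu, hv, h⟩, h1, h2, h3⟩ := he
    obtain ⟨ha, hb, hab⟩ := odd_ab h3 h
    simp only [Prod.mk.injEq]
    refine ⟨by omega, trivial, by omega⟩

/-- step 6 -/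
theorem card_A6 (M : ℤ) :
    ((Th M).filter (fun e => 0 < e.1 ∧ e.2.1 < e.2.2 ∧ e.2.2 < e.2.1 + 2 * e.1 ∧
      ¬ (2 : ℤ) ∣ e.2.2 - e.2.1)).card =
    ((Th (4 * M)).filter (fun e => 0 < e.1 ∧ e.2.1 < e.2.2 ∧ e.2.2 < e.2.1 + 2 * e.1 ∧
      ¬ (2 : ℤ) ∣ e.1)).card := by
  refine card_nbij' (fun e => (e.2.1 + e.2.2, 2 * e.1 - (e.2.2 - e.2.1), 2 * e.1 + (e.2.2 - e.2.1)))
    (fun e => ((e.2.1 + e.2.2) / 4, (e.1 - (e.2.2 - e.2.1) / 2) / 2,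
      (e.1 + (e.2.2 - e.2.1) / 2) / 2))
    ?_ ?_ ?_ ?_
  · rintro ⟨z, a, b⟩ he
    simp only [coe_filter, Set.mem_ofPred_eq, mem_Th] at he ⊢
    obtain ⟨⟨hu, hv, h⟩, h1, h2, h3, h4⟩ := he
    exact ⟨⟨by omega, by omega, by rw [← h]; ring⟩, by omega, by omega, by omega, by omega⟩
  · rintro ⟨z, a, b⟩ he
    simp only [coe_filter, Set.mem_ofPred_eq, mem_Th] at he ⊢
    obtain ⟨⟨hu, hv, h⟩, h1, h2, h3, h4⟩ := he
    obtain ⟨ha, hb, hab⟩ := odd_ab h4 h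
    obtain ⟨d, hd⟩ : ∃ d, b = a + 2 * d := ⟨(b - a) / 2, by omega⟩
    subst hd
    obtain ⟨w, hw⟩ : ∃ w, a = 2 * w - d := ⟨(a + d) / 2, by omega⟩
    subst hw
    obtain ⟨r, hr⟩ : ∃ r, z = 2 * r + d := ⟨(z - d) / 2, by omega⟩
    subst hr
    have e1 : (2 * w - d + (2 * w - d + 2 * d)) / 4 = w := by omega
    have e2 : (2 * r + d - (2 * w - d + 2 * d - (2 * w - d)) / 2) / 2 = r := by omega
    have e3 : (2 * r + d + (2 * w - d + 2 * d - (2 * w - d)) / 2) / 2 = r + d := by omega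
    rw [e1, e2, e3]
    refine ⟨⟨by omega, by omega, ?_⟩, by omega, by omega, by omega, by omega⟩
    have : (2 * r + d) ^ 2 + (2 * w - d) * (2 * w - d + 2 * d) = 4 * (w ^ 2 + r * (r + d)) := by ring
    omega
  · rintro ⟨x, u, v⟩ he
    simp only [Prod.mk.injEq]
    refine ⟨by omega, by omega, by omega⟩
  · rintro ⟨z, a, b⟩ he
    simp only [coe_filter, Set.mem_ofPred_eq, mem_Th] at he
    obtain ⟨⟨hu, hv, h⟩, h1, h2, h3, h4⟩ := he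
    obtain ⟨ha, hb, hab⟩ := odd_ab h4 h
    simp only [Prod.mk.injEq]
    refine ⟨by omega, by omega, by omega⟩

/-- number of `(z,a,b)` with `z>0`, `a<b` of different parity, `z^2+ab=M`. -/
noncomputable def Sne (M : ℤ) : ℕ :=
  ((Th M).filter (fun e => 0 < e.1 ∧ e.2.1 < e.2.2 ∧ ¬ (2 : ℤ) ∣ e.2.2 - e.2.1)).card

/-- number of odd positive `(z,a,b)` with `a<b`, `z^2+ab=M`. -/
noncomputable def So (M : ℤ) : ℕ :=
  ((Th M).filter (fun e => 0 < e.1 ∧ e.2.1 < e.2.2 ∧ ¬ (2 : ℤ) ∣ e.1)).card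

theorem C_four {M : ℤ} (hM : ¬ IsSquare M) :
    ∃ B : ℕ, C (4 * M) + 2 * B = C M + Sne M + So (4 * M) := by
  refine ⟨((Th M).filter (fun e => 0 < e.1 ∧ e.2.1 < e.2.2 ∧ e.2.2 < e.2.1 + 2 * e.1 ∧
      ¬ (2 : ℤ) ∣ e.2.2 - e.2.1)).card, ?_⟩
  have c1 : C (4 * M) = ((Om (4 * M)).filter (fun e => e.2.2 < e.1 ∧ (2 : ℤ) ∣ e.2.2)).card +
      ((Om (4 * M)).filter (fun e => e.2.2 < e.1 ∧ ¬ (2 : ℤ) ∣ e.2.2)).card := by
    unfold C
    refine card_filter_split _ _ _ _ ?_ ?_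
    · rintro ⟨x, u, v⟩ _
      simp only
      tauto
    · rintro ⟨x, u, v⟩ _
      simp only
      tauto
  have c2 : ((Th M).filter (fun e => e.2.2 < e.1)).card =
      ((Th M).filter (fun e => e.2.2 < e.1 ∧ (2 : ℤ) ∣ e.2.1)).card +
      ((Th M).filter (fun e => e.2.2 < e.1 ∧ ¬ (2 : ℤ) ∣ e.2.1)).card := by
    refine card_filter_split _ _ _ _ ?_ ?_
    · rintro ⟨x, u, v⟩ _
      simp only
      tauto
    · rintro ⟨x, u, v⟩ _
      simp only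
      tauto
  have c3 : Sne M = ((Th M).filter (fun e => 0 < e.1 ∧ e.2.1 + 2 * e.1 < e.2.2 ∧
        ¬ (2 : ℤ) ∣ e.2.2 - e.2.1)).card +
      ((Th M).filter (fun e => 0 < e.1 ∧ e.2.1 < e.2.2 ∧ e.2.2 < e.2.1 + 2 * e.1 ∧
      ¬ (2 : ℤ) ∣ e.2.2 - e.2.1)).card := by
    unfold Sne
    refine card_filter_split _ _ _ _ ?_ ?_
    · rintro ⟨z, a, b⟩ _
      simp only
      constructor
      · rintro ⟨h1, h2, h3⟩
        have : b ≠ a + 2 * z := by omega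
        omega
      · rintro (⟨h1, h2, h3⟩ | ⟨h1, h2, h3, h4⟩)
        · exact ⟨h1, by omega, h3⟩
        · exact ⟨h1, h2, h4⟩
    · rintro ⟨z, a, b⟩ _
      simp only
      omega
  have c4 : So (4 * M) = ((Th (4 * M)).filter (fun e => 0 < e.1 ∧ e.2.1 + 2 * e.1 < e.2.2 ∧
        ¬ (2 : ℤ) ∣ e.1)).card +
      ((Th (4 * M)).filter (fun e => 0 < e.1 ∧ e.2.1 < e.2.2 ∧ e.2.2 < e.2.1 + 2 * e.1 ∧
      ¬ (2 : ℤ) ∣ e.1)).card := by
    unfold So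
    refine card_filter_split _ _ _ _ ?_ ?_
    · rintro ⟨z, a, b⟩ he
      rw [mem_Th] at he
      obtain ⟨ha, hb, h⟩ := he
      simp only
      constructor
      · rintro ⟨h1, h2, h3⟩
        have : b ≠ a + 2 * z := by
          rintro rfl
          obtain ⟨ha', hb', hab⟩ := odd_ab h3 h
          obtain ⟨k, hk⟩ : ∃ k, z + a = 2 * k := ⟨(z + a) / 2, by omega⟩
          apply hM
          refine ⟨k, ?_⟩
          have : z ^ 2 + a * (a + 2 * z) = (z + a) ^ 2 := by ring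
          rw [this, hk] at h
          linarith
        omega
      · rintro (⟨h1, h2, h3⟩ | ⟨h1, h2, h3, h4⟩)
        · exact ⟨h1, by omega, h3⟩
        · exact ⟨h1, h2, h4⟩
    · rintro ⟨z, a, b⟩ _
      simp only
      omega
  have a1 := card_A1 M
  have a2 := card_A2 M
  have a3 := card_A3 M
  have a4 := card_A4 M
  have a5 := card_A5 M
  have a6 := card_A6 M
  omega

end Pool.Agent.Nu3
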