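import Pool.Agent.Nu3.Even4

/-!
Parity of `Sne` and `So`.
-/

namespace Pool.Agent.Nu3

open Finset

theorem Sne_eq (M : ℤ) : Sne M =
    ((Th M).filter (fun e => 0 < e.1 ∧ ¬ (2 : ℤ) ∣ e.2.1 ∧ (2 : ℤ) ∣ e.2.2)).card := by
  unfold Sne
  refine card_nbij' (fun e => if (2 : ℤ) ∣ e.2.2 then e else (e.1, e.2.2, e.2.1))
    (fun e => if e.2.1 < e.2.2 then e else (e.1, e.2.2, e.2.1)) ?_ ?_ ?_ ?_
  · rintro ⟨z, a, b⟩ he
    simp only [coe_filter, Set.mem_ofPred_eq] at he ⊢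
    obtain ⟨h, h1, h2, h3⟩ := he
    split_ifs with h4
    · exact ⟨h, h1, by dsimp only; omega, h4⟩
    · rw [mem_Th] at h ⊢
      obtain ⟨ha, hb, h⟩ := h
      exact ⟨⟨hb, ha, by rw [← h]; ring⟩, h1, by dsimp only; omega, by dsimp only; omega⟩
  · rintro ⟨z, a, b⟩ he
    simp only [coe_filter, Set.mem_ofPred_eq] at he ⊢
    obtain ⟨h, h1, h2, h3⟩ := he
    split_ifs with h4
    · exact ⟨h, h1, h4, by dsimp only; omega⟩
    · rw [mem_Th] at h ⊢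
      obtain ⟨ha, hb, h⟩ := h
      refine ⟨⟨hb, ha, by rw [← h]; ring⟩, h1, by dsimp only; omega, by dsimp only; omega⟩
  · rintro ⟨z, a, b⟩ he
    simp only [coe_filter, Set.mem_ofPred_eq] at he
    obtain ⟨h, h1, h2, h3⟩ := he
    by_cases h4 : (2 : ℤ) ∣ b
    · simp [h4, h2]
    · have : ¬ (b < a) := by omega
      simp [h4, this]
  · rintro ⟨z, a, b⟩ he
    simp only [coe_filter, Set.mem_ofPred_eq] at he
    obtain ⟨h, h1, h2, h3⟩ := he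
    by_cases h4 : a < b
    · simp [h4, h3]
    · simp [h4, h2]

/-- odd part and 2-part of an integer (via naturals) -/
noncomputable def op (b : ℤ) : ℤ := ((ordCompl[2] b.toNat : ℕ) : ℤ)
noncomputable def tp (b : ℤ) : ℤ := ((ordProj[2] b.toNat : ℕ) : ℤ)

theorem tp_eq_pow (b : ℤ) : ∃ k : ℕ, tp b = 2 ^ k := ⟨b.toNat.factorization 2, by simp [tp]⟩

theorem tp_mul_op {b : ℤ} (hb : 0 < b) : tp b * op b = b := by
  unfold tp op
  rw [← Nat.cast_mul, Nat.ordProj_mul_ordCompl_eq_self]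
  omega

theorem op_odd {b : ℤ} (hb : 0 < b) : ¬ (2 : ℤ) ∣ op b := by
  unfold op
  have := Nat.not_dvd_ordCompl Nat.prime_two (n := b.toNat) (by omega)
  omega

theorem tp_pos (b : ℤ) : 0 < tp b := by
  obtain ⟨k, hk⟩ := tp_eq_pow b
  rw [hk]; positivity

theorem op_pos {b : ℤ} (hb : 0 < b) : 0 < op b := by
  have h := tp_mul_op hb
  have h2 := tp_pos b
  by_contra hc
  push Not at hc
  have : tp b * op b ≤ 0 := mul_nonpos_of_nonneg_of_nonpos h2.le hc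
  omega

theorem tp_mul_odd {b a : ℤ} (ha : 0 < a) (h2 : ¬ (2 : ℤ) ∣ a) :
    tp (tp b * a) = tp b := by
  obtain ⟨k, hk⟩ := tp_eq_pow b
  rw [hk]
  have h1 : ((2 : ℤ) ^ k * a).toNat = 2 ^ k * a.toNat := by
    have : ((2 : ℤ) ^ k * a) = ((2 ^ k * a.toNat : ℕ) : ℤ) := by
      push_cast
      rw [Int.toNat_of_nonneg ha.le]
    rw [this, Int.toNat_natCast]
  unfold tp
  rw [h1]
  have h3 : (2 ^ k * a.toNat).factorization 2 = k := by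
    rw [Nat.factorization_mul (by positivity) (by omega)]
    simp only [Finsupp.coe_add, Pi.add_apply]
    rw [Nat.Prime.factorization_pow Nat.prime_two]
    rw [Nat.factorization_eq_zero_of_not_dvd (by omega : ¬ 2 ∣ a.toNat)]
    simp
  rw [h3]
  push_cast
  rfl

theorem op_mul_odd {b a : ℤ} (ha : 0 < a) (h2 : ¬ (2 : ℤ) ∣ a) :
    op (tp b * a) = a := by
  have h := tp_mul_op (b := tp b * a) (mul_pos (tp_pos b) ha)
  rw [tp_mul_odd ha h2] at h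
  exact mul_left_cancel₀ (tp_pos b).ne' h

theorem even_of_invol {α : Type*} (s : Finset α) (g : α → α) (h1 : ∀ a ∈ s, g a ∈ s)
    (h2 : ∀ a ∈ s, g (g a) = a) (h3 : ∀ a ∈ s, g a ≠ a) : 2 ∣ s.card := by
  have h : (∑ a ∈ s, (1 : ZMod 2)) = 0 := by
    refine Finset.sum_involution (fun a _ => g a) ?_ ?_ ?_ ?_
    · intro a _
      decide
    · intro a ha _
      exact h3 a ha
    · intro a ha
      exact h1 a ha
    · intro a ha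
      exact h2 a ha
  rw [sum_const, nsmul_eq_mul, mul_one] at h
  rwa [ZMod.natCast_eq_zero_iff] at h

theorem Sne_even {M : ℤ} (h1 : ∀ x y : ℤ, x ^ 2 + y ^ 2 ≠ M)
    (h2 : ∀ x y : ℤ, x ^ 2 + 2 * y ^ 2 ≠ M) : 2 ∣ Sne M := by
  rw [Sne_eq]
  refine even_of_invol _ (fun e => (e.1, op e.2.2, tp e.2.2 * e.2.1)) ?_ ?_ ?_
  · rintro ⟨z, a, b⟩ he
    simp only [mem_filter, mem_Th] at he ⊢
    obtain ⟨⟨ha, hb, h⟩, hz, ha2, hb2⟩ := he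
    have e1 := tp_mul_op hb
    refine ⟨⟨op_pos hb, mul_pos (tp_pos b) ha, ?_⟩, hz, op_odd hb, ?_⟩
    · rw [← h]
      nth_rewrite 3 [← e1]
      ring
    · obtain ⟨k, hk⟩ := tp_eq_pow b
      rcases k with _ | k
      · exfalso
        rw [hk, pow_zero, one_mul] at e1
        exact op_odd hb (by rw [e1]; exact hb2)
      · rw [hk, pow_succ]
        exact ⟨2 ^ k * a, by ring⟩
  · rintro ⟨z, a, b⟩ he
    simp only [mem_filter, mem_Th] at he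
    obtain ⟨⟨ha, hb, h⟩, hz, ha2, hb2⟩ := he
    simp only
    rw [op_mul_odd ha ha2, tp_mul_odd ha ha2, tp_mul_op hb]
  · rintro ⟨z, a, b⟩ he hc
    simp only [mem_filter, mem_Th] at he
    obtain ⟨⟨ha, hb, h⟩, hz, ha2, hb2⟩ := he
    simp only [Prod.mk.injEq] at hc
    obtain ⟨_, hc1, hc2⟩ := hc
    obtain ⟨k, hk⟩ := tp_eq_pow b
    rw [hk] at hc2
    rcases Nat.even_or_odd' k with ⟨j, rfl | rfl⟩
    · apply h1 z (2 ^ j * a)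
      rw [← h, ← hc2]
      ring
    · apply h2 z (2 ^ j * a)
      rw [← h, ← hc2]
      ring

/-- step (i) for So -/
theorem So_eq1 {M : ℤ} (hM : ¬ IsSquare M) : So (4 * M) =
    ((Th (4 * M)).filter (fun e => ¬ (2 : ℤ) ∣ e.1 ∧ e.2.2 + 2 * e.1 < e.2.1 ∧
      (4 : ℤ) ∣ e.1 + e.2.2)).card := by
  unfold So
  have nsq : ∀ z a b : ℤ, ¬ (2 : ℤ) ∣ z → z ^ 2 + a * b = 4 * M → b ≠ a + 2 * z := by
    rintro z a b h3 h rfl
    obtain ⟨ha', hb', hab⟩ := odd_ab h3 h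
    obtain ⟨k, hk⟩ : ∃ k, z + a = 2 * k := ⟨(z + a) / 2, by omega⟩
    apply hM
    refine ⟨k, ?_⟩
    have : z ^ 2 + a * (a + 2 * z) = (z + a) ^ 2 := by ring
    rw [this, hk] at h
    linarith
  refine card_nbij' (fun e => if (4 : ℤ) ∣ e.1 + e.2.2 then (-e.1, e.2.2, e.2.1)
      else if e.2.2 - e.2.1 < 2 * e.1 then (-e.1, e.2.1, e.2.2) else (e.1, e.2.2, e.2.1))
    (fun e => if e.1 < 0 then (if e.2.2 < e.2.1 then (-e.1, e.2.2, e.2.1)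
      else (-e.1, e.2.1, e.2.2)) else (e.1, e.2.2, e.2.1)) ?_ ?_ ?_ ?_
  · rintro ⟨z, a, b⟩ he
    simp only [coe_filter, Set.mem_ofPred_eq, mem_Th] at he
    obtain ⟨⟨ha, hb, h⟩, h1, h2, h3⟩ := he
    obtain ⟨ha', hb', hab⟩ := odd_ab h3 h
    have hn := nsq z a b h3 h
    simp only [coe_filter, Set.mem_ofPred_eq]
    split_ifs with h4 h5
    · refine ⟨mem_Th.mpr ⟨hb, ha, by rw [← h]; ring⟩, ?_⟩
      dsimp only
      omega
    · refine ⟨mem_Th.mpr ⟨ha, hb, by rw [← h]; ring⟩, ?_⟩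
      dsimp only
      omega
    · refine ⟨mem_Th.mpr ⟨hb, ha, by rw [← h]; ring⟩, ?_⟩
      dsimp only
      omega
  · rintro ⟨z, a, b⟩ he
    simp only [coe_filter, Set.mem_ofPred_eq, mem_Th] at he
    obtain ⟨⟨ha, hb, h⟩, h1, h2, h3⟩ := he
    obtain ⟨ha', hb', hab⟩ := odd_ab h1 h
    simp only [coe_filter, Set.mem_ofPred_eq]
    split_ifs with h4 h5
    · refine ⟨mem_Th.mpr ⟨hb, ha, by rw [← h]; ring⟩, ?_⟩
      dsimp only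
      omega
    · refine ⟨mem_Th.mpr ⟨ha, hb, by rw [← h]; ring⟩, ?_⟩
      dsimp only
      omega
    · refine ⟨mem_Th.mpr ⟨hb, ha, by rw [← h]; ring⟩, ?_⟩
      dsimp only
      omega
  · rintro ⟨z, a, b⟩ he
    simp only [coe_filter, Set.mem_ofPred_eq, mem_Th] at he
    obtain ⟨⟨ha, hb, h⟩, h1, h2, h3⟩ := he
    have hn := nsq z a b h3 h
    by_cases h4 : (4 : ℤ) ∣ z + b
    · have h5 : -z < 0 := by omega
      simp only [h4, if_true, h5, h2, neg_neg]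
    · by_cases h5 : b - a < 2 * z
      · have h6 : -z < 0 := by omega
        have h7 : ¬ (b < a) := by omega
        simp only [h4, if_false, h5, h6, h7, if_true, neg_neg]
      · have h6 : ¬ (z < 0) := by omega
        simp only [h4, if_false, h5, h6]
  · rintro ⟨z, a, b⟩ he
    simp only [coe_filter, Set.mem_ofPred_eq, mem_Th] at he
    obtain ⟨⟨ha, hb, h⟩, h1, h2, h3⟩ := he
    obtain ⟨ha', hb', hab⟩ := odd_ab h1 h
    by_cases h4 : z < 0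
    · by_cases h5 : b < a
      · have h6 : (4 : ℤ) ∣ -z + a := by omega
        simp only [h4, h5, h6, if_true, neg_neg]
      · have h6 : ¬ (4 : ℤ) ∣ -z + b := by omega
        have h7 : b - a < 2 * -z := by omega
        simp only [h4, h5, h6, h7, if_true, if_false, neg_neg]
    · have h6 : ¬ (4 : ℤ) ∣ z + a := by omega
      have h7 : ¬ (a - b < 2 * z) := by omega
      simp only [h4, h6, h7, if_false]

/-- step (ii) for So -/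
theorem So_eq2 (M : ℤ) :
    ((Th (4 * M)).filter (fun e => ¬ (2 : ℤ) ∣ e.1 ∧ e.2.2 + 2 * e.1 < e.2.1 ∧
      (4 : ℤ) ∣ e.1 + e.2.2)).card =
    ((Om (4 * M)).filter (fun e => (4 : ℤ) ∣ e.1 ∧ ¬ (2 : ℤ) ∣ e.2.2 ∧
      e.2.2 < 2 * e.2.1 + 2 * e.1)).card := by
  refine card_nbij' (fun e => (e.1 + e.2.2, (e.2.1 - e.2.2 - 2 * e.1) / 2, e.2.2))
    (fun e => (e.1 - e.2.2, 2 * e.2.1 + 2 * e.1 - e.2.2, e.2.2)) ?_ ?_ ?_ ?_
  · rintro ⟨z, a, b⟩ he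
    simp only [coe_filter, Set.mem_ofPred_eq, mem_Th] at he
    obtain ⟨⟨ha, hb, h⟩, h1, h2, h3⟩ := he
    obtain ⟨ha', hb', hab⟩ := odd_ab h1 h
    simp only [coe_filter, Set.mem_ofPred_eq]
    obtain ⟨u, hu⟩ : ∃ u, a = 2 * u + b + 2 * z := ⟨(a - b - 2 * z) / 2, by omega⟩
    subst hu
    have e1 : (2 * u + b + 2 * z - b - 2 * z) / 2 = u := by omega
    rw [e1]
    refine ⟨mem_Om.mpr ⟨by omega, hb, by rw [← h]; ring⟩, h3, hb', by omega⟩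
  · rintro ⟨x, u, v⟩ he
    simp only [coe_filter, Set.mem_ofPred_eq, mem_Om] at he
    obtain ⟨⟨ha, hb, h⟩, h1, h2, h3⟩ := he
    simp only [coe_filter, Set.mem_ofPred_eq]
    refine ⟨mem_Th.mpr ⟨by omega, hb, by rw [← h]; ring⟩, by omega, by omega, by omega⟩
  · rintro ⟨z, a, b⟩ he
    simp only [coe_filter, Set.mem_ofPred_eq, mem_Th] at he
    obtain ⟨⟨ha, hb, h⟩, h1, h2, h3⟩ := he
    obtain ⟨ha', hb', hab⟩ := odd_ab h1 h
    simp only [Prod.mk.injEq]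
    refine ⟨by omega, by omega, trivial⟩
  · rintro ⟨x, u, v⟩ he
    simp only [Prod.mk.injEq]
    refine ⟨by omega, by omega, trivial⟩

theorem So_add (M : ℤ) :
    ((Om (4 * M)).filter (fun e => (4 : ℤ) ∣ e.1 ∧ ¬ (2 : ℤ) ∣ e.2.2)).card =
    ((Om (4 * M)).filter (fun e => (4 : ℤ) ∣ e.1 ∧ ¬ (2 : ℤ) ∣ e.2.2 ∧
      e.2.2 < 2 * e.2.1 + 2 * e.1)).card +
    ((Om (4 * M)).filter (fun e => (4 : ℤ) ∣ e.1 ∧ ¬ (2 : ℤ) ∣ e.2.2 ∧
      2 * e.2.1 + 2 * e.1 < e.2.2)).card := by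
  refine card_filter_split _ _ _ _ ?_ ?_
  · rintro ⟨x, u, v⟩ he
    simp only
    constructor
    · rintro ⟨h1, h2⟩
      omega
    · omega
  · rintro ⟨x, u, v⟩ he
    simp only
    omega

/-- `x ↦ -x` -/
theorem So_x0 (M : ℤ) : ∃ k : ℕ,
    ((Om (4 * M)).filter (fun e => (4 : ℤ) ∣ e.1 ∧ ¬ (2 : ℤ) ∣ e.2.2)).card =
    ((Om (4 * M)).filter (fun e => e.1 = 0 ∧ ¬ (2 : ℤ) ∣ e.2.2)).card + 2 * k := by
  refine ⟨((Om (4 * M)).filter (fun e => 0 < e.1 ∧ (4 : ℤ) ∣ e.1 ∧ ¬ (2 : ℤ) ∣ e.2.2)).card, ?_⟩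
  have h1 : ((Om (4 * M)).filter (fun e => (4 : ℤ) ∣ e.1 ∧ ¬ (2 : ℤ) ∣ e.2.2)).card =
    ((Om (4 * M)).filter (fun e => e.1 = 0 ∧ ¬ (2 : ℤ) ∣ e.2.2)).card +
    ((Om (4 * M)).filter (fun e => e.1 ≠ 0 ∧ (4 : ℤ) ∣ e.1 ∧ ¬ (2 : ℤ) ∣ e.2.2)).card := by
    refine card_filter_split _ _ _ _ ?_ ?_
    · rintro ⟨x, u, v⟩ he
      simp only
      constructor
      · rintro ⟨h1, h2⟩
        omega
      · omega
    · rintro ⟨x, u, v⟩ he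
      simp only
      omega
  have h2 : ((Om (4 * M)).filter (fun e => e.1 ≠ 0 ∧ (4 : ℤ) ∣ e.1 ∧ ¬ (2 : ℤ) ∣ e.2.2)).card =
    ((Om (4 * M)).filter (fun e => 0 < e.1 ∧ (4 : ℤ) ∣ e.1 ∧ ¬ (2 : ℤ) ∣ e.2.2)).card +
    ((Om (4 * M)).filter (fun e => e.1 < 0 ∧ (4 : ℤ) ∣ e.1 ∧ ¬ (2 : ℤ) ∣ e.2.2)).card := by
    refine card_filter_split _ _ _ _ ?_ ?_
    · rintro ⟨x, u, v⟩ he
      simp only
      constructor
      · rintro ⟨h1, h2⟩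
        omega
      · omega
    · rintro ⟨x, u, v⟩ he
      simp only
      omega
  have h3 : ((Om (4 * M)).filter (fun e => e.1 < 0 ∧ (4 : ℤ) ∣ e.1 ∧ ¬ (2 : ℤ) ∣ e.2.2)).card =
    ((Om (4 * M)).filter (fun e => 0 < e.1 ∧ (4 : ℤ) ∣ e.1 ∧ ¬ (2 : ℤ) ∣ e.2.2)).card := by
    refine card_nbij' (fun e => (-e.1, e.2.1, e.2.2)) (fun e => (-e.1, e.2.1, e.2.2)) ?_ ?_ ?_ ?_
    · rintro ⟨x, u, v⟩ he
      simp only [coe_filter, Set.mem_ofPred_eq, mem_Om] at he ⊢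
      obtain ⟨⟨ha, hb, h⟩, h1, h2, h3⟩ := he
      exact ⟨⟨ha, hb, by rw [← h]; ring⟩, by omega, by omega, h3⟩
    · rintro ⟨x, u, v⟩ he
      simp only [coe_filter, Set.mem_ofPred_eq, mem_Om] at he ⊢
      obtain ⟨⟨ha, hb, h⟩, h1, h2, h3⟩ := he
      exact ⟨⟨ha, hb, by rw [← h]; ring⟩, by omega, by omega, h3⟩
    · rintro ⟨x, u, v⟩ he
      simp
    · rintro ⟨x, u, v⟩ he
      simp
  omega

/-- `tau1` -/
theorem So_t1 (M : ℤ) : ∃ k : ℕ,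
    ((Om (4 * M)).filter (fun e => (4 : ℤ) ∣ e.1 ∧ ¬ (2 : ℤ) ∣ e.2.2 ∧
      2 * e.2.1 + 2 * e.1 < e.2.2)).card =
    ((Om (4 * M)).filter (fun e => e.1 = - e.2.1 ∧ (4 : ℤ) ∣ e.1 ∧ ¬ (2 : ℤ) ∣ e.2.2)).card
      + 2 * k := by
  refine ⟨((Om (4 * M)).filter (fun e => - e.2.1 < e.1 ∧ (4 : ℤ) ∣ e.1 ∧ ¬ (2 : ℤ) ∣ e.2.2 ∧
      2 * e.2.1 + 2 * e.1 < e.2.2)).card, ?_⟩
  have h1 : ((Om (4 * M)).filter (fun e => (4 : ℤ) ∣ e.1 ∧ ¬ (2 : ℤ) ∣ e.2.2 ∧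
      2 * e.2.1 + 2 * e.1 < e.2.2)).card =
    ((Om (4 * M)).filter (fun e => e.1 = - e.2.1 ∧ (4 : ℤ) ∣ e.1 ∧ ¬ (2 : ℤ) ∣ e.2.2)).card +
    ((Om (4 * M)).filter (fun e => e.1 ≠ - e.2.1 ∧ (4 : ℤ) ∣ e.1 ∧ ¬ (2 : ℤ) ∣ e.2.2 ∧
      2 * e.2.1 + 2 * e.1 < e.2.2)).card := by
    refine card_filter_split _ _ _ _ ?_ ?_
    · rintro ⟨x, u, v⟩ he
      rw [mem_Om] at he
      simp only
      constructor
      · rintro ⟨h1, h2, h3⟩
        omega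
      · omega
    · rintro ⟨x, u, v⟩ he
      simp only
      omega
  have h2 : ((Om (4 * M)).filter (fun e => e.1 ≠ - e.2.1 ∧ (4 : ℤ) ∣ e.1 ∧ ¬ (2 : ℤ) ∣ e.2.2 ∧
      2 * e.2.1 + 2 * e.1 < e.2.2)).card =
    ((Om (4 * M)).filter (fun e => - e.2.1 < e.1 ∧ (4 : ℤ) ∣ e.1 ∧ ¬ (2 : ℤ) ∣ e.2.2 ∧
      2 * e.2.1 + 2 * e.1 < e.2.2)).card +
    ((Om (4 * M)).filter (fun e => e.1 < - e.2.1 ∧ (4 : ℤ) ∣ e.1 ∧ ¬ (2 : ℤ) ∣ e.2.2 ∧
      2 * e.2.1 + 2 * e.1 < e.2.2)).card := by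
    refine card_filter_split _ _ _ _ ?_ ?_
    · rintro ⟨x, u, v⟩ he
      simp only
      constructor
      · rintro ⟨h1, h2⟩
        omega
      · omega
    · rintro ⟨x, u, v⟩ he
      simp only
      omega
  have key : ∀ {x u v : ℤ}, x ^ 2 + 2 * u * v = 4 * M → (4 : ℤ) ∣ x → ¬ (2 : ℤ) ∣ v →
      (2 : ℤ) ∣ u := by
    intro x u v h h4 h2
    exact (Int.prime_two.dvd_or_dvd (even_x4 h).2).resolve_right h2
  have h3 : ((Om (4 * M)).filter (fun e => e.1 < - e.2.1 ∧ (4 : ℤ) ∣ e.1 ∧ ¬ (2 : ℤ) ∣ e.2.2 ∧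
      2 * e.2.1 + 2 * e.1 < e.2.2)).card =
    ((Om (4 * M)).filter (fun e => - e.2.1 < e.1 ∧ (4 : ℤ) ∣ e.1 ∧ ¬ (2 : ℤ) ∣ e.2.2 ∧
      2 * e.2.1 + 2 * e.1 < e.2.2)).card := by
    refine card_nbij' (fun e => (- e.1 - 2 * e.2.1, e.2.1, e.2.2 - 2 * e.2.1 - 2 * e.1))
      (fun e => (- e.1 - 2 * e.2.1, e.2.1, e.2.2 - 2 * e.2.1 - 2 * e.1)) ?_ ?_ ?_ ?_
    · rintro ⟨x, u, v⟩ he
      simp only [coe_filter, Set.mem_ofPred_eq, mem_Om] at he ⊢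
      obtain ⟨⟨ha, hb, h⟩, h1, h2, h3, h4⟩ := he
      have h5 := key h h2 h3
      exact ⟨⟨ha, by omega, by rw [← h]; ring⟩, by omega, by omega, by omega, by omega⟩
    · rintro ⟨x, u, v⟩ he
      simp only [coe_filter, Set.mem_ofPred_eq, mem_Om] at he ⊢
      obtain ⟨⟨ha, hb, h⟩, h1, h2, h3, h4⟩ := he
      have h5 := key h h2 h3
      exact ⟨⟨ha, by omega, by rw [← h]; ring⟩, by omega, by omega, by omega, by omega⟩
    · rintro ⟨x, u, v⟩ he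
      simp only [Prod.mk.injEq]
      refine ⟨by ring, trivial, by ring⟩
    · rintro ⟨x, u, v⟩ he
      simp only [Prod.mk.injEq]
      refine ⟨by ring, trivial, by ring⟩
  omega

end Pool.Agent.Nu3
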