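import Pool.Agent.Nu3.Even4b

/-!
Explicit parity of `So (4M)`, and `C (4M)` modulo 2.
-/

namespace Pool.Agent.Nu3

open Finset

/-- the number of divisors of a nonsquare is even, in the form of halves -/
theorem card_div_split (M : ℕ) (P : ℕ → Prop) [DecidablePred P] (hM : ¬ IsSquare M) :
    (M.divisors.filter P).card = (M.divisors.filter (fun w => P w ∧ w * w < M)).card +
      (M.divisors.filter (fun w => P w ∧ M < w * w)).card := by
  refine card_filter_split _ _ _ _ ?_ ?_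
  · intro w hw
    constructor
    · intro h
      have : w * w ≠ M := fun h' => hM ⟨w, h'.symm⟩
      rcases lt_or_gt_of_ne this with h1 | h1
      · exact Or.inl ⟨h, h1⟩
      · exact Or.inr ⟨h, h1⟩
    · rintro (h | h)
      · exact h.1
      · exact h.1
  · intro w hw
    omega

theorem even_card_divisors {M : ℕ} (hM : ¬ IsSquare M) : 2 ∣ M.divisors.card := by
  refine even_of_invol _ (fun d => M / d) ?_ ?_ ?_
  · intro d hd
    rw [Nat.mem_divisors] at hd ⊢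
    exact ⟨Nat.div_dvd_of_dvd hd.1, hd.2⟩
  · intro d hd
    rw [Nat.mem_divisors] at hd
    exact Nat.div_div_self hd.1 hd.2
  · intro d hd h
    rw [Nat.mem_divisors] at hd
    apply hM
    refine ⟨d, ?_⟩
    obtain ⟨k, hk⟩ := hd.1
    have hd0 : 0 < d := Nat.pos_of_ne_zero (by rintro rfl; simp at hk; exact hd.2 hk)
    rw [hk, Nat.mul_div_cancel_left _ hd0] at h
    rw [hk, h]

theorem card_vi {M : ℕ} (hM : 0 < M) :
    ((Om (4 * (M : ℤ))).filter (fun e => e.1 = 0 ∧ ¬ (2 : ℤ) ∣ e.2.2)).card =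
      (M.divisors.filter (fun w => w % 2 = 1)).card := by
  refine card_nbij' (fun e => e.2.2.toNat) (fun w => (0, 2 * ((M / w : ℕ) : ℤ), (w : ℤ))) ?_ ?_ ?_ ?_
  · rintro ⟨x, u, v⟩ he
    simp only [coe_filter, Set.mem_ofPred_eq, mem_Om] at he ⊢
    obtain ⟨⟨ha, hb, h⟩, h1, h2⟩ := he
    subst h1
    obtain ⟨w, rfl⟩ : ∃ w : ℕ, v = w := ⟨v.toNat, by omega⟩
    have h3 : u * w = 2 * M := by linarith
    have h4 : (w : ℤ) ∣ 2 * M := ⟨u, by linarith⟩
    have h5 : IsCoprime (w : ℤ) 2 := by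
      have : IsCoprime (2 : ℤ) w := (Int.prime_two.coprime_iff_not_dvd).mpr h2
      exact this.symm
    have h6 := h5.dvd_of_dvd_mul_left h4
    simp only [Int.toNat_natCast, Nat.mem_divisors]
    refine ⟨⟨by exact_mod_cast h6, by omega⟩, by omega⟩
  · intro w hw
    simp only [coe_filter, Set.mem_ofPred_eq, Nat.mem_divisors, mem_Om] at hw ⊢
    obtain ⟨⟨⟨k, hk⟩, h1⟩, h2⟩ := hw
    have hw0 : 0 < w := by omega
    have hk0 : 0 < k := Nat.pos_of_ne_zero (by rintro rfl; simp at hk; omega)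
    rw [hk, Nat.mul_div_cancel_left _ hw0]
    refine ⟨⟨by positivity, by omega, ?_⟩, trivial, by omega⟩
    push_cast
    ring
  · rintro ⟨x, u, v⟩ he
    simp only [coe_filter, Set.mem_ofPred_eq, mem_Om] at he
    obtain ⟨⟨ha, hb, h⟩, h1, h2⟩ := he
    subst h1
    obtain ⟨w, rfl⟩ : ∃ w : ℕ, v = w := ⟨v.toNat, by omega⟩
    have h3 : u * w = 2 * M := by linarith
    have h4 : (w : ℤ) ∣ 2 * M := ⟨u, by linarith⟩
    have h5 : IsCoprime (w : ℤ) 2 := by
      have : IsCoprime (2 : ℤ) w := (Int.prime_two.coprime_iff_not_dvd).mpr h2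
      exact this.symm
    have h6 := h5.dvd_of_dvd_mul_left h4
    have h6' : w ∣ M := by exact_mod_cast h6
    obtain ⟨k, rfl⟩ := h6'
    have hw0 : 0 < w := by omega
    simp only [Int.toNat_natCast, Prod.mk.injEq]
    rw [Nat.mul_div_cancel_left _ hw0]
    refine ⟨trivial, ?_, trivial⟩
    push_cast at h3
    have hw0' : (w : ℤ) ≠ 0 := by omega
    refine mul_right_cancel₀ hw0' ?_
    linarith
  · intro w hw
    simp

theorem card_vii {M : ℕ} (hM : 0 < M) (hM2 : 2 ∣ M) :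
    ((Om (4 * (M : ℤ))).filter (fun e => e.1 = - e.2.1 ∧ (4 : ℤ) ∣ e.1 ∧ ¬ (2 : ℤ) ∣ e.2.2)).card =
      (M.divisors.filter (fun w => w % 2 = 1 ∧ M < w * w)).card := by
  refine card_nbij' (fun e => (e.2.1 / 2 + e.2.2).toNat)
    (fun w => (-2 * ((M / w : ℕ) : ℤ), 2 * ((M / w : ℕ) : ℤ), (w : ℤ) - ((M / w : ℕ) : ℤ)))
    ?_ ?_ ?_ ?_
  · rintro ⟨x, u, v⟩ he
    simp only [coe_filter, Set.mem_ofPred_eq, mem_Om] at he ⊢
    obtain ⟨⟨ha, hb, h⟩, h1, h2, h3⟩ := he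
    subst h1
    obtain ⟨k, rfl⟩ : ∃ k, u = 2 * k := ⟨u / 2, by omega⟩
    obtain ⟨w, hw⟩ : ∃ w : ℕ, k + v = w := ⟨(k + v).toNat, by omega⟩
    have hv : v = w - k := by omega
    subst hv
    have e1 : 2 * k / 2 + ((w : ℤ) - k) = w := by omega
    rw [e1]
    have h4 : k * w = M := by nlinarith
    simp only [Int.toNat_natCast, Nat.mem_divisors]
    refine ⟨⟨?_, by omega⟩, by omega, ?_⟩
    · have : (w : ℤ) ∣ M := ⟨k, by linarith⟩
      exact_mod_cast this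
    · have h5 : k < w := by omega
      have : (M : ℤ) < w * w := by rw [← h4]; nlinarith
      exact_mod_cast this
  · intro w hw
    simp only [coe_filter, Set.mem_ofPred_eq, Nat.mem_divisors, mem_Om] at hw ⊢
    obtain ⟨⟨⟨k, hk⟩, h1⟩, h2, h3⟩ := hw
    have hw0 : 0 < w := by omega
    have hk0 : 0 < k := Nat.pos_of_ne_zero (by rintro rfl; simp at hk; omega)
    rw [hk, Nat.mul_div_cancel_left _ hw0]
    have hkw : k < w := by
      rw [hk] at h3
      exact lt_of_mul_lt_mul_left h3 (Nat.zero_le w)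
    have hk2 : 2 ∣ k := by
      rw [hk] at hM2
      rcases (Nat.prime_two.dvd_mul).mp hM2 with h | h
      · omega
      · exact h
    refine ⟨⟨by positivity, by omega, ?_⟩, by ring, by omega, by omega⟩
    push_cast
    ring
  · rintro ⟨x, u, v⟩ he
    simp only [coe_filter, Set.mem_ofPred_eq, mem_Om] at he
    obtain ⟨⟨ha, hb, h⟩, h1, h2, h3⟩ := he
    subst h1
    obtain ⟨k, rfl⟩ : ∃ k : ℕ, u = 2 * k := ⟨(u / 2).toNat, by omega⟩
    obtain ⟨w, hw⟩ : ∃ w : ℕ, k + v = w := ⟨(k + v).toNat, by omega⟩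
    have hv : v = w - k := by omega
    subst hv
    have e1 : 2 * (k : ℤ) / 2 + ((w : ℤ) - k) = w := by omega
    simp only [e1]
    have h4 : (k : ℤ) * w = M := by nlinarith
    have h4' : k * w = M := by exact_mod_cast h4
    have hw0 : 0 < w := by omega
    simp only [Int.toNat_natCast, Prod.mk.injEq]
    rw [← h4', Nat.mul_div_cancel _ hw0]
    exact ⟨by ring, rfl, rfl⟩
  · intro w hw
    simp only [coe_filter, Set.mem_ofPred_eq, Nat.mem_divisors] at hw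
    simp only
    omega

theorem card_vii_odd {M : ℕ} (hM2 : ¬ 2 ∣ M) :
    ((Om (4 * (M : ℤ))).filter (fun e => e.1 = - e.2.1 ∧ (4 : ℤ) ∣ e.1 ∧ ¬ (2 : ℤ) ∣ e.2.2)).card =
      0 := by
  rw [card_eq_zero, filter_eq_empty_iff]
  rintro ⟨x, u, v⟩ he ⟨h1, h2, h3⟩
  rw [mem_Om] at he
  simp only at h1 h2 h3
  obtain ⟨ha, hb, h⟩ := he
  subst h1
  obtain ⟨k, rfl⟩ : ∃ k, u = 4 * k := ⟨u / 4, by omega⟩
  apply hM2
  have : (2 : ℤ) ∣ M := ⟨2 * k ^ 2 + k * v, by linarith⟩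
  exact_mod_cast this

/-- the threshold count -/
noncomputable def tc (M : ℕ) : ℕ := (M.divisors.filter (fun w => w % 2 = 1 ∧ w * w < M)).card

theorem So_parity_even {M : ℕ} (hM : ¬ IsSquare M) (hM2 : 2 ∣ M) :
    So (4 * (M : ℤ)) % 2 = tc M % 2 := by
  have hM0 : 0 < M := Nat.pos_of_ne_zero (by rintro rfl; exact hM ⟨0, rfl⟩)
  have hM' : ¬ IsSquare (M : ℤ) := by
    rintro ⟨k, hk⟩
    apply hM
    exact ⟨k.natAbs, by zify; rw [hk]; simp⟩
  have h1 := So_eq1 hM'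
  have h2 := So_eq2 (M : ℤ)
  have h3 := So_add (M : ℤ)
  obtain ⟨k, h4⟩ := So_x0 (M : ℤ)
  obtain ⟨l, h5⟩ := So_t1 (M : ℤ)
  rw [card_vi hM0] at h4
  rw [card_vii hM0 hM2] at h5
  have h6 := card_div_split M (fun w => w % 2 = 1) hM
  unfold tc
  omega

theorem So_parity_odd {M : ℕ} (hM : ¬ IsSquare M) (hM2 : ¬ 2 ∣ M) :
    So (4 * (M : ℤ)) % 2 = 0 := by
  have hM0 : 0 < M := Nat.pos_of_ne_zero (by rintro rfl; exact hM ⟨0, rfl⟩)
  have hM' : ¬ IsSquare (M : ℤ) := by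
    rintro ⟨k, hk⟩
    apply hM
    exact ⟨k.natAbs, by zify; rw [hk]; simp⟩
  have h1 := So_eq1 hM'
  have h2 := So_eq2 (M : ℤ)
  have h3 := So_add (M : ℤ)
  obtain ⟨k, h4⟩ := So_x0 (M : ℤ)
  obtain ⟨l, h5⟩ := So_t1 (M : ℤ)
  rw [card_vi hM0] at h4
  rw [card_vii_odd hM2] at h5
  have h6 : (M.divisors.filter (fun w => w % 2 = 1)) = M.divisors := by
    refine filter_true_of_mem ?_
    intro w hw
    rw [Nat.mem_divisors] at hw
    have : ¬ 2 ∣ w := fun h => hM2 (h.trans hw.1)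
    omega
  rw [h6] at h4
  have h7 := even_card_divisors hM
  omega

/-- `C(4M)` mod 2 -/
theorem C_four_mod {M : ℕ} (h0 : ¬ IsSquare M) (h1 : ∀ x y : ℤ, x ^ 2 + y ^ 2 ≠ M)
    (h2 : ∀ x y : ℤ, x ^ 2 + 2 * y ^ 2 ≠ M) :
    C (4 * (M : ℤ)) % 2 = (C M + (if 2 ∣ M then tc M else 0)) % 2 := by
  have hM' : ¬ IsSquare (M : ℤ) := by
    rintro ⟨k, hk⟩
    apply h0
    exact ⟨k.natAbs, by zify; rw [hk]; simp⟩
  obtain ⟨B, hB⟩ := C_four hM'
  have hS := Sne_even h1 h2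
  split_ifs with h
  · have := So_parity_even h0 h
    omega
  · have := So_parity_odd h0 h
    omega

end Pool.Agent.Nu3
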