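import Pool.Agent.Nu3.Delta

/-!
All 2-adic levels.
-/

namespace Pool.Agent.Nu3

open Finset

theorem tc_eq {No : ℕ} (hodd : No % 2 = 1) {s : ℕ} :
    tc (2 ^ s * No) = (No.divisors.filter (fun w => w * w < 2 ^ s * No)).card := by
  unfold tc
  congr 1
  ext w
  simp only [mem_filter, Nat.mem_divisors]
  constructor
  · rintro ⟨⟨h1, h2⟩, h3, h4⟩
    refine ⟨⟨?_, by omega⟩, h4⟩
    have hc : w.Coprime (2 ^ s) := by
      apply Nat.Coprime.pow_right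
      exact (Nat.coprime_two_right).mpr (Nat.odd_iff.mpr h3)
    exact hc.dvd_of_dvd_mul_left h1
  · rintro ⟨⟨h1, h2⟩, h3⟩
    refine ⟨⟨h1.mul_left _, by positivity⟩, ?_, h3⟩
    obtain ⟨e, he⟩ := h1
    rw [he] at hodd
    exact Nat.odd_iff.mp (Nat.odd_mul.mp (Nat.odd_iff.mpr hodd)).1

theorem chi_m1_3 {p : ℕ} [Fact p.Prime] (h : p % 8 = 3) :
    quadraticChar (ZMod p) (-1) = -1 := by
  have h2 : ringChar (ZMod p) ≠ 2 := ringChar_ne_two (by omega)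
  rw [quadraticChar_neg_one h2, ZMod.card, ZMod.χ₄_nat_three_mod_four (by omega)]

theorem neg_exd {p N : ℕ} (h : ExD p N) : (p : ℤ) ∣ -(N : ℤ) ∧ ¬ ((p : ℤ) ^ 2 ∣ -(N : ℤ)) := by
  rw [dvd_neg, dvd_neg]
  exact h.int

theorem no_sq_sq {p N : ℕ} [Fact p.Prime] (h8 : p % 8 = 3) (h : ExD p N) (x y : ℤ) :
    x ^ 2 + y ^ 2 ≠ N := by
  have := kill (a := 1) h.int.1 h.int.2 (by push_cast; exact chi_m1_3 h8) x y
  simpa using this

theorem no_sq_2sq {q N : ℕ} [Fact q.Prime] (h8 : q % 8 = 5) (h : ExD q N) (x y : ℤ) :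
    x ^ 2 + 2 * y ^ 2 ≠ N := by
  exact kill (a := 2) h.int.1 h.int.2 (by push_cast; exact (chi2_5 h8).2) x y

theorem no_2sq_sq {q N : ℕ} [Fact q.Prime] (h8 : quadraticChar (ZMod q) 2 = -1) (h : ExD q N)
    (x y : ℤ) : 2 * x ^ 2 - y ^ 2 ≠ N := by
  have := kill (a := -2) (neg_exd h).1 (neg_exd h).2 (by push_cast; simpa using h8) y x
  intro h'
  apply this
  rw [← h']
  ring

theorem two_not {p : ℕ} (hp : p.Prime) (h : p % 2 = 1) (s : ℕ) : ¬ p ∣ 2 ^ s := by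
  intro h'
  have := hp.dvd_of_dvd_pow h'
  have := (Nat.prime_dvd_prime_iff_eq hp Nat.prime_two).mp this
  omega

/-- values of `C` on the family -/
noncomputable def Fv (N1 l1 l2 s i j : ℕ) : ℕ := C ((2 ^ s * (N1 * (l1 ^ i * l2 ^ j)) : ℕ) : ℤ)

/-- second difference -/
noncomputable def Dv (N1 l1 l2 s i j : ℕ) : ℤ :=
  (Fv N1 l1 l2 s (i + 2) (j + 2) : ℤ) + Fv N1 l1 l2 s i j - Fv N1 l1 l2 s (i + 2) j -
    Fv N1 l1 l2 s i (j + 2)

theorem card_divisors_odd_odd {N1 l1 l2 : ℕ} (h1 : l1.Prime) (h2 : l2.Prime) (hne : l1 ≠ l2)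
    (hn1 : ¬ l1 ∣ N1) (hn2 : ¬ l2 ∣ N1) {i j : ℕ} (hi : i % 2 = 1) (hj : j % 2 = 1) :
    4 ∣ (N1 * (l1 ^ i * l2 ^ j)).divisors.card := by
  have h := sum_family h1 h2 hne hn1 hn2 i j (fun _ => 1)
  simp only [sum_const, card_range, nsmul_eq_mul, mul_one] at h
  have h3 : (N1 * (l1 ^ i * l2 ^ j)).divisors.card = N1.divisors.card * ((i + 1) * (j + 1)) := by
    exact_mod_cast h
  rw [h3]
  obtain ⟨a, ha⟩ : ∃ a, i + 1 = 2 * a := ⟨(i + 1) / 2, by omega⟩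
  obtain ⟨b, hb⟩ : ∃ b, j + 1 = 2 * b := ⟨(j + 1) / 2, by omega⟩
  rw [ha, hb]
  exact ⟨N1.divisors.card * (a * b), by ring⟩

namespace Fam

variable {p q N1 l1 l2 : ℕ} (F : Fam p q N1 l1 l2)
include F

theorem exp2 (s a b : ℕ) : ExD p (2 ^ s * (N1 * (l1 ^ a * l2 ^ b))) := by
  rw [mul_comm]
  exact (F.exp a b).mul F.hp (two_not F.hp (by have := F.hp8; omega) s)

theorem exq2 (s a b : ℕ) : ExD q (2 ^ s * (N1 * (l1 ^ a * l2 ^ b))) := by
  rw [mul_comm]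
  exact (F.exq a b).mul F.hq (two_not F.hq (by have := F.hq8; omega) s)

theorem Fv_step (s i j : ℕ) : Fv N1 l1 l2 (s + 2) i j % 2 =
    (Fv N1 l1 l2 s i j + (if s = 0 then 0 else tc (2 ^ s * (N1 * (l1 ^ i * l2 ^ j))))) % 2 := by
  have : Fact p.Prime := ⟨F.hp⟩
  have : Fact q.Prime := ⟨F.hq⟩
  have h := C_four_mod (M := 2 ^ s * (N1 * (l1 ^ i * l2 ^ j))) ((F.exp2 s i j).not_sq F.hp)
    (no_sq_sq F.hp8 (F.exp2 s i j)) (no_sq_2sq F.hq8 (F.exq2 s i j))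
  unfold Fv
  have e : ((2 ^ (s + 2) * (N1 * (l1 ^ i * l2 ^ j)) : ℕ) : ℤ) =
      4 * ((2 ^ s * (N1 * (l1 ^ i * l2 ^ j)) : ℕ) : ℤ) := by
    push_cast; ring
  rw [e, h]
  have hodd := F.odd i j
  by_cases hs : s = 0
  · subst hs
    have : ¬ 2 ∣ 2 ^ 0 * (N1 * (l1 ^ i * l2 ^ j)) := by
      rw [pow_zero, one_mul]; omega
    rw [if_neg this, if_pos rfl]
  · have : 2 ∣ 2 ^ s * (N1 * (l1 ^ i * l2 ^ j)) := (dvd_pow_self 2 hs).mul_right _
    rw [if_pos this, if_neg hs]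

theorem Fv_one {i j : ℕ} (hi : i % 2 = 1) (hj : j % 2 = 1) : Fv N1 l1 l2 1 i j % 2 = 0 := by
  have : Fact p.Prime := ⟨F.hp⟩
  have : Fact q.Prime := ⟨F.hq⟩
  have hodd := F.odd i j
  have e : ((2 ^ 1 * (N1 * (l1 ^ i * l2 ^ j)) : ℕ) : ℤ) = 2 * ((N1 * (l1 ^ i * l2 ^ j) : ℕ) : ℤ) := by
    push_cast; ring
  have h1 := no_sq_2sq F.hq8 (F.exq2 1 i j)
  have h2 := no_2sq_sq (chi2_5 F.hq8).1 (F.exq2 1 i j)
  have h3 := no_sq_sq F.hp8 (F.exp2 1 i j)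
  rw [e] at h1 h2 h3
  have h := C2_special hodd h1 h2 h3
  have h4 := card_divisors_odd_odd F.h1 F.h2 F.hne F.n1 F.n2 hi hj
  unfold Fv
  rw [e]
  omega

theorem tc_sum (s i j : ℕ) : (tc (2 ^ s * (N1 * (l1 ^ i * l2 ^ j))) : ℤ) =
    ∑ d ∈ N1.divisors, Asum (hh l1 l2 ((d : ℝ) ^ 2) ((2 ^ s * N1 : ℕ) : ℝ)) i j := by
  rw [tc_eq (F.odd i j)]
  have := card_thresh F.h1 F.h2 F.hne F.n1 F.n2 i j (2 ^ s * N1)
  rw [← this]
  simp only [mul_assoc]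

theorem Dv_step {s : ℕ} (hs : s ≠ 0) (i j : ℕ) : (2 : ℤ) ∣ Dv N1 l1 l2 (s + 2) i j -
    (Dv N1 l1 l2 s i j + ∑ d ∈ N1.divisors,
      (Asum (hh l1 l2 ((d : ℝ) ^ 2) ((2 ^ s * N1 : ℕ) : ℝ)) (i + 2) (j + 2) +
        Asum (hh l1 l2 ((d : ℝ) ^ 2) ((2 ^ s * N1 : ℕ) : ℝ)) i j -
      Asum (hh l1 l2 ((d : ℝ) ^ 2) ((2 ^ s * N1 : ℕ) : ℝ)) (i + 2) j -
      Asum (hh l1 l2 ((d : ℝ) ^ 2) ((2 ^ s * N1 : ℕ) : ℝ)) i (j + 2))) := by
  rw [sum_sub_distrib, sum_sub_distrib, sum_add_distrib]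
  rw [← F.tc_sum, ← F.tc_sum, ← F.tc_sum, ← F.tc_sum]
  have a1 := F.Fv_step s (i + 2) (j + 2)
  have a2 := F.Fv_step s i j
  have a3 := F.Fv_step s (i + 2) j
  have a4 := F.Fv_step s i (j + 2)
  rw [if_neg hs] at a1 a2 a3 a4
  unfold Dv
  omega

theorem Dv_one {i j : ℕ} (hi : i % 2 = 1) (hj : j % 2 = 1) : (2 : ℤ) ∣ Dv N1 l1 l2 1 i j := by
  have a1 := F.Fv_one (i := i + 2) (j := j + 2) (by omega) (by omega)
  have a2 := F.Fv_one (i := i) (j := j) (by omega) (by omega)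
  have a3 := F.Fv_one (i := i + 2) (j := j) (by omega) (by omega)
  have a4 := F.Fv_one (i := i) (j := j + 2) (by omega) (by omega)
  unfold Dv
  omega

theorem Dv_zero [Fact p.Prime] [Fact q.Prime] (i j : ℕ) : (4 : ℤ) ∣ 2 * Dv N1 l1 l2 0 i j +
    ∑ d ∈ N1.divisors, gg p q N1 d *
      (Asum (hh l1 l2 ((d : ℝ) ^ 2) N1) (i + 2) (j + 2) +
        Asum (hh l1 l2 ((d : ℝ) ^ 2) N1) i j -
      Asum (hh l1 l2 ((d : ℝ) ^ 2) N1) (i + 2) j -
      Asum (hh l1 l2 ((d : ℝ) ^ 2) N1) i (j + 2)) := by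
  have a1 := F.rel0 (i + 2) (j + 2)
  have a2 := F.rel0 i j
  have a3 := F.rel0 (i + 2) j
  have a4 := F.rel0 i (j + 2)
  have hsum : ∑ d ∈ N1.divisors, gg p q N1 d *
      (Asum (hh l1 l2 ((d : ℝ) ^ 2) N1) (i + 2) (j + 2) +
        Asum (hh l1 l2 ((d : ℝ) ^ 2) N1) i j -
      Asum (hh l1 l2 ((d : ℝ) ^ 2) N1) (i + 2) j -
      Asum (hh l1 l2 ((d : ℝ) ^ 2) N1) i (j + 2)) =
      ∑ d ∈ N1.divisors, gg p q N1 d * Asum (hh l1 l2 ((d : ℝ) ^ 2) N1) (i + 2) (j + 2) +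
      ∑ d ∈ N1.divisors, gg p q N1 d * Asum (hh l1 l2 ((d : ℝ) ^ 2) N1) i j -
      ∑ d ∈ N1.divisors, gg p q N1 d * Asum (hh l1 l2 ((d : ℝ) ^ 2) N1) (i + 2) j -
      ∑ d ∈ N1.divisors, gg p q N1 d * Asum (hh l1 l2 ((d : ℝ) ^ 2) N1) i (j + 2) := by
    rw [← sum_add_distrib, ← sum_sub_distrib, ← sum_sub_distrib]
    refine sum_congr rfl ?_
    intro d _
    ring
  rw [hsum]
  unfold Dv Fv
  simp only [pow_zero, one_mul]
  have := dvd_sub (dvd_sub (dvd_add a1 a2) a3) a4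
  obtain ⟨k, hk⟩ := this
  exact ⟨k, by linarith⟩

theorem Dv_big (s : ℕ) : ∀ {i j : ℕ}, i % 2 = 1 → j % 2 = 1 → 2 ^ (s - 2) * N1 ≤ l1 →
    (((2 ^ (s - 2) * N1 : ℕ) : ℝ) * (l2 : ℝ) ^ (j + 2) < (l1 : ℝ) ^ (i + 2)) →
    (2 : ℤ) ∣ Dv N1 l1 l2 s i j := by
  have : Fact p.Prime := ⟨F.hp⟩
  have : Fact q.Prime := ⟨F.hq⟩
  have l2pos : (0 : ℝ) < l2 := by exact_mod_cast F.h2.pos
  have big0 : ∀ {i j : ℕ}, (N1 : ℝ) * (l2 : ℝ) ^ (j + 2) < (l1 : ℝ) ^ (i + 2) →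
      (2 : ℤ) ∣ Dv N1 l1 l2 0 i j := by
    intro i j hR
    have h := F.Dv_zero i j
    rw [sum_congr rfl (fun d hd => by
      rw [F.kappa_big le_rfl F.hl1N.le hR hd])] at h
    rw [← sum_mul] at h
    have h2 := F.gg_sum_even
    omega
  have stepz : ∀ i j : ℕ, (2 : ℤ) ∣ Dv N1 l1 l2 2 i j - Dv N1 l1 l2 0 i j := by
    intro i j
    have a1 := F.Fv_step 0 (i + 2) (j + 2)
    have a2 := F.Fv_step 0 i j
    have a3 := F.Fv_step 0 (i + 2) j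
    have a4 := F.Fv_step 0 i (j + 2)
    simp only [if_true, add_zero, zero_add] at a1 a2 a3 a4
    unfold Dv
    omega
  induction s using Nat.strong_induction_on with
  | _ s ih =>
    intro i j hi hj hl hR
    rcases s with _ | _ | s
    · simp only [zero_le, Nat.sub_eq_zero_of_le, pow_zero, one_mul] at hR
      exact big0 hR
    · exact F.Dv_one hi hj
    · by_cases hs : s = 0
      · subst hs
        simp only [zero_add, Nat.sub_self, pow_zero, one_mul] at hR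
        have h1 := big0 hR
        have h2 := stepz i j
        have := dvd_add h1 h2
        simpa using this
      · have e : s + 1 + 1 - 2 = s := by omega
        rw [e] at hl hR
        have hle : 2 ^ (s - 2) * N1 ≤ 2 ^ s * N1 :=
          Nat.mul_le_mul_right _ (Nat.pow_le_pow_right (by norm_num) (by omega))
        have hleR : ((2 ^ (s - 2) * N1 : ℕ) : ℝ) ≤ ((2 ^ s * N1 : ℕ) : ℝ) := by exact_mod_cast hle
        have hR' : ((2 ^ (s - 2) * N1 : ℕ) : ℝ) * (l2 : ℝ) ^ (j + 2) < (l1 : ℝ) ^ (i + 2) := by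
          have : (0 : ℝ) < (l2 : ℝ) ^ (j + 2) := by positivity
          nlinarith
        have h1 := ih s (by omega) hi hj (hle.trans hl) hR'
        have h2 := F.Dv_step hs i j
        have hN1n : N1 ≤ 2 ^ s * N1 := Nat.le_mul_of_pos_left _ (by positivity)
        rw [sum_congr rfl (fun d hd => by
          rw [F.kappa_big hN1n hl hR hd])] at h2
        rw [sum_const, nsmul_eq_mul] at h2
        have e2 : s + 1 + 1 = s + 2 := rfl
        rw [e2]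
        omega

theorem Dv_win {s : ℕ} (hs1 : s ≠ 1) {i j : ℕ} (hi : i % 2 = 1) (hj : j % 2 = 1)
    (hl : 2 ^ (s - 2) * N1 ≤ l1)
    (hR1 : ((2 ^ (s - 2) * N1 : ℕ) : ℝ) / 4 * (l2 : ℝ) ^ (j + 2) < (l1 : ℝ) ^ (i + 2))
    (hR2 : (l1 : ℝ) ^ (i + 2) < ((2 ^ (s - 2) * N1 : ℕ) : ℝ) * (l2 : ℝ) ^ (j + 2)) :
    ¬ (2 : ℤ) ∣ Dv N1 l1 l2 s i j := by
  have : Fact p.Prime := ⟨F.hp⟩
  have : Fact q.Prime := ⟨F.hq⟩
  have l2pos : (0 : ℝ) < l2 := by exact_mod_cast F.h2.pos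
  have h1mem : 1 ∈ N1.divisors := Nat.one_mem_divisors.mpr F.N1pos.ne'
  have hNmem : N1 ∈ N1.divisors := Nat.mem_divisors_self _ F.N1pos.ne'
  have win0 : (N1 : ℝ) / 4 * (l2 : ℝ) ^ (j + 2) < (l1 : ℝ) ^ (i + 2) →
      (l1 : ℝ) ^ (i + 2) < (N1 : ℝ) * (l2 : ℝ) ^ (j + 2) → ¬ (2 : ℤ) ∣ Dv N1 l1 l2 0 i j := by
    intro h1 h2
    have h := F.Dv_zero i j
    rw [sum_congr rfl (fun d hd => by
      rw [F.kappa_win0 h1 h2 hd])] at h
    have e : ∑ d ∈ N1.divisors, gg p q N1 d * (2 + (if d = 1 then 1 else 0) -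
        (if d = N1 then 1 else 0)) =
        2 * ∑ d ∈ N1.divisors, gg p q N1 d + gg p q N1 1 - gg p q N1 N1 := by
      have : ∀ d, gg p q N1 d * (2 + (if d = 1 then 1 else 0) - (if d = N1 then 1 else 0)) =
          2 * gg p q N1 d + (if d = 1 then gg p q N1 d else 0) -
            (if d = N1 then gg p q N1 d else 0) := by
        intro d
        split_ifs <;> ring
      simp only [this]
      rw [sum_sub_distrib, sum_add_distrib, ← mul_sum, sum_ite_eq' , sum_ite_eq', if_pos h1mem,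
        if_pos hNmem]
    rw [e, F.gg_one, F.gg_self] at h
    have h3 := F.gg_sum_even
    omega
  rcases s with _ | _ | s
  · simp only [zero_le, Nat.sub_eq_zero_of_le, pow_zero, one_mul] at hR1 hR2
    exact win0 hR1 hR2
  · exact absurd rfl hs1
  · by_cases hs : s = 0
    · subst hs
      simp only [zero_add, Nat.sub_self, pow_zero, one_mul] at hR1 hR2
      have h1 := win0 hR1 hR2
      have a1 := F.Fv_step 0 (i + 2) (j + 2)
      have a2 := F.Fv_step 0 i j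
      have a3 := F.Fv_step 0 (i + 2) j
      have a4 := F.Fv_step 0 i (j + 2)
      simp only [if_true, add_zero, zero_add] at a1 a2 a3 a4
      change ¬ (2 : ℤ) ∣ Dv N1 l1 l2 2 i j
      unfold Dv at h1 ⊢
      omega
    · have e : s + 1 + 1 - 2 = s := by omega
      rw [e] at hl hR1 hR2
      have h1 : (2 : ℤ) ∣ Dv N1 l1 l2 s i j := by
        by_cases hs2 : s = 1
        · subst hs2
          exact F.Dv_one hi hj
        · have hle : 2 ^ (s - 2) * N1 ≤ 2 ^ s * N1 :=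
            Nat.mul_le_mul_right _ (Nat.pow_le_pow_right (by norm_num) (by omega))
          refine F.Dv_big s hi hj (hle.trans hl) ?_
          have : ((2 ^ (s - 2) * N1 : ℕ) : ℝ) = ((2 ^ s * N1 : ℕ) : ℝ) / 4 := by
            obtain ⟨t, rfl⟩ : ∃ t, s = t + 2 := ⟨s - 2, by omega⟩
            simp only [Nat.add_sub_cancel]
            push_cast
            ring
          rw [this]
          exact hR1
      have h2 := F.Dv_step hs i j
      have hN1n : 2 * N1 ≤ 2 ^ s * N1 := by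
        apply Nat.mul_le_mul_right
        calc 2 = 2 ^ 1 := rfl
          _ ≤ 2 ^ s := Nat.pow_le_pow_right (by norm_num) (by omega)
      rw [sum_congr rfl (fun d hd => by
        rw [F.kappa_win hN1n hl hR1 hR2 hd])] at h2
      rw [sum_add_distrib, sum_const, nsmul_eq_mul, sum_ite_eq', if_pos h1mem] at h2
      have e2 : s + 1 + 1 = s + 2 := rfl
      rw [e2]
      omega

theorem exists_odd {s : ℕ} (hs1 : s ≠ 1) (hl : 2 ^ (s - 2) * N1 ≤ l1) :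
    ∃ i j : ℕ, Fv N1 l1 l2 s i j % 2 = 1 := by
  have hN : (0 : ℝ) < ((2 ^ (s - 2) * N1 : ℕ) : ℝ) := by
    have := F.N1pos
    positivity
  obtain ⟨I, J, hI, hJ, hI3, hJ3, h1, h2⟩ := window_primes F.h1 F.h2 F.hne
    (A := ((2 ^ (s - 2) * N1 : ℕ) : ℝ) / 4) (B := ((2 ^ (s - 2) * N1 : ℕ) : ℝ))
    (by positivity) (by linarith)
  obtain ⟨i, rfl⟩ : ∃ i, I = i + 2 := ⟨I - 2, by omega⟩
  obtain ⟨j, rfl⟩ : ∃ j, J = j + 2 := ⟨J - 2, by omega⟩
  have h := F.Dv_win hs1 (i := i) (j := j) (by omega) (by omega) hl h1 h2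
  by_contra hc
  push Not at hc
  have a1 := hc (i + 2) (j + 2)
  have a2 := hc i j
  have a3 := hc (i + 2) j
  have a4 := hc i (j + 2)
  apply h
  unfold Dv
  omega

end Fam

end Pool.Agent.Nu3
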