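import Mathlib

/-!
Windows for quotients of odd powers of two primes.
-/

namespace Pool.Agent.Nu3

open Set Filter

theorem window {x y : ℝ} (hx : 0 < x) (hy : 0 < y) (hirr : Irrational (x / y)) {α β : ℝ}
    (hαβ : α < β) : ∃ a b : ℕ, 1 ≤ a ∧ 1 ≤ b ∧ α < (2 * a + 1) * x - (2 * b + 1) * y ∧
      (2 * a + 1) * x - (2 * b + 1) * y < β := by
  haveI : Fact (0 < 2 * y) := ⟨by linarith⟩
  have hd : DenseRange (· • ((2 * x : ℝ) : AddCircle (2 * y)) : ℤ → AddCircle (2 * y)) := by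
    rw [AddCircle.denseRange_zsmul_coe_iff]
    rw [mul_div_mul_left _ _ (two_ne_zero)]
    exact hirr
  set t : AddCircle (2 * y) := (((α + β) / 2 - x + y : ℝ) : AddCircle (2 * y)) with ht
  set U : Set (AddCircle (2 * y)) := (fun r : ℝ => (r : AddCircle (2 * y))) ''
    Ioo (α - x + y) (β - x + y) with hU
  have hUo : IsOpen U := QuotientAddGroup.isOpenMap_coe _ isOpen_Ioo
  have htU : t ∈ U := ⟨(α + β) / 2 - x + y, ⟨by linarith, by linarith⟩, rfl⟩
  have hcl : MapClusterPt t atTop (fun n : ℕ => n • ((2 * x : ℝ) : AddCircle (2 * y))) := by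
    rw [mapClusterPt_atTop_nsmul_iff_mem_topologicalClosure_zmultiples]
    have : t ∈ closure (Set.range (fun n : ℤ => n • ((2 * x : ℝ) : AddCircle (2 * y)))) := hd t
    have h2 : Set.range (fun n : ℤ => n • ((2 * x : ℝ) : AddCircle (2 * y))) =
        (AddSubgroup.zmultiples ((2 * x : ℝ) : AddCircle (2 * y)) : Set (AddCircle (2 * y))) := by
      rw [AddSubgroup.coe_zmultiples]
    rw [h2] at this
    exact this
  have hfr := hcl.frequently (hUo.mem_nhds htU)
  obtain ⟨n0, hn0⟩ := exists_nat_gt ((β + 3 * y) / x)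
  obtain ⟨n, hn, hnU⟩ := frequently_atTop.mp hfr (n0 + 1)
  obtain ⟨τ, ⟨hτ1, hτ2⟩, hτ⟩ := hnU
  have hτ' : ((τ : ℝ) : AddCircle (2 * y)) = ((n * (2 * x) : ℝ) : AddCircle (2 * y)) := by
    rw [show ((n * (2 * x) : ℝ) : AddCircle (2 * y)) = n • ((2 * x : ℝ) : AddCircle (2 * y)) by
      rw [← AddCircle.coe_nsmul, nsmul_eq_mul]]
    exact hτ
  rw [QuotientAddGroup.eq] at hτ'
  rw [AddSubgroup.mem_zmultiples_iff] at hτ'
  obtain ⟨b, hb⟩ := hτ'
  have hb' : (b : ℝ) * (2 * y) = - τ + n * (2 * x) := by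
    rw [← hb]; simp
  have hnn : (n0 : ℝ) + 1 ≤ n := by exact_mod_cast hn
  have hx1 : β + 3 * y < n0 * x := by
    rwa [div_lt_iff₀ hx] at hn0
  have hbig : β + 3 * y < n * x := by nlinarith
  have hb1 : 1 < (b : ℝ) := by
    have h1 : 3 * y < (2 * b + 1) * y := by nlinarith
    have h2 : 3 < 2 * (b : ℝ) + 1 := lt_of_mul_lt_mul_right h1 hy.le
    linarith
  have hb2 : 1 < b := by exact_mod_cast hb1
  obtain ⟨c, rfl⟩ : ∃ c : ℕ, b = c := ⟨b.toNat, by omega⟩
  refine ⟨n, c, by omega, by omega, ?_, ?_⟩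
  · push_cast at hb'
    nlinarith
  · push_cast at hb'
    nlinarith

theorem irr_log {p q : ℕ} (hp : p.Prime) (hq : q.Prime) (hne : p ≠ q) :
    Irrational (Real.log p / Real.log q) := by
  have hp1 : (1 : ℝ) < p := by exact_mod_cast hp.one_lt
  have hq1 : (1 : ℝ) < q := by exact_mod_cast hq.one_lt
  have lp := Real.log_pos hp1
  have lq := Real.log_pos hq1
  rintro ⟨r, hr⟩
  have hrpos : (0 : ℝ) < r := by rw [hr]; positivity
  have hrpos' : 0 < r := by exact_mod_cast hrpos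
  have hnum : 0 < r.num := Rat.num_pos.mpr hrpos'
  obtain ⟨n, hn⟩ : ∃ n : ℕ, r.num = n := ⟨r.num.toNat, by omega⟩
  have h1 : (n : ℝ) * Real.log q = r.den * Real.log p := by
    have h2 : (r : ℝ) = (n : ℝ) / r.den := by
      rw [Rat.cast_def, hn]
      simp
    rw [h2] at hr
    have hden : (r.den : ℝ) ≠ 0 := by exact_mod_cast r.den_ne_zero
    field_simp at hr
    linarith
  rw [← Real.log_pow, ← Real.log_pow] at h1
  have h3 := Real.log_injOn_pos (by simp only [mem_Ioi]; positivity)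
    (by simp only [mem_Ioi]; positivity) h1
  have h4 : q ^ n = p ^ r.den := by exact_mod_cast h3
  have h5 : p ∣ q ^ n := by
    rw [h4]
    exact dvd_pow_self _ r.den_ne_zero
  have h6 := hp.dvd_of_dvd_pow h5
  exact hne ((Nat.prime_dvd_prime_iff_eq hp hq).mp h6)

theorem window_primes {p q : ℕ} (hp : p.Prime) (hq : q.Prime) (hne : p ≠ q) {A B : ℝ}
    (hA : 0 < A) (hAB : A < B) : ∃ i j : ℕ, i % 2 = 1 ∧ j % 2 = 1 ∧ 3 ≤ i ∧ 3 ≤ j ∧
      A * (q : ℝ) ^ j < (p : ℝ) ^ i ∧ (p : ℝ) ^ i < B * (q : ℝ) ^ j := by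
  have hp1 : (1 : ℝ) < p := by exact_mod_cast hp.one_lt
  have hq1 : (1 : ℝ) < q := by exact_mod_cast hq.one_lt
  have hp0 : (0 : ℝ) < p := by linarith
  have hq0 : (0 : ℝ) < q := by linarith
  obtain ⟨a, b, ha, hb, h1, h2⟩ := window (Real.log_pos hp1) (Real.log_pos hq1)
    (irr_log hp hq hne) (Real.log_lt_log hA hAB)
  have hB : 0 < B := by linarith
  refine ⟨2 * a + 1, 2 * b + 1, by omega, by omega, by omega, by omega, ?_, ?_⟩
  · have h3 : Real.log (A * (q : ℝ) ^ (2 * b + 1)) < Real.log ((p : ℝ) ^ (2 * a + 1)) := by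
      rw [Real.log_mul hA.ne' (by positivity), Real.log_pow, Real.log_pow]
      push_cast
      linarith
    exact (Real.log_lt_log_iff (by positivity) (by positivity)).mp h3
  · have h3 : Real.log ((p : ℝ) ^ (2 * a + 1)) < Real.log (B * (q : ℝ) ^ (2 * b + 1)) := by
      rw [Real.log_mul hB.ne' (by positivity), Real.log_pow, Real.log_pow]
      push_cast
      linarith
    exact (Real.log_lt_log_iff (by positivity) (by positivity)).mp h3

end Pool.Agent.Nu3
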