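import Pool.Agent.Nu3.TwoMod4
import Pool.Agent.Nu3.Window

/-!
Sums over divisors of members of the family `N1 * l1^i * l2^j`.
-/

namespace Pool.Agent.Nu3

open Finset

theorem sum_divisors_coprime {m n : ℕ} (h : m.Coprime n) (f : ℕ → ℤ) :
    ∑ d ∈ (m * n).divisors, f d = ∑ a ∈ m.divisors, ∑ b ∈ n.divisors, f (a * b) := by
  rw [← sum_product', Nat.divisors_mul, Finset.mul_def]
  rw [sum_image]
  intro x hx y hy hxy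
  exact h.mul_injOn_divisors hx hy hxy

theorem sum_family {N1 l1 l2 : ℕ} (h1 : l1.Prime) (h2 : l2.Prime) (hne : l1 ≠ l2)
    (hn1 : ¬ l1 ∣ N1) (hn2 : ¬ l2 ∣ N1) (i j : ℕ) (f : ℕ → ℤ) :
    ∑ d ∈ (N1 * (l1 ^ i * l2 ^ j)).divisors, f d =
      ∑ d ∈ N1.divisors, ∑ a ∈ range (i + 1), ∑ b ∈ range (j + 1), f (d * (l1 ^ a * l2 ^ b)) := by
  have c1 : N1.Coprime (l1 ^ i * l2 ^ j) := by
    apply Nat.Coprime.mul_right
    · exact Nat.Coprime.pow_right _ ((Nat.Prime.coprime_iff_not_dvd h1).mpr hn1).symm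
    · exact Nat.Coprime.pow_right _ ((Nat.Prime.coprime_iff_not_dvd h2).mpr hn2).symm
  have c2 : (l1 ^ i).Coprime (l2 ^ j) := Nat.coprime_pow_primes _ _ h1 h2 hne
  rw [sum_divisors_coprime c1]
  refine sum_congr rfl ?_
  intro d _
  rw [sum_divisors_coprime c2 (fun b => f (d * b))]
  rw [Nat.sum_divisors_prime_pow h1]
  refine sum_congr rfl ?_
  intro a _
  rw [Nat.sum_divisors_prime_pow h2]

/-- symmetric sums -/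
noncomputable def Bsum (g : ℤ → ℤ) (i : ℕ) : ℤ := ∑ a ∈ range (i + 1), g (2 * a - i)

theorem Bsum_add_two (g : ℤ → ℤ) (i : ℕ) :
    Bsum g (i + 2) = Bsum g i + g (i + 2) + g (-(i + 2)) := by
  unfold Bsum
  rw [sum_range_succ, sum_range_succ']
  have e1 : ∀ a : ℕ, (2 * ((a + 1 : ℕ) : ℤ) - ((i + 2 : ℕ) : ℤ)) = 2 * (a : ℤ) - i := by
    intro a; push_cast; ring
  have e2 : (2 * ((i + 2 : ℕ) : ℤ) - ((i + 2 : ℕ) : ℤ)) = i + 2 := by push_cast; ring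
  have e3 : (2 * ((0 : ℕ) : ℤ) - ((i + 2 : ℕ) : ℤ)) = -(i + 2) := by push_cast; ring
  rw [e2, e3]
  simp only [e1]
  ring

/-- double symmetric sums -/
noncomputable def Asum (h : ℤ → ℤ → ℤ) (i j : ℕ) : ℤ := Bsum (fun x => Bsum (fun y => h x y) j) i

theorem Bsum_add (g k : ℤ → ℤ) (i : ℕ) : Bsum (fun x => g x + k x) i = Bsum g i + Bsum k i := by
  unfold Bsum
  rw [sum_add_distrib]

theorem Asum_diff (h : ℤ → ℤ → ℤ) (i j : ℕ) :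
    Asum h (i + 2) (j + 2) + Asum h i j - Asum h (i + 2) j - Asum h i (j + 2) =
      h (i + 2) (j + 2) + h (i + 2) (-(j + 2)) + h (-(i + 2)) (j + 2) +
        h (-(i + 2)) (-(j + 2)) := by
  unfold Asum
  simp only [Bsum_add_two, Bsum_add]
  ring

/-- the indicator -/
noncomputable def hh (l1 l2 : ℕ) (D c : ℝ) (x y : ℤ) : ℤ :=
  if D * ((l1 : ℝ) ^ x * (l2 : ℝ) ^ y) < c then 1 else 0

theorem hh_eq {l1 l2 : ℕ} (h1 : 0 < l1) (h2 : 0 < l2) (d n : ℕ) (a b i j : ℕ) :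
    hh l1 l2 ((d : ℝ) ^ 2) n (2 * a - i) (2 * b - j) =
      if (d * (l1 ^ a * l2 ^ b)) * (d * (l1 ^ a * l2 ^ b)) < n * (l1 ^ i * l2 ^ j) then 1 else 0 := by
  unfold hh
  have hl1 : (0 : ℝ) < l1 := by exact_mod_cast h1
  have hl2 : (0 : ℝ) < l2 := by exact_mod_cast h2
  have e1 : (l1 : ℝ) ^ (2 * (a : ℤ) - i) = (l1 : ℝ) ^ (2 * a) / (l1 : ℝ) ^ i := by
    rw [zpow_sub₀ hl1.ne']
    norm_cast
  have e2 : (l2 : ℝ) ^ (2 * (b : ℤ) - j) = (l2 : ℝ) ^ (2 * b) / (l2 : ℝ) ^ j := by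
    rw [zpow_sub₀ hl2.ne']
    norm_cast
  rw [e1, e2]
  have e3 : (d : ℝ) ^ 2 * ((l1 : ℝ) ^ (2 * a) / (l1 : ℝ) ^ i * ((l2 : ℝ) ^ (2 * b) / (l2 : ℝ) ^ j)) =
      ((d : ℝ) * ((l1 : ℝ) ^ a * (l2 : ℝ) ^ b)) * ((d : ℝ) * ((l1 : ℝ) ^ a * (l2 : ℝ) ^ b)) /
        ((l1 : ℝ) ^ i * (l2 : ℝ) ^ j) := by
    field_simp
    ring
  rw [e3]
  have hpos : (0 : ℝ) < (l1 : ℝ) ^ i * (l2 : ℝ) ^ j := by positivity
  have iff1 : ((d : ℝ) * ((l1 : ℝ) ^ a * (l2 : ℝ) ^ b)) * ((d : ℝ) * ((l1 : ℝ) ^ a * (l2 : ℝ) ^ b)) /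
        ((l1 : ℝ) ^ i * (l2 : ℝ) ^ j) < n ↔
      (d * (l1 ^ a * l2 ^ b)) * (d * (l1 ^ a * l2 ^ b)) < n * (l1 ^ i * l2 ^ j) := by
    rw [div_lt_iff₀ hpos]
    constructor
    · intro h; exact_mod_cast h
    · intro h; exact_mod_cast h
  by_cases hc : (d * (l1 ^ a * l2 ^ b)) * (d * (l1 ^ a * l2 ^ b)) < n * (l1 ^ i * l2 ^ j)
  · rw [if_pos hc, if_pos (iff1.mpr hc)]
  · rw [if_neg hc, if_neg (fun h => hc (iff1.mp h))]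

/-- weighted threshold count over the family -/
theorem sum_thresh {N1 l1 l2 : ℕ} (h1 : l1.Prime) (h2 : l2.Prime) (hne : l1 ≠ l2)
    (hn1 : ¬ l1 ∣ N1) (hn2 : ¬ l2 ∣ N1) (i j n : ℕ) (f g : ℕ → ℤ)
    (hfg : ∀ d ∈ N1.divisors, ∀ a ≤ i, ∀ b ≤ j, f (d * (l1 ^ a * l2 ^ b)) = g d) :
    ∑ d ∈ (N1 * (l1 ^ i * l2 ^ j)).divisors,
      (if d * d < n * (l1 ^ i * l2 ^ j) then f d else 0) =
      ∑ d ∈ N1.divisors, g d * Asum (hh l1 l2 ((d : ℝ) ^ 2) n) i j := by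
  rw [sum_family h1 h2 hne hn1 hn2]
  refine sum_congr rfl ?_
  intro d hd
  unfold Asum Bsum
  rw [mul_sum]
  refine sum_congr rfl ?_
  intro a ha
  rw [mul_sum]
  refine sum_congr rfl ?_
  intro b hb
  rw [mem_range] at ha hb
  beta_reduce
  rw [hh_eq h1.pos h2.pos, hfg d hd a (by omega) b (by omega)]
  split_ifs <;> simp

theorem card_thresh {N1 l1 l2 : ℕ} (h1 : l1.Prime) (h2 : l2.Prime) (hne : l1 ≠ l2)
    (hn1 : ¬ l1 ∣ N1) (hn2 : ¬ l2 ∣ N1) (i j n : ℕ) :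
    (((N1 * (l1 ^ i * l2 ^ j)).divisors.filter
      (fun d => d * d < n * (l1 ^ i * l2 ^ j))).card : ℤ) =
      ∑ d ∈ N1.divisors, Asum (hh l1 l2 ((d : ℝ) ^ 2) n) i j := by
  have := sum_thresh h1 h2 hne hn1 hn2 i j n (fun _ => 1) (fun _ => 1) (by intros; rfl)
  simp only [one_mul] at this
  rw [← this, card_filter]
  push_cast
  rfl

/-- Corner values. `R = l1^I / l2^J`. -/
theorem corner {l1 l2 : ℕ} (h1 : 1 < l1) (h2 : 1 < l2) {D c : ℝ} (hD : 1 ≤ D) (hc : 0 < c)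
    (hcl : c ≤ l1) (hDl : D < c * l1) {i j : ℕ} :
    hh l1 l2 D c (i + 2) (j + 2) = 0 ∧ hh l1 l2 D c (-(i + 2)) (-(j + 2)) = 1 ∧
    (hh l1 l2 D c (i + 2) (-(j + 2)) = if D * (l1 : ℝ) ^ (i + 2) < c * (l2 : ℝ) ^ (j + 2) then 1 else 0)
    ∧ (hh l1 l2 D c (-(i + 2)) (j + 2) =
      if D * (l2 : ℝ) ^ (j + 2) < c * (l1 : ℝ) ^ (i + 2) then 1 else 0) := by
  have hl1 : (1 : ℝ) < l1 := by exact_mod_cast h1
  have hl2 : (1 : ℝ) < l2 := by exact_mod_cast h2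
  have p1 : (l1 : ℝ) ≤ (l1 : ℝ) ^ (i + 2) := by
    calc (l1 : ℝ) = (l1 : ℝ) ^ 1 := (pow_one _).symm
      _ ≤ (l1 : ℝ) ^ (i + 2) := pow_le_pow_right₀ hl1.le (by omega)
  have p2 : (1 : ℝ) ≤ (l2 : ℝ) ^ (j + 2) := one_le_pow₀ hl2.le
  have z1 : (l1 : ℝ) ^ ((i : ℤ) + 2) = (l1 : ℝ) ^ (i + 2) := by norm_cast
  have z2 : (l2 : ℝ) ^ ((j : ℤ) + 2) = (l2 : ℝ) ^ (j + 2) := by norm_cast
  have q1 : (0 : ℝ) < (l1 : ℝ) ^ (i + 2) := by positivity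
  have q2 : (0 : ℝ) < (l2 : ℝ) ^ (j + 2) := by positivity
  have prod1 : (l1 : ℝ) ≤ (l1 : ℝ) ^ (i + 2) * (l2 : ℝ) ^ (j + 2) := by nlinarith
  refine ⟨?_, ?_, ?_, ?_⟩
  · unfold hh
    rw [z1, z2, if_neg]
    push Not
    nlinarith
  · unfold hh
    rw [zpow_neg, zpow_neg, z1, z2, if_pos]
    rw [← mul_inv, ← div_eq_mul_inv, div_lt_iff₀ (by positivity)]
    nlinarith
  · unfold hh
    rw [zpow_neg, z1, z2]
    have : D * ((l1 : ℝ) ^ (i + 2) * ((l2 : ℝ) ^ (j + 2))⁻¹) < c ↔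
        D * (l1 : ℝ) ^ (i + 2) < c * (l2 : ℝ) ^ (j + 2) := by
      rw [← mul_assoc, ← div_eq_mul_inv, div_lt_iff₀ q2]
    by_cases h : D * (l1 : ℝ) ^ (i + 2) < c * (l2 : ℝ) ^ (j + 2)
    · rw [if_pos h, if_pos (this.mpr h)]
    · rw [if_neg h, if_neg (fun h' => h (this.mp h'))]
  · unfold hh
    rw [zpow_neg, z1, z2]
    have : D * (((l1 : ℝ) ^ (i + 2))⁻¹ * (l2 : ℝ) ^ (j + 2)) < c ↔
        D * (l2 : ℝ) ^ (j + 2) < c * (l1 : ℝ) ^ (i + 2) := by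
      rw [mul_comm ((l1 : ℝ) ^ (i + 2))⁻¹, ← mul_assoc, ← div_eq_mul_inv, div_lt_iff₀ q1]
    by_cases h : D * (l2 : ℝ) ^ (j + 2) < c * (l1 : ℝ) ^ (i + 2)
    · rw [if_pos h, if_pos (this.mpr h)]
    · rw [if_neg h, if_neg (fun h' => h (this.mp h'))]

end Pool.Agent.Nu3
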