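import Pool.Agent.Nu3.FamAll

/-!
For `n` not `2 mod 4` every progression through `n` contains `N` with `C N` odd.
-/

namespace Pool.Agent.Nu3

open Finset

theorem not_dvd_of_lt_prime {p n : ℕ} (hn : 0 < n) (h : n < p) : ¬ p ∣ n := fun h' => by
  have := Nat.le_of_dvd hn h'
  omega

theorem coprime_of_lt_prime {p n : ℕ} (hp : p.Prime) (hn : 0 < n) (h : n < p) : p.Coprime n :=
  (Nat.Prime.coprime_iff_not_dvd hp).mpr (not_dvd_of_lt_prime hn h)

theorem main1 {n A : ℕ} (hn : 0 < n) (hn4 : n % 4 ≠ 2) (hA : 0 < A) :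
    ∃ N : ℕ, N ≡ n [MOD A] ∧ n ≤ N ∧ C (N : ℤ) % 2 = 1 := by
  obtain ⟨s, no, hodd, hns⟩ := Nat.exists_eq_two_pow_mul_odd hn.ne'
  have hno : no % 2 = 1 := Nat.odd_iff.mp hodd
  have hs : s ≠ 1 := by
    rintro rfl
    apply hn4
    rw [hns, pow_one]
    omega
  -- helper primes
  obtain ⟨p, hpgt, hp, hp8⟩ := Nat.forall_exists_prime_gt_and_modEq (no + 8 * A) (q := 8) (a := 3)
    (by norm_num) (by norm_num)
  obtain ⟨q, hqgt, hq, hq8⟩ := Nat.forall_exists_prime_gt_and_modEq p (q := 8) (a := 5)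
    (by norm_num) (by norm_num)
  have hp8' : p % 8 = 3 := hp8
  have hq8' : q % 8 = 5 := hq8
  have cp : p.Coprime (8 * A) := coprime_of_lt_prime hp (by positivity) (by omega)
  have cq : q.Coprime (8 * A) := coprime_of_lt_prime hq (by positivity) (by omega)
  have cpq : (p * q).Coprime (8 * A) := Nat.Coprime.mul_left cp cq
  obtain ⟨m, _, hm⟩ := Nat.exists_mul_mod_eq_one_of_coprime cpq (by omega)
  have cm : m.Coprime (8 * A) := by
    have h1 : (p * q * m).Coprime (8 * A) := by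
      rw [Nat.coprime_iff_gcd_eq_one, Nat.gcd_comm, Nat.gcd_rec, hm]
      simp
    exact Nat.Coprime.coprime_mul_left h1
  obtain ⟨r, hrgt, hr, hrm⟩ := Nat.forall_exists_prime_gt_and_modEq q (q := 8 * A) (a := m)
    (by positivity) cm
  have hpqr : p * q * r ≡ 1 [MOD 8 * A] := by
    calc p * q * r ≡ p * q * m [MOD 8 * A] := Nat.ModEq.mul_left _ hrm
      _ ≡ 1 [MOD 8 * A] := by
        unfold Nat.ModEq
        rw [hm, Nat.mod_eq_of_lt (by omega)]
  set N1 := no * (p * q * r) with hN1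
  have p2 : p % 2 = 1 := by omega
  have q2 : q % 2 = 1 := by omega
  have r2 : r % 2 = 1 := by
    rcases hr.eq_two_or_odd with h | h
    · omega
    · exact h
  have no_pos : 0 < no := by omega
  have N1odd : N1 % 2 = 1 := by
    rw [hN1, Nat.mul_mod, Nat.mul_mod (p * q) r, Nat.mul_mod p q, p2, q2, r2, hno]
  have exp : ExD p N1 := by
    have e : N1 = p * (no * q * r) := by rw [hN1]; ring
    have h1 : ExD p p := ⟨dvd_rfl, fun h => by
      have := Nat.le_of_dvd hp.pos h
      have := hp.one_lt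
      nlinarith⟩
    rw [e]
    refine h1.mul hp ?_
    intro h
    rcases (Nat.Prime.dvd_mul hp).mp h with h | h
    · rcases (Nat.Prime.dvd_mul hp).mp h with h | h
      · exact not_dvd_of_lt_prime no_pos (by omega) h
      · have := (Nat.prime_dvd_prime_iff_eq hp hq).mp h
        omega
    · have := (Nat.prime_dvd_prime_iff_eq hp hr).mp h
      omega
  have exq : ExD q N1 := by
    have e : N1 = q * (no * p * r) := by rw [hN1]; ring
    have h1 : ExD q q := ⟨dvd_rfl, fun h => by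
      have := Nat.le_of_dvd hq.pos h
      have := hq.one_lt
      nlinarith⟩
    rw [e]
    refine h1.mul hq ?_
    intro h
    rcases (Nat.Prime.dvd_mul hq).mp h with h | h
    · rcases (Nat.Prime.dvd_mul hq).mp h with h | h
      · exact not_dvd_of_lt_prime no_pos (by omega) h
      · have := (Nat.prime_dvd_prime_iff_eq hq hp).mp h
        omega
    · have := (Nat.prime_dvd_prime_iff_eq hq hr).mp h
      omega
  have N1pos : 0 < N1 := by omega
  have mpos : 0 < 8 * A * p * q := by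
    have := hp.pos; have := hq.pos
    positivity
  obtain ⟨l1, h1gt, h1, h1m⟩ := Nat.forall_exists_prime_gt_and_modEq (2 ^ (s - 2) * N1 + N1)
    (q := 8 * A * p * q) (a := 1) (by omega) (by simp)
  obtain ⟨l2, h2gt, h2, h2m⟩ := Nat.forall_exists_prime_gt_and_modEq l1
    (q := 8 * A * p * q) (a := 1) (by omega) (by simp)
  have conv : ∀ l : ℕ, l ≡ 1 [MOD 8 * A * p * q] → (8 * p * q : ℤ) ∣ (l : ℤ) - 1 := by
    intro l hl
    have h3 := (Nat.modEq_iff_dvd.mp hl.symm)
    refine Dvd.dvd.trans ?_ h3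
    exact ⟨A, by push_cast; ring⟩
  have F : Fam p q N1 l1 l2 :=
    { hp := hp, hq := hq, hp8 := hp8', hq8 := hq8', hN1 := N1odd, hpN := exp, hqN := exq,
      h1 := h1, h2 := h2, hne := by omega, hl1 := conv l1 h1m, hl2 := conv l2 h2m,
      hl1N := by omega, hl2N := by omega }
  obtain ⟨i, j, hij⟩ := F.exists_odd hs (by omega)
  refine ⟨2 ^ s * (N1 * (l1 ^ i * l2 ^ j)), ?_, ?_, hij⟩
  · have a1 : l1 ≡ 1 [MOD A] := h1m.of_dvd ⟨8 * p * q, by ring⟩
    have a2 : l2 ≡ 1 [MOD A] := h2m.of_dvd ⟨8 * p * q, by ring⟩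
    have a3 : p * q * r ≡ 1 [MOD A] := hpqr.of_dvd ⟨8, by ring⟩
    have a4 : l1 ^ i * l2 ^ j ≡ 1 [MOD A] := by
      have := (a1.pow i).mul (a2.pow j)
      simpa using this
    have a5 : N1 * (l1 ^ i * l2 ^ j) ≡ no [MOD A] := by
      have := ((Nat.ModEq.refl no).mul a3).mul a4
      simpa using this
    rw [hns]
    exact Nat.ModEq.mul_left _ a5
  · rw [hns]
    apply Nat.mul_le_mul_left
    rw [hN1]
    have b1 : 0 < p * q * r := by
      have := hp.pos; have := hq.pos; have := hr.pos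
      positivity
    have b2 : 0 < l1 ^ i * l2 ^ j := by
      have := h1.pos; have := h2.pos
      positivity
    calc no ≤ no * (p * q * r) := Nat.le_mul_of_pos_right _ b1
      _ ≤ no * (p * q * r) * (l1 ^ i * l2 ^ j) := Nat.le_mul_of_pos_right _ b2

end Pool.Agent.Nu3
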