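import Pool.Agent.Nu3.Angle2
import Pool.Agent.Nu3.Main1

/-!
`n = 2m` with `m` odd and a sum of two squares: every progression through `n` contains `N` with
`C N` odd.
-/

namespace Pool.Agent.Nu3

open Finset

theorem Gs_nonempty {n : ℕ} (hodd : n % 2 = 1) (h : ∃ a b : ℕ, n = a ^ 2 + b ^ 2) :
    (Gs (n : ℤ)).Nonempty := by
  obtain ⟨a, b, hab⟩ := h
  rcases Nat.even_or_odd' b with ⟨c, hc | hc⟩
  · refine ⟨⟨a, b⟩, ?_⟩
    rw [mem_Gs, norm_eq]
    refine ⟨by rw [hab]; push_cast; ring, ?_⟩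
    simp only
    rw [hc]
    exact ⟨c, by push_cast; ring⟩
  · rcases Nat.even_or_odd' a with ⟨d, hd | hd⟩
    · refine ⟨⟨b, a⟩, ?_⟩
      rw [mem_Gs, norm_eq]
      refine ⟨by rw [hab]; push_cast; ring, ?_⟩
      simp only
      rw [hd]
      exact ⟨d, by push_cast; ring⟩
    · exfalso
      have : n = 2 * (2 * d ^ 2 + 2 * d + 2 * c ^ 2 + 2 * c + 1) := by
        rw [hab, hc, hd]; ring
      omega

theorem exists_Pi {p : ℕ} (hp : p.Prime) (h4 : p % 4 = 1) : ∃ π : GaussianInt, Pi π p := by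
  have : Fact p.Prime := ⟨hp⟩
  obtain ⟨a, b, hab⟩ := Nat.Prime.sq_add_sq (p := p) (by omega)
  obtain ⟨π, hπ⟩ := Gs_nonempty (n := p) (by omega) ⟨a, b, hab.symm⟩
  rw [mem_Gs] at hπ
  exact ⟨π, ⟨hp, by omega, hπ.1, hπ.2⟩⟩

theorem C_parity_Q {n1 p e r : ℕ} (hp : p.Prime) (hr : r.Prime) (hr8 : r % 8 = 5)
    (hn1 : n1 % 2 = 1) (hp2 : p % 2 = 1) (hrn : ExD r n1) (hpn : ¬ p ∣ n1) (hrp : r ≠ p)
    (he : e % 2 = 1) :
    C (2 * ((n1 * p ^ e : ℕ) : ℤ)) % 2 = Q4 (2 * ((n1 * p ^ e : ℕ) : ℤ)) % 2 := by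
  have : Fact r.Prime := ⟨hr⟩
  have hm : (n1 * p ^ e) % 2 = 1 := by
    rw [Nat.mul_mod, Nat.pow_mod, hp2, hn1]; simp
  have hrn' : ExD r (2 * (n1 * p ^ e)) := by
    rw [mul_comm]
    refine ExD.mul hr (ExD.mul hr hrn ?_) ?_
    · intro h
      have := hr.dvd_of_dvd_pow h
      exact hrp ((Nat.prime_dvd_prime_iff_eq hr hp).mp this)
    · intro h
      have := (Nat.prime_dvd_prime_iff_eq hr Nat.prime_two).mp h
      omega
  have e1 : ((2 * (n1 * p ^ e) : ℕ) : ℤ) = 2 * ((n1 * p ^ e : ℕ) : ℤ) := by push_cast; ring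
  have h1 := no_sq_2sq hr8 hrn'
  have h2 := no_2sq_sq (chi2_5 hr8).1 hrn'
  rw [e1] at h1 h2
  have h := C2_Q hm h1 h2
  have hd : 4 ∣ (n1 * p ^ e).divisors.card := by
    have hc : n1.Coprime (p ^ e) :=
      Nat.Coprime.pow_right _ ((Nat.Prime.coprime_iff_not_dvd hp).mpr hpn).symm
    rw [Nat.Coprime.card_divisors_mul hc, Nat.divisors_prime_pow hp, card_map, card_range]
    have h3 := even_card_divisors (hrn.not_sq hr)
    have h4 : 2 ∣ e + 1 := by omega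
    exact Nat.mul_dvd_mul h3 h4
  omega

theorem main2 {n A : ℕ} (hn4 : n % 4 = 2) (hA : 0 < A) (hsq : ∃ a b : ℕ, n / 2 = a ^ 2 + b ^ 2) :
    ∃ N : ℕ, N ≡ n [MOD A] ∧ n ≤ N ∧ C (N : ℤ) % 2 = 1 := by
  obtain ⟨m, rfl⟩ : ∃ m, n = 2 * m := ⟨n / 2, by omega⟩
  have hm : m % 2 = 1 := by omega
  rw [Nat.mul_div_cancel_left _ (by norm_num : 0 < 2)] at hsq
  obtain ⟨r, hrgt, hr, hr8⟩ := Nat.forall_exists_prime_gt_and_modEq (m + 8 * A) (q := 8) (a := 5)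
    (by norm_num) (by norm_num)
  have hr8' : r % 8 = 5 := hr8
  have cr : r.Coprime (8 * A) := coprime_of_lt_prime hr (by positivity) (by omega)
  obtain ⟨t, _, ht⟩ := Nat.exists_mul_mod_eq_one_of_coprime cr (by omega)
  have ct : t.Coprime (8 * A) := by
    have h1 : (r * t).Coprime (8 * A) := by
      rw [Nat.coprime_iff_gcd_eq_one, Nat.gcd_comm, Nat.gcd_rec, ht]
      simp
    exact Nat.Coprime.coprime_mul_left h1
  obtain ⟨s, hsgt, hs, hst⟩ := Nat.forall_exists_prime_gt_and_modEq r (q := 8 * A) (a := t)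
    (by positivity) ct
  have hrs : r * s ≡ 1 [MOD 8 * A] := by
    calc r * s ≡ r * t [MOD 8 * A] := Nat.ModEq.mul_left _ hst
      _ ≡ 1 [MOD 8 * A] := by
        unfold Nat.ModEq
        rw [ht, Nat.mod_eq_of_lt (by omega)]
  have hs4 : s % 4 = 1 := by
    have h1 : r * s ≡ 1 [MOD 4] := hrs.of_dvd ⟨2 * A, by ring⟩
    have h2 : r * s % 4 = 1 := h1
    rw [Nat.mul_mod] at h2
    have h3 : r % 4 = 1 := by omega
    rw [h3] at h2
    omega
  set n1 := m * (r * s) with hn1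
  have n1odd : n1 % 2 = 1 := by
    have a1 : r % 2 = 1 := by omega
    have a2 : s % 2 = 1 := by omega
    rw [hn1, Nat.mul_mod, Nat.mul_mod r s, a1, a2, hm]
  have n1pos : 0 < n1 := by omega
  have exr : ExD r n1 := by
    have e : n1 = r * (m * s) := by rw [hn1]; ring
    have h1 : ExD r r := ⟨dvd_rfl, fun h => by
      have := Nat.le_of_dvd hr.pos h
      have := hr.one_lt
      nlinarith⟩
    rw [e]
    refine h1.mul hr ?_
    intro h
    rcases (Nat.Prime.dvd_mul hr).mp h with h | h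
    · exact not_dvd_of_lt_prime (by omega) (by omega) h
    · have := (Nat.prime_dvd_prime_iff_eq hr hs).mp h
      omega
  have n1sq : ∃ a b : ℕ, n1 = a ^ 2 + b ^ 2 := by
    obtain ⟨a, b, hab⟩ := hsq
    have : Fact r.Prime := ⟨hr⟩
    have : Fact s.Prime := ⟨hs⟩
    obtain ⟨c, d, hcd⟩ := Nat.Prime.sq_add_sq (p := r) (by omega)
    obtain ⟨e, f, hef⟩ := Nat.Prime.sq_add_sq (p := s) (by omega)
    obtain ⟨g, h, hgh⟩ := Nat.sq_add_sq_mul hcd.symm hef.symm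
    obtain ⟨u, v, huv⟩ := Nat.sq_add_sq_mul hab hgh
    exact ⟨u, v, huv⟩
  obtain ⟨p, hpgt, hp, hpm⟩ := Nat.forall_exists_prime_gt_and_modEq (n1 + r) (q := 8 * A) (a := 1)
    (by positivity) (by simp)
  have hp4 : p % 4 = 1 := by
    have : p ≡ 1 [MOD 4] := hpm.of_dvd ⟨2 * A, by ring⟩
    exact this
  obtain ⟨π, P⟩ := exists_Pi hp hp4
  have hpn : ¬ p ∣ n1 := not_dvd_of_lt_prime n1pos (by omega)
  obtain ⟨k, hk, hcard⟩ := P.exists_pow n1pos n1odd (Gs_nonempty n1odd n1sq)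
  obtain ⟨l, rfl⟩ : ∃ l, k = l + 1 := ⟨k - 1, by omega⟩
  have hstep := P.Ms_step (n1 := n1) (k := 2 * l + 1) hpn
  have e0 : 2 * (l + 1) + 1 = 2 * l + 1 + 2 := by ring
  rw [e0] at hcard
  -- relation with Q4
  have nsq : ∀ e : ℕ, e % 2 = 1 → ¬ IsSquare ((n1 * p ^ e : ℕ) : ℤ) := by
    intro e he
    apply nsq_int
    have : ExD r (n1 * p ^ e) := by
      refine ExD.mul hr exr ?_
      intro h
      have := hr.dvd_of_dvd_pow h
      have := (Nat.prime_dvd_prime_iff_eq hr hp).mp this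
      omega
    exact this.not_sq hr
  have hMs : ∀ e : ℕ, e % 2 = 1 → Ms ((n1 * p ^ e : ℕ) : ℤ) = 4 * Q4 (2 * ((n1 * p ^ e : ℕ) : ℤ)) := by
    intro e he
    rw [Ms_eq (nsq e he), Q4_eq]
  have hC : ∀ e : ℕ, e % 2 = 1 → C (2 * ((n1 * p ^ e : ℕ) : ℤ)) % 2 =
      Q4 (2 * ((n1 * p ^ e : ℕ) : ℤ)) % 2 := by
    intro e he
    exact C_parity_Q hp hr hr8' n1odd (by omega) exr hpn (by omega) he
  have m1 := hMs (2 * l + 1) (by omega)
  have m2 := hMs (2 * l + 1 + 2) (by omega)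
  have c1 := hC (2 * l + 1) (by omega)
  have c2 := hC (2 * l + 1 + 2) (by omega)
  have hcong : ∀ e : ℕ, 2 * (n1 * p ^ e) ≡ 2 * m [MOD A] := by
    intro e
    have a1 : r * s ≡ 1 [MOD A] := hrs.of_dvd ⟨8, by ring⟩
    have a2 : p ≡ 1 [MOD A] := hpm.of_dvd ⟨8, by ring⟩
    have a3 := ((Nat.ModEq.refl m).mul a1).mul (a2.pow e)
    have a4 : n1 * p ^ e ≡ m [MOD A] := by simpa using a3
    exact Nat.ModEq.mul_left _ a4
  have hle : ∀ e : ℕ, 2 * m ≤ 2 * (n1 * p ^ e) := by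
    intro e
    apply Nat.mul_le_mul_left
    have b1 : 0 < r * s := Nat.mul_pos hr.pos hs.pos
    have b2 : 0 < p ^ e := Nat.pow_pos hp.pos
    calc m ≤ m * (r * s) := Nat.le_mul_of_pos_right _ b1
      _ ≤ m * (r * s) * p ^ e := Nat.le_mul_of_pos_right _ b2
  have e1 : ∀ e : ℕ, ((2 * (n1 * p ^ e) : ℕ) : ℤ) = 2 * ((n1 * p ^ e : ℕ) : ℤ) := by
    intro e; push_cast; ring
  by_contra hc
  push Not at hc
  have d1 := hc (2 * (n1 * p ^ (2 * l + 1))) (hcong _) (hle _)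
  have d2 := hc (2 * (n1 * p ^ (2 * l + 1 + 2))) (hcong _) (hle _)
  rw [e1] at d1 d2
  apply hcard
  push_cast at hstep m1 m2 c1 c2 d1 d2
  omega

end Pool.Agent.Nu3
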