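import Pool.Agent.Nu3.Part
import Pool.Agent.Nu3.Main1
import Pool.Agent.Nu3.Main2

/-!
Final assembly.
-/

namespace Pool.Agent.Nu3

open Finset

theorem nu2_zero : nu 2 0 = 0 := by
  rw [nu2_eq]
  rfl

theorem final (A B : ℕ) (hA : 1 ≤ A) (h : ∀ n, 2 ∣ nu 3 (A * n + B)) (n : ℕ) :
    4 ∣ nu 2 (A * n + B) := by
  set N := A * n + B with hN
  have hC : ∀ M : ℕ, M ≡ N [MOD A] → N ≤ M → C (M : ℤ) % 2 = 0 := by
    intro M hM hle
    obtain ⟨k, hk⟩ : A ∣ M - N := (Nat.modEq_iff_dvd' hle).mp hM.symm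
    have h1 : M = A * (n + k) + B := by
      have : M = N + A * k := by omega
      rw [this, hN]
      ring
    have h2 := nu3_C M
    have h3 := h (n + k)
    rw [← h1] at h3
    omega
  rcases Nat.eq_zero_or_pos N with h0 | h0
  · rw [h0, nu2_zero]
    exact dvd_zero 4
  by_cases h4 : N % 4 = 2
  · obtain ⟨m, hm⟩ : ∃ m, N = 2 * m := ⟨N / 2, by omega⟩
    have hmo : m % 2 = 1 := by omega
    have hNm : N / 2 = m := by omega
    by_cases hs : ∃ a b : ℕ, m = a ^ 2 + b ^ 2
    · exfalso
      obtain ⟨M, h1, h2, h3⟩ := main2 h4 (by omega : 0 < A) (by rw [hNm]; exact hs)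
      have := hC M h1 h2
      omega
    · by_cases hd : 4 ∣ m.divisors.card
      · rw [hm, nu2_eq]
        exact nu2_four hmo hs hd
      · exfalso
        have h1 := mod4_of hmo hs hd
        have h2 := C2_3mod4 h1
        have h3 := hC N rfl le_rfl
        rw [hm] at h3
        push_cast at h3
        have h5 : ¬ IsSquare m := by
          rintro ⟨r, hr⟩
          exact hs ⟨r, 0, by rw [hr]; ring⟩
        have h6 := even_card_divisors h5
        omega
  · exfalso
    obtain ⟨M, h1, h2, h3⟩ := main1 h0 h4 (by omega : 0 < A)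
    have := hC M h1 h2
    omega

end Pool.Agent.Nu3
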