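import Pool.Agent.Nu3.FamAll

/-!
Representations as sums of two squares, via Gaussian integers.
-/

namespace Pool.Agent.Nu3

open Finset

/-- Gaussian integers of norm `m` with even imaginary part. -/
noncomputable def Gs (m : ℤ) : Finset GaussianInt :=
  (((Icc (-m) m) ×ˢ (Icc (-m) m)).image (fun p => (⟨p.1, p.2⟩ : GaussianInt))).filter
    (fun w => w.norm = m ∧ (2 : ℤ) ∣ w.im)

theorem norm_eq (w : GaussianInt) : w.norm = w.re * w.re + w.im * w.im := by
  rw [Zsqrtd.norm_def]; ring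

theorem le_mul_self' (a : ℤ) : a ≤ a * a ∧ -a ≤ a * a := by
  constructor
  · rcases le_or_gt a 0 with h | h
    · nlinarith
    · nlinarith
  · rcases le_or_gt 0 a with h | h
    · nlinarith
    · nlinarith

theorem mem_Gs {m : ℤ} {w : GaussianInt} : w ∈ Gs m ↔ w.norm = m ∧ (2 : ℤ) ∣ w.im := by
  unfold Gs
  simp only [mem_filter, mem_image, mem_product, mem_Icc, Prod.exists, and_iff_right_iff_imp]
  rintro ⟨h, _⟩
  rw [norm_eq] at h
  have h1 := le_mul_self' w.re
  have h2 := le_mul_self' w.im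
  have h3 := mul_self_nonneg w.re
  have h4 := mul_self_nonneg w.im
  refine ⟨w.re, w.im, ⟨⟨?_, ?_⟩, ⟨?_, ?_⟩⟩, rfl⟩ <;> omega

/-- `Q4 (2m)` as a count of Gaussian integers. -/
theorem Q4_eq (m : ℤ) : Q4 (2 * m) =
    ((Gs m).filter (fun w => 0 < w.im ∧ w.im < w.re)).card := by
  unfold Q4
  refine card_nbij' (fun e => (⟨e.2.1 + e.1 / 2, -(e.1 / 2)⟩ : GaussianInt))
    (fun w => (-2 * w.im, w.re + w.im, w.re - w.im)) ?_ ?_ ?_ ?_
  · rintro ⟨x, u, v⟩ he
    simp only [coe_filter, Set.mem_ofPred_eq, mem_Om, mem_Gs] at he ⊢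
    obtain ⟨⟨hu, hv, h⟩, h1, h2, h3⟩ := he
    subst h1
    obtain ⟨y, rfl⟩ : ∃ y, x = 4 * y := ⟨x / 4, by omega⟩
    have e1 : 4 * y / 2 = 2 * y := by omega
    rw [e1, norm_eq]
    simp only
    refine ⟨⟨by linarith, ⟨-y, by ring⟩⟩, by omega, by omega⟩
  · rintro w hw
    simp only [coe_filter, Set.mem_ofPred_eq, mem_Om, mem_Gs] at hw ⊢
    obtain ⟨⟨h, h1⟩, h2, h3⟩ := hw
    rw [norm_eq] at h
    refine ⟨⟨by omega, by omega, by rw [← h]; ring⟩, by ring, by omega, by omega⟩
  · rintro ⟨x, u, v⟩ he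
    simp only [coe_filter, Set.mem_ofPred_eq, mem_Om] at he
    obtain ⟨⟨hu, hv, h⟩, h1, h2, h3⟩ := he
    simp only [Prod.mk.injEq]
    refine ⟨by omega, by omega, by omega⟩
  · rintro w hw
    ext
    · simp only; omega
    · simp only; omega

/-- number of `w` in the sector. -/
noncomputable def Ms (m : ℤ) : ℕ := ((Gs m).filter (fun w => w.im * w.im < w.re * w.re)).card

theorem Ms_eq {m : ℤ} (hm : ¬ IsSquare m) : Ms m =
    4 * ((Gs m).filter (fun w => 0 < w.im ∧ w.im < w.re)).card := by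
  unfold Ms
  have key : ∀ a b : ℤ, b * b < a * a ↔ (b < a ∧ -b < a) ∨ (b < -a ∧ -b < -a) := by
    intro a b
    constructor
    · intro h
      rcases le_or_gt 0 a with ha | ha
      · left
        constructor <;> nlinarith
      · right
        constructor <;> nlinarith
    · rintro (⟨h1, h2⟩ | ⟨h1, h2⟩)
      · nlinarith
      · nlinarith
  have h1 : ((Gs m).filter (fun w => w.im * w.im < w.re * w.re)).card =
      ((Gs m).filter (fun w => w.im < w.re ∧ -w.im < w.re)).card +
      ((Gs m).filter (fun w => w.im < -w.re ∧ -w.im < -w.re)).card := by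
    refine card_filter_split _ _ _ _ ?_ ?_
    · intro w _
      exact key w.re w.im
    · intro w _
      omega
  have h2 : ((Gs m).filter (fun w => w.im < -w.re ∧ -w.im < -w.re)).card =
      ((Gs m).filter (fun w => w.im < w.re ∧ -w.im < w.re)).card := by
    refine card_reflect _ _ (fun w => -w) ?_ ?_ ?_
    · intro w hw
      simp only [mem_filter, mem_Gs, norm_eq, Zsqrtd.re_neg, Zsqrtd.im_neg] at hw ⊢
      refine ⟨⟨by rw [← hw.1.1]; ring, by omega⟩, by omega, by omega⟩
    · intro w hw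
      simp only [mem_filter, mem_Gs, norm_eq, Zsqrtd.re_neg, Zsqrtd.im_neg] at hw ⊢
      refine ⟨⟨by rw [← hw.1.1]; ring, by omega⟩, by omega, by omega⟩
    · intro w; simp
  have h3 : ((Gs m).filter (fun w => w.im < w.re ∧ -w.im < w.re)).card =
      ((Gs m).filter (fun w => 0 < w.im ∧ w.im < w.re)).card +
      ((Gs m).filter (fun w => w.im < 0 ∧ -w.im < w.re)).card := by
    refine card_filter_split _ _ _ _ ?_ ?_
    · intro w hw
      rw [mem_Gs, norm_eq] at hw
      have : w.im ≠ 0 := by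
        intro h0
        apply hm
        refine ⟨w.re, ?_⟩
        rw [← hw.1, h0]; ring
      omega
    · intro w _
      omega
  have h4 : ((Gs m).filter (fun w => w.im < 0 ∧ -w.im < w.re)).card =
      ((Gs m).filter (fun w => 0 < w.im ∧ w.im < w.re)).card := by
    refine card_reflect _ _ (fun w => star w) ?_ ?_ ?_
    · intro w hw
      simp only [mem_filter, mem_Gs, norm_eq, Zsqrtd.re_star, Zsqrtd.im_star] at hw ⊢
      refine ⟨⟨by rw [← hw.1.1]; ring, by omega⟩, by omega, by omega⟩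
    · intro w hw
      simp only [mem_filter, mem_Gs, norm_eq, Zsqrtd.re_star, Zsqrtd.im_star] at hw ⊢
      refine ⟨⟨by rw [← hw.1.1]; ring, by omega⟩, by omega, by omega⟩
    · intro w; simp
  omega

/-! ### A split prime -/

/-- A Gaussian prime `π` of odd prime norm `p`, with even imaginary part. -/
structure Pi (π : GaussianInt) (p : ℕ) : Prop where
  hp : p.Prime
  hodd : p % 2 = 1
  hn : π.norm = p
  him : (2 : ℤ) ∣ π.im

namespace Pi

variable {π : GaussianInt} {p : ℕ} (P : Pi π p)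
include P

theorem re_odd : ¬ (2 : ℤ) ∣ π.re := by
  intro h
  obtain ⟨a, ha⟩ := h
  obtain ⟨b, hb⟩ := P.him
  have h := P.hn
  rw [norm_eq, ha, hb] at h
  have h2 : (p : ℤ) = 2 * (2 * (a * a) + 2 * (b * b)) := by rw [← h]; ring
  have := P.hodd
  omega

theorem mul_star : π * star π = (p : GaussianInt) := by
  rw [← Zsqrtd.norm_eq_mul_conj, P.hn]
  simp

theorem prime : Prime π := by
  have hirr : Irreducible π := by
    constructor
    · intro hu
      have := (Zsqrtd.isUnit_iff_norm_isUnit π).mp hu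
      rw [P.hn, Int.isUnit_iff] at this
      have h1 := P.hp.one_lt
      omega
    · intro a b hab
      have h1 : a.norm * b.norm = p := by
        rw [← Zsqrtd.norm_mul, ← hab, P.hn]
      have h2 : a.norm.natAbs * b.norm.natAbs = p := by
        rw [← Int.natAbs_mul, h1]; simp
      rcases P.hp.eq_one_or_self_of_dvd _ ⟨_, h2.symm⟩ with h3 | h3
      · exact Or.inl (Zsqrtd.norm_eq_one_iff.mp h3)
      · right
        rw [h3] at h2
        have h4 : b.norm.natAbs = 1 := by
          have := P.hp.pos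
          nlinarith
        exact Zsqrtd.norm_eq_one_iff.mp h4
  exact hirr.prime

theorem coprime : IsCoprime π (star π) := by
  have h1 : IsCoprime (2 * π.re) (p : ℤ) := by
    have : ¬ (p : ℤ) ∣ 2 * π.re := by
      intro h
      have hpp := Nat.prime_iff_prime_int.mp P.hp
      rcases hpp.dvd_or_dvd h with h | h
      · have := Int.le_of_dvd (by norm_num) h
        have h2 := P.hp.two_le
        have := P.hodd
        omega
      · have h2 := P.hn
        rw [norm_eq] at h2
        have h3 : (p : ℤ) ∣ π.im * π.im := by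
          have : π.im * π.im = p - π.re * π.re := by linarith
          rw [this]
          exact dvd_sub dvd_rfl (h.mul_right _)
        have h4 : (p : ℤ) ∣ π.im := by
          rcases hpp.dvd_or_dvd h3 with h | h <;> exact h
        obtain ⟨a, ha⟩ := h
        obtain ⟨b, hb⟩ := h4
        rw [ha, hb] at h2
        have h5 : (p : ℤ) * (p * (a * a) + p * (b * b)) = p * 1 := by rw [mul_one]; linarith
        have h6 := mul_left_cancel₀ (by exact_mod_cast P.hp.ne_zero) h5
        have h7 : (p : ℤ) ∣ 1 := ⟨a * a + b * b, by rw [← h6]; ring⟩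
        have := Int.le_of_dvd (by norm_num) h7
        have := P.hp.two_le
        omega
    exact ((Nat.prime_iff_prime_int.mp P.hp).coprime_iff_not_dvd.mpr this).symm
  obtain ⟨x, y, hxy⟩ := h1
  have h2 : π + star π = ((2 * π.re : ℤ) : GaussianInt) := by
    ext
    · simp; ring
    · simp
  have h3 : (x : GaussianInt) * (π + star π) + (y : GaussianInt) * (π * star π) = 1 := by
    rw [h2, P.mul_star]
    have := congrArg (Int.cast : ℤ → GaussianInt) hxy
    push_cast at this ⊢
    exact this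
  exact ⟨x + y * star π, x, by rw [← h3]; ring⟩

theorem star : Pi (star π) p where
  hp := P.hp
  hodd := P.hodd
  hn := by rw [Zsqrtd.norm_conj, P.hn]
  him := by
    have := P.him
    simp only [Zsqrtd.im_star]
    omega

theorem par_mul (a : GaussianInt) : (2 : ℤ) ∣ (a * π).im ↔ (2 : ℤ) ∣ a.im := by
  obtain ⟨b, hb⟩ := P.him
  have hr := P.re_odd
  obtain ⟨c, hc⟩ : ∃ c, π.re = 2 * c + 1 := ⟨π.re / 2, by omega⟩
  rw [Zsqrtd.im_mul, hb, hc]
  have : a.re * (2 * b) + a.im * (2 * c + 1) = 2 * (a.re * b + a.im * c) + a.im := by ring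
  rw [this]
  omega

theorem par_pow (a : GaussianInt) (k : ℕ) : (2 : ℤ) ∣ (a * π ^ k).im ↔ (2 : ℤ) ∣ a.im := by
  induction k with
  | zero => simp
  | succ k ih =>
    rw [pow_succ, ← mul_assoc, P.par_mul, ih]

theorem norm_pow (k : ℕ) : (π ^ k).norm = p ^ k := by
  induction k with
  | zero => simp
  | succ k ih => rw [pow_succ, Zsqrtd.norm_mul, ih, P.hn, pow_succ]

theorem not_unit : ¬ IsUnit π := P.prime.not_unit

theorem not_dvd_star : ¬ π ∣ Star.star π := by
  intro h
  have := P.coprime.isUnit_of_dvd' dvd_rfl h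
  exact P.not_unit this

theorem dvd_iff_star {w : GaussianInt} : π ∣ Star.star w ↔ Star.star π ∣ w := by
  constructor
  · rintro ⟨c, hc⟩
    refine ⟨Star.star c, ?_⟩
    have := congrArg Star.star hc
    rw [star_star, star_mul'] at this
    exact this
  · rintro ⟨c, rfl⟩
    rw [star_mul', star_star]
    exact ⟨_, rfl⟩

theorem dvd_norm {w : GaussianInt} (h : π ∣ w) : (p : ℤ) ∣ w.norm := by
  obtain ⟨c, rfl⟩ := h
  rw [Zsqrtd.norm_mul, P.hn]
  exact ⟨_, rfl⟩

/-- the dichotomy -/
theorem cases {w : GaussianInt} (h : (p : ℤ) ∣ w.norm) : π ∣ w ∨ Star.star π ∣ w := by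
  have h1 : π ∣ w * Star.star w := by
    rw [← Zsqrtd.norm_eq_mul_conj]
    obtain ⟨c, hc⟩ := h
    rw [hc]
    push_cast
    rw [← P.mul_star]
    exact ⟨Star.star π * c, by ring⟩
  rcases P.prime.dvd_or_dvd h1 with h | h
  · exact Or.inl h
  · exact Or.inr (P.dvd_iff_star.mp h)

theorem pow_dvd {w : GaussianInt} {n1 k : ℕ} (hn : w.norm = n1 * p ^ k)
    (h : ¬ Star.star π ∣ w) : π ^ k ∣ w := by
  have h1 : π ^ k ∣ w * Star.star w := by
    rw [← Zsqrtd.norm_eq_mul_conj, hn]
    push_cast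
    rw [← P.mul_star, mul_pow]
    exact ⟨n1 * Star.star π ^ k, by ring⟩
  have h2 : ¬ π ∣ Star.star w := fun h' => h (P.dvd_iff_star.mp h')
  exact P.prime.pow_dvd_of_dvd_mul_right k h2 h1

open Classical in
theorem card_B1 {n1 k : ℕ} (hn1 : ¬ p ∣ n1) (hk : k ≠ 0) :
    ((Gs (n1 * p ^ k)).filter (fun w => w.im * w.im < w.re * w.re ∧ π ∣ w ∧
      ¬ Star.star π ∣ w)).card =
    ((Gs n1).filter (fun w => (w * π ^ k).im * (w * π ^ k).im <
      (w * π ^ k).re * (w * π ^ k).re)).card := by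
  symm
  refine card_bij (fun w _ => w * π ^ k) ?_ ?_ ?_
  · intro w hw
    simp only [mem_filter, mem_Gs] at hw ⊢
    obtain ⟨⟨h1, h2⟩, h3⟩ := hw
    refine ⟨⟨by rw [Zsqrtd.norm_mul, h1, P.norm_pow], (P.par_pow w k).mpr h2⟩, h3,
      (dvd_pow_self π hk).mul_left _, ?_⟩
    intro h4
    rcases P.star.prime.dvd_or_dvd h4 with h | h
    · have := P.star.dvd_norm h
      rw [h1] at this
      exact hn1 (by exact_mod_cast this)
    · have h5 := P.star.prime.dvd_of_dvd_pow h
      have h6 := P.star.not_dvd_star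
      rw [star_star] at h6
      exact h6 h5
  · intro a _ b _ hab
    exact mul_right_cancel₀ (pow_ne_zero k P.prime.ne_zero) hab
  · intro w hw
    simp only [mem_filter, mem_Gs] at hw
    obtain ⟨⟨h1, h2⟩, h3, h4, h5⟩ := hw
    obtain ⟨c, hc⟩ := P.pow_dvd h1 h5
    refine ⟨c, ?_, by rw [hc]; ring⟩
    have hc' : w = c * π ^ k := by rw [hc]; ring
    simp only [mem_filter, mem_Gs]
    rw [hc'] at h1 h2 h3
    rw [P.par_pow] at h2
    rw [Zsqrtd.norm_mul, P.norm_pow] at h1
    refine ⟨⟨?_, h2⟩, h3⟩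
    have hpk : ((p : ℤ) ^ k) ≠ 0 := pow_ne_zero _ (by exact_mod_cast P.hp.ne_zero)
    exact mul_right_cancel₀ hpk h1

open Classical in
theorem card_B2 (m : ℤ) :
    ((Gs m).filter (fun w => w.im * w.im < w.re * w.re ∧ Star.star π ∣ w ∧ ¬ π ∣ w)).card =
    ((Gs m).filter (fun w => w.im * w.im < w.re * w.re ∧ π ∣ w ∧ ¬ Star.star π ∣ w)).card := by
  refine card_reflect _ _ (fun w => Star.star w) ?_ ?_ ?_
  · intro w hw
    simp only [mem_filter, mem_Gs] at hw ⊢
    obtain ⟨⟨h1, h2⟩, h3, h4, h5⟩ := hw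
    refine ⟨⟨by rw [Zsqrtd.norm_conj, h1], ?_⟩, ?_, ?_, ?_⟩
    · simp only [Zsqrtd.im_star]; omega
    · simp only [Zsqrtd.im_star, Zsqrtd.re_star]; rw [neg_mul_neg]; exact h3
    · exact P.dvd_iff_star.mpr h4
    · intro h6
      have := P.star.dvd_iff_star.mp h6
      rw [star_star] at this
      exact h5 this
  · intro w hw
    simp only [mem_filter, mem_Gs] at hw ⊢
    obtain ⟨⟨h1, h2⟩, h3, h4, h5⟩ := hw
    refine ⟨⟨by rw [Zsqrtd.norm_conj, h1], ?_⟩, ?_, ?_, ?_⟩
    · simp only [Zsqrtd.im_star]; omega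
    · simp only [Zsqrtd.im_star, Zsqrtd.re_star]; rw [neg_mul_neg]; exact h3
    · apply P.star.dvd_iff_star.mpr
      rw [star_star]
      exact h4
    · intro h6
      exact h5 (P.dvd_iff_star.mp h6)
  · intro w; simp

open Classical in
theorem card_A (n1 k : ℕ) :
    ((Gs (n1 * p ^ (k + 2))).filter (fun w => w.im * w.im < w.re * w.re ∧ π ∣ w ∧
      Star.star π ∣ w)).card = Ms (n1 * p ^ k) := by
  unfold Ms
  symm
  have hp0 : (0 : ℤ) < p := by exact_mod_cast P.hp.pos
  have hre : ∀ w : GaussianInt, ((p : GaussianInt) * w).re = p * w.re := by intro w; simp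
  have him : ∀ w : GaussianInt, ((p : GaussianInt) * w).im = p * w.im := by intro w; simp
  have hsec : ∀ w : GaussianInt, ((p : GaussianInt) * w).im * ((p : GaussianInt) * w).im <
      ((p : GaussianInt) * w).re * ((p : GaussianInt) * w).re ↔ w.im * w.im < w.re * w.re := by
    intro w
    rw [hre, him]
    have e1 : (p : ℤ) * w.im * (p * w.im) = (p * p) * (w.im * w.im) := by ring
    have e2 : (p : ℤ) * w.re * (p * w.re) = (p * p) * (w.re * w.re) := by ring
    rw [e1, e2]
    exact mul_lt_mul_iff_right₀ (by positivity)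
  have hpar : ∀ w : GaussianInt, (2 : ℤ) ∣ ((p : GaussianInt) * w).im ↔ (2 : ℤ) ∣ w.im := by
    intro w
    rw [him]
    have := P.hodd
    constructor
    · intro h
      rcases Int.prime_two.dvd_or_dvd h with h | h
      · omega
      · exact h
    · intro h; exact h.mul_left _
  refine card_bij (fun w _ => (p : GaussianInt) * w) ?_ ?_ ?_
  · intro w hw
    simp only [mem_filter, mem_Gs] at hw ⊢
    obtain ⟨⟨h1, h2⟩, h3⟩ := hw
    refine ⟨⟨?_, (hpar w).mpr h2⟩, (hsec w).mpr h3, ?_, ?_⟩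
    · rw [Zsqrtd.norm_mul, h1, Zsqrtd.norm_natCast]
      ring
    · rw [← P.mul_star]
      exact ⟨Star.star π * w, by ring⟩
    · rw [← P.mul_star]
      exact ⟨π * w, by ring⟩
  · intro a _ b _ hab
    have : (p : GaussianInt) ≠ 0 := by
      rw [← P.mul_star]
      exact mul_ne_zero P.prime.ne_zero P.star.prime.ne_zero
    exact mul_left_cancel₀ this hab
  · intro w hw
    simp only [mem_filter, mem_Gs] at hw
    obtain ⟨⟨h1, h2⟩, h3, h4, h5⟩ := hw
    obtain ⟨c, hc⟩ := P.coprime.mul_dvd h4 h5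
    rw [P.mul_star] at hc
    refine ⟨c, ?_, hc.symm⟩
    rw [hc] at h1 h2 h3
    simp only [mem_filter, mem_Gs]
    refine ⟨⟨?_, (hpar c).mp h2⟩, (hsec c).mp h3⟩
    rw [Zsqrtd.norm_mul, Zsqrtd.norm_natCast] at h1
    have hpp : ((p : ℤ) * p) ≠ 0 := by positivity
    apply mul_left_cancel₀ hpp
    rw [h1]; ring

theorem Ms_step {n1 k : ℕ} (hn1 : ¬ p ∣ n1) : Ms (n1 * p ^ (k + 2)) = Ms (n1 * p ^ k) +
    2 * ((Gs n1).filter (fun w => (w * π ^ (k + 2)).im * (w * π ^ (k + 2)).im <
      (w * π ^ (k + 2)).re * (w * π ^ (k + 2)).re)).card := by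
  classical
  have h1 : Ms (n1 * p ^ (k + 2)) =
      ((Gs (n1 * p ^ (k + 2))).filter (fun w => w.im * w.im < w.re * w.re ∧ π ∣ w)).card +
      ((Gs (n1 * p ^ (k + 2))).filter (fun w => w.im * w.im < w.re * w.re ∧
        Star.star π ∣ w ∧ ¬ π ∣ w)).card := by
    unfold Ms
    refine card_filter_split _ _ _ _ ?_ ?_
    · intro w hw
      rw [mem_Gs] at hw
      have hc := P.cases (w := w) (by rw [hw.1]; exact ⟨n1 * p ^ (k + 1), by ring⟩)
      tauto
    · intro w _
      tauto
  have h2 : ((Gs (n1 * p ^ (k + 2))).filter (fun w => w.im * w.im < w.re * w.re ∧ π ∣ w)).card =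
      ((Gs (n1 * p ^ (k + 2))).filter (fun w => w.im * w.im < w.re * w.re ∧ π ∣ w ∧
        Star.star π ∣ w)).card +
      ((Gs (n1 * p ^ (k + 2))).filter (fun w => w.im * w.im < w.re * w.re ∧ π ∣ w ∧
        ¬ Star.star π ∣ w)).card := by
    refine card_filter_split _ _ _ _ ?_ ?_
    · intro w hw
      tauto
    · intro w _
      tauto
  have h3 := P.card_A n1 k
  have h4 := P.card_B2 (n1 * p ^ (k + 2))
  have h5 := P.card_B1 (n1 := n1) (k := k + 2) hn1 (by omega)
  rw [h1, h2, h3, h4, h5]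
  ring

end Pi

end Pool.Agent.Nu3
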