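import Pool.Agent.Nu3.Even4c

/-!
General mod 4 relation on `Om N`.
-/

namespace Pool.Agent.Nu3

open Finset

theorem card_reflect {α : Type*} (s t : Finset α) (g : α → α) (h1 : ∀ a ∈ s, g a ∈ t)
    (h2 : ∀ a ∈ t, g a ∈ s) (h3 : ∀ a, g (g a) = a) : s.card = t.card :=
  card_nbij' g g h1 h2 (fun a _ => h3 a) (fun a _ => h3 a)

variable (K : ℤ → Prop) [DecidablePred K]

theorem Om_dec (N : ℤ) (hK : ∀ x, K (-x) ↔ K x) :
    ((Om N).filter (fun e => K e.1)).card =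
      ((Om N).filter (fun e => e.1 = 0 ∧ K e.1)).card +
      2 * ((Om N).filter (fun e => 0 < e.1 ∧ e.2.1 = e.2.2 ∧ K e.1)).card +
      4 * ((Om N).filter (fun e => 0 < e.1 ∧ e.2.1 < e.2.2 ∧ K e.1)).card := by
  have h1 : ((Om N).filter (fun e => K e.1)).card =
      ((Om N).filter (fun e => e.1 = 0 ∧ K e.1)).card +
      ((Om N).filter (fun e => e.1 ≠ 0 ∧ K e.1)).card := by
    refine card_filter_split _ _ _ _ ?_ ?_
    · rintro ⟨x, u, v⟩ _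
      simp only
      tauto
    · rintro ⟨x, u, v⟩ _
      simp only
      tauto
  have h2 : ((Om N).filter (fun e => e.1 ≠ 0 ∧ K e.1)).card =
      ((Om N).filter (fun e => 0 < e.1 ∧ K e.1)).card +
      ((Om N).filter (fun e => e.1 < 0 ∧ K e.1)).card := by
    refine card_filter_split _ _ _ _ ?_ ?_
    · rintro ⟨x, u, v⟩ _
      simp only
      constructor
      · rintro ⟨a, b⟩
        rcases lt_or_gt_of_ne a with h | h
        · exact Or.inr ⟨h, b⟩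
        · exact Or.inl ⟨h, b⟩
      · rintro (⟨a, b⟩ | ⟨a, b⟩)
        · exact ⟨by omega, b⟩
        · exact ⟨by omega, b⟩
    · rintro ⟨x, u, v⟩ _
      simp only
      omega
  have h3 : ((Om N).filter (fun e => e.1 < 0 ∧ K e.1)).card =
      ((Om N).filter (fun e => 0 < e.1 ∧ K e.1)).card := by
    refine card_reflect _ _ (fun e => (-e.1, e.2.1, e.2.2)) ?_ ?_ ?_
    · rintro ⟨x, u, v⟩ he
      simp only [mem_filter, mem_Om] at he ⊢
      obtain ⟨⟨hu, hv, h⟩, h1, h2⟩ := he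
      exact ⟨⟨hu, hv, by rw [← h]; ring⟩, by omega, (hK x).mpr h2⟩
    · rintro ⟨x, u, v⟩ he
      simp only [mem_filter, mem_Om] at he ⊢
      obtain ⟨⟨hu, hv, h⟩, h1, h2⟩ := he
      exact ⟨⟨hu, hv, by rw [← h]; ring⟩, by omega, (hK x).mpr h2⟩
    · rintro ⟨x, u, v⟩
      simp
  have h4 : ((Om N).filter (fun e => 0 < e.1 ∧ K e.1)).card =
      ((Om N).filter (fun e => 0 < e.1 ∧ e.2.1 = e.2.2 ∧ K e.1)).card +
      ((Om N).filter (fun e => 0 < e.1 ∧ e.2.1 ≠ e.2.2 ∧ K e.1)).card := by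
    refine card_filter_split _ _ _ _ ?_ ?_
    · rintro ⟨x, u, v⟩ _
      simp only
      tauto
    · rintro ⟨x, u, v⟩ _
      simp only
      tauto
  have h5 : ((Om N).filter (fun e => 0 < e.1 ∧ e.2.1 ≠ e.2.2 ∧ K e.1)).card =
      ((Om N).filter (fun e => 0 < e.1 ∧ e.2.1 < e.2.2 ∧ K e.1)).card +
      ((Om N).filter (fun e => 0 < e.1 ∧ e.2.2 < e.2.1 ∧ K e.1)).card := by
    refine card_filter_split _ _ _ _ ?_ ?_
    · rintro ⟨x, u, v⟩ _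
      simp only
      constructor
      · rintro ⟨a, b, c⟩
        rcases lt_or_gt_of_ne b with h | h
        · exact Or.inl ⟨a, h, c⟩
        · exact Or.inr ⟨a, h, c⟩
      · rintro (⟨a, b, c⟩ | ⟨a, b, c⟩)
        · exact ⟨a, by omega, c⟩
        · exact ⟨a, by omega, c⟩
    · rintro ⟨x, u, v⟩ _
      simp only
      omega
  have h6 : ((Om N).filter (fun e => 0 < e.1 ∧ e.2.2 < e.2.1 ∧ K e.1)).card =
      ((Om N).filter (fun e => 0 < e.1 ∧ e.2.1 < e.2.2 ∧ K e.1)).card := by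
    refine card_reflect _ _ (fun e => (e.1, e.2.2, e.2.1)) ?_ ?_ ?_
    · rintro ⟨x, u, v⟩ he
      simp only [mem_filter, mem_Om] at he ⊢
      obtain ⟨⟨hu, hv, h⟩, h1, h2, h3⟩ := he
      exact ⟨⟨hv, hu, by rw [← h]; ring⟩, h1, h2, h3⟩
    · rintro ⟨x, u, v⟩ he
      simp only [mem_filter, mem_Om] at he ⊢
      obtain ⟨⟨hu, hv, h⟩, h1, h2, h3⟩ := he
      exact ⟨⟨hv, hu, by rw [← h]; ring⟩, h1, h2, h3⟩
    · rintro ⟨x, u, v⟩
      simp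
  omega

theorem E3_dec (N : ℤ)
    (hK3 : ∀ x u v, (x, u, v) ∈ Om N → (K (-3 * x - 2 * u + 2 * v) ↔ K x))
    (hKm : ∀ x u v, (x, u, v) ∈ Om N → (K (3 * x + 2 * u - 2 * v) ↔ K x)) :
    ((Om N).filter (fun e => (e.2.2 < 2 * e.2.1 + 2 * e.1 ∧ e.2.1 + 2 * e.1 < 2 * e.2.2) ∧
      K e.1)).card =
      ((Om N).filter (fun e => e.2.2 = e.2.1 + 2 * e.1 ∧ K e.1)).card +
      2 * ((Om N).filter (fun e => e.2.2 = e.2.1 + e.1 ∧ e.1 < 0 ∧ K e.1)).card +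
      4 * ((Om N).filter (fun e => (e.2.2 < 2 * e.2.1 + 2 * e.1 ∧ e.2.1 + 2 * e.1 < 2 * e.2.2) ∧
        e.2.1 + 2 * e.1 < e.2.2 ∧ e.2.2 < e.2.1 + e.1 ∧ K e.1)).card := by
  have h1 : ((Om N).filter (fun e => (e.2.2 < 2 * e.2.1 + 2 * e.1 ∧
      e.2.1 + 2 * e.1 < 2 * e.2.2) ∧ K e.1)).card =
      ((Om N).filter (fun e => e.2.2 = e.2.1 + 2 * e.1 ∧ K e.1)).card +
      ((Om N).filter (fun e => (e.2.2 < 2 * e.2.1 + 2 * e.1 ∧
        e.2.1 + 2 * e.1 < 2 * e.2.2) ∧ e.2.2 ≠ e.2.1 + 2 * e.1 ∧ K e.1)).card := by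
    refine card_filter_split _ _ _ _ ?_ ?_
    · rintro ⟨x, u, v⟩ he
      rw [mem_Om] at he
      obtain ⟨hu, hv, _⟩ := he
      simp only
      constructor
      · rintro ⟨a, b⟩
        by_cases h : v = u + 2 * x
        · exact Or.inl ⟨h, b⟩
        · exact Or.inr ⟨a, h, b⟩
      · rintro (⟨a, b⟩ | ⟨a, b, c⟩)
        · exact ⟨by omega, b⟩
        · exact ⟨a, c⟩
    · rintro ⟨x, u, v⟩ _
      simp only
      tauto
  have h2 : ((Om N).filter (fun e => (e.2.2 < 2 * e.2.1 + 2 * e.1 ∧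
        e.2.1 + 2 * e.1 < 2 * e.2.2) ∧ e.2.2 ≠ e.2.1 + 2 * e.1 ∧ K e.1)).card =
      ((Om N).filter (fun e => (e.2.2 < 2 * e.2.1 + 2 * e.1 ∧
        e.2.1 + 2 * e.1 < 2 * e.2.2) ∧ e.2.1 + 2 * e.1 < e.2.2 ∧ K e.1)).card +
      ((Om N).filter (fun e => (e.2.2 < 2 * e.2.1 + 2 * e.1 ∧
        e.2.1 + 2 * e.1 < 2 * e.2.2) ∧ e.2.2 < e.2.1 + 2 * e.1 ∧ K e.1)).card := by
    refine card_filter_split _ _ _ _ ?_ ?_
    · rintro ⟨x, u, v⟩ he
      simp only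
      constructor
      · rintro ⟨a, b, c⟩
        rcases lt_or_gt_of_ne b with h | h
        · exact Or.inr ⟨a, h, c⟩
        · exact Or.inl ⟨a, h, c⟩
      · rintro (⟨a, b, c⟩ | ⟨a, b, c⟩)
        · exact ⟨a, by omega, c⟩
        · exact ⟨a, by omega, c⟩
    · rintro ⟨x, u, v⟩ _
      simp only
      omega
  have h3 : ((Om N).filter (fun e => (e.2.2 < 2 * e.2.1 + 2 * e.1 ∧
        e.2.1 + 2 * e.1 < 2 * e.2.2) ∧ e.2.2 < e.2.1 + 2 * e.1 ∧ K e.1)).card =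
      ((Om N).filter (fun e => (e.2.2 < 2 * e.2.1 + 2 * e.1 ∧
        e.2.1 + 2 * e.1 < 2 * e.2.2) ∧ e.2.1 + 2 * e.1 < e.2.2 ∧ K e.1)).card := by
    refine card_reflect _ _ (fun e => (-3 * e.1 - 2 * e.2.1 + 2 * e.2.2,
      2 * e.2.1 + 2 * e.1 - e.2.2, 2 * e.2.2 - e.2.1 - 2 * e.1)) ?_ ?_ ?_
    · rintro ⟨x, u, v⟩ he
      simp only [mem_filter] at he ⊢
      obtain ⟨he, ⟨h1, h2⟩, h3, h4⟩ := he
      have hk := (hK3 x u v he).mpr h4
      rw [mem_Om] at he ⊢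
      obtain ⟨hu, hv, h⟩ := he
      exact ⟨⟨by omega, by omega, by rw [← h]; ring⟩, by omega, by omega, hk⟩
    · rintro ⟨x, u, v⟩ he
      simp only [mem_filter] at he ⊢
      obtain ⟨he, ⟨h1, h2⟩, h3, h4⟩ := he
      have hk := (hK3 x u v he).mpr h4
      rw [mem_Om] at he ⊢
      obtain ⟨hu, hv, h⟩ := he
      exact ⟨⟨by omega, by omega, by rw [← h]; ring⟩, by omega, by omega, hk⟩
    · rintro ⟨x, u, v⟩
      simp only [Prod.mk.injEq]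
      exact ⟨by ring, by ring, by ring⟩
  have h4 : ((Om N).filter (fun e => (e.2.2 < 2 * e.2.1 + 2 * e.1 ∧
        e.2.1 + 2 * e.1 < 2 * e.2.2) ∧ e.2.1 + 2 * e.1 < e.2.2 ∧ K e.1)).card =
      ((Om N).filter (fun e => e.2.2 = e.2.1 + e.1 ∧ e.1 < 0 ∧ K e.1)).card +
      ((Om N).filter (fun e => (e.2.2 < 2 * e.2.1 + 2 * e.1 ∧
        e.2.1 + 2 * e.1 < 2 * e.2.2) ∧ e.2.1 + 2 * e.1 < e.2.2 ∧ e.2.2 ≠ e.2.1 + e.1 ∧
        K e.1)).card := by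
    refine card_filter_split _ _ _ _ ?_ ?_
    · rintro ⟨x, u, v⟩ he
      rw [mem_Om] at he
      obtain ⟨hu, hv, _⟩ := he
      simp only
      constructor
      · rintro ⟨a, b, c⟩
        by_cases h : v = u + x
        · exact Or.inl ⟨h, by omega, c⟩
        · exact Or.inr ⟨a, b, h, c⟩
      · rintro (⟨a, b, c⟩ | ⟨a, b, c, d⟩)
        · exact ⟨by omega, by omega, c⟩
        · exact ⟨a, b, d⟩
    · rintro ⟨x, u, v⟩ _
      simp only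
      tauto
  have h5 : ((Om N).filter (fun e => (e.2.2 < 2 * e.2.1 + 2 * e.1 ∧
        e.2.1 + 2 * e.1 < 2 * e.2.2) ∧ e.2.1 + 2 * e.1 < e.2.2 ∧ e.2.2 ≠ e.2.1 + e.1 ∧
        K e.1)).card =
      ((Om N).filter (fun e => (e.2.2 < 2 * e.2.1 + 2 * e.1 ∧ e.2.1 + 2 * e.1 < 2 * e.2.2) ∧
        e.2.1 + 2 * e.1 < e.2.2 ∧ e.2.2 < e.2.1 + e.1 ∧ K e.1)).card +
      ((Om N).filter (fun e => (e.2.2 < 2 * e.2.1 + 2 * e.1 ∧ e.2.1 + 2 * e.1 < 2 * e.2.2) ∧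
        e.2.1 + 2 * e.1 < e.2.2 ∧ e.2.1 + e.1 < e.2.2 ∧ K e.1)).card := by
    refine card_filter_split _ _ _ _ ?_ ?_
    · rintro ⟨x, u, v⟩ he
      simp only
      constructor
      · rintro ⟨a, b, c, d⟩
        rcases lt_or_gt_of_ne c with h | h
        · exact Or.inl ⟨a, b, h, d⟩
        · exact Or.inr ⟨a, b, h, d⟩
      · rintro (⟨a, b, c, d⟩ | ⟨a, b, c, d⟩)
        · exact ⟨a, b, by omega, d⟩
        · exact ⟨a, b, by omega, d⟩
    · rintro ⟨x, u, v⟩ _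
      simp only
      omega
  have h6 : ((Om N).filter (fun e => (e.2.2 < 2 * e.2.1 + 2 * e.1 ∧
        e.2.1 + 2 * e.1 < 2 * e.2.2) ∧
        e.2.1 + 2 * e.1 < e.2.2 ∧ e.2.1 + e.1 < e.2.2 ∧ K e.1)).card =
      ((Om N).filter (fun e => (e.2.2 < 2 * e.2.1 + 2 * e.1 ∧ e.2.1 + 2 * e.1 < 2 * e.2.2) ∧
        e.2.1 + 2 * e.1 < e.2.2 ∧ e.2.2 < e.2.1 + e.1 ∧ K e.1)).card := by
    refine card_reflect _ _ (fun e => (3 * e.1 + 2 * e.2.1 - 2 * e.2.2,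
      2 * e.2.2 - e.2.1 - 2 * e.1, 2 * e.2.1 + 2 * e.1 - e.2.2)) ?_ ?_ ?_
    · rintro ⟨x, u, v⟩ he
      simp only [mem_filter] at he ⊢
      obtain ⟨he, ⟨h1, h2⟩, h3, h4, h5⟩ := he
      have hk := (hKm x u v he).mpr h5
      rw [mem_Om] at he ⊢
      obtain ⟨hu, hv, h⟩ := he
      exact ⟨⟨by omega, by omega, by rw [← h]; ring⟩, by omega, by omega, by omega, hk⟩
    · rintro ⟨x, u, v⟩ he
      simp only [mem_filter] at he ⊢
      obtain ⟨he, ⟨h1, h2⟩, h3, h4, h5⟩ := he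
      have hk := (hKm x u v he).mpr h5
      rw [mem_Om] at he ⊢
      obtain ⟨hu, hv, h⟩ := he
      exact ⟨⟨by omega, by omega, by rw [← h]; ring⟩, by omega, by omega, by omega, hk⟩
    · rintro ⟨x, u, v⟩
      simp only [Prod.mk.injEq]
      exact ⟨by ring, by ring, by ring⟩
  omega

theorem Om_E {N : ℤ} (hN : ¬ IsSquare N) (hK : ∀ x, K (-x) ↔ K x) :
    ((Om N).filter (fun e => K e.1)).card =
      2 * ((Om N).filter (fun e => 2 * e.2.2 < e.2.1 + 2 * e.1 ∧ K e.1)).card +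
      ((Om N).filter (fun e => (e.2.2 < 2 * e.2.1 + 2 * e.1 ∧ e.2.1 + 2 * e.1 < 2 * e.2.2) ∧
        K e.1)).card := by
  have h1 := sum_split hN (fun e => if K e.1 then 1 else 0)
  have h2 := sum_E1_eq_E2 (N := N) (fun e => if K e.1 then 1 else 0) (by
    intro x u v _
    simp only [hK x])
  rw [h2] at h1
  simp only [sum_boole, filter_filter] at h1
  have : (((Om N).filter (fun e => K e.1)).card : ℤ) =
      2 * ((Om N).filter (fun e => 2 * e.2.2 < e.2.1 + 2 * e.1 ∧ K e.1)).card +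
      ((Om N).filter (fun e => (e.2.2 < 2 * e.2.1 + 2 * e.1 ∧ e.2.1 + 2 * e.1 < 2 * e.2.2) ∧
        K e.1)).card := by
    rw [h1]; ring
  exact_mod_cast this

/-- The general relation modulo 4. -/
theorem gen_rel {N : ℤ} (hN : ¬ IsSquare N) (hK : ∀ x, K (-x) ↔ K x)
    (hK3 : ∀ x u v, (x, u, v) ∈ Om N → (K (-3 * x - 2 * u + 2 * v) ↔ K x))
    (hKm : ∀ x u v, (x, u, v) ∈ Om N → (K (3 * x + 2 * u - 2 * v) ↔ K x)) :
    ∃ a b : ℕ,
      ((Om N).filter (fun e => e.1 = 0 ∧ K e.1)).card +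
      2 * ((Om N).filter (fun e => 0 < e.1 ∧ e.2.1 = e.2.2 ∧ K e.1)).card + 4 * a =
      2 * ((Om N).filter (fun e => 2 * e.2.2 < e.2.1 + 2 * e.1 ∧ K e.1)).card +
      ((Om N).filter (fun e => e.2.2 = e.2.1 + 2 * e.1 ∧ K e.1)).card +
      2 * ((Om N).filter (fun e => e.2.2 = e.2.1 + e.1 ∧ e.1 < 0 ∧ K e.1)).card + 4 * b := by
  have h1 := Om_dec K N hK
  have h2 := E3_dec K N hK3 hKm
  have h3 := Om_E K hN hK
  refine ⟨((Om N).filter (fun e => 0 < e.1 ∧ e.2.1 < e.2.2 ∧ K e.1)).card,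
    ((Om N).filter (fun e => (e.2.2 < 2 * e.2.1 + 2 * e.1 ∧ e.2.1 + 2 * e.1 < 2 * e.2.2) ∧
        e.2.1 + 2 * e.1 < e.2.2 ∧ e.2.2 < e.2.1 + e.1 ∧ K e.1)).card, ?_⟩
  omega

end Pool.Agent.Nu3
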