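import Pool.Agent.Nu3.Basic

/-!
The sign function used in the twisted identity for odd `N`.
-/

namespace Pool.Agent.Nu3

open Finset

section field

variable {F : Type*} [Field F] [Fintype F] [DecidableEq F]

/-- local symbol -/
noncomputable def sF (u v : F) : ℤ :=
  if u ≠ 0 then quadraticChar F u else quadraticChar F (-2) * quadraticChar F v

theorem chi_sq_one {a : F} (ha : a ≠ 0) : quadraticChar F a * quadraticChar F a = 1 := by
  rw [← map_mul, ← sq]
  exact quadraticChar_sq_one' ha

theorem two_ne (h2 : ringChar F ≠ 2) : (2 : F) ≠ 0 := Ring.two_ne_zero h2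

theorem neg_two_ne (h2 : ringChar F ≠ 2) : (-2 : F) ≠ 0 := neg_ne_zero.mpr (two_ne h2)

theorem sF_of_ne (h2 : ringChar F ≠ 2) {x u v : F} (h : x ^ 2 + 2 * u * v = 0) (hv : v ≠ 0) :
    sF u v = quadraticChar F (-2) * quadraticChar F v := by
  unfold sF
  split_ifs with hu
  · have hx : x ≠ 0 := by
      rintro rfl
      have : 2 * u * v = 0 := by linear_combination h
      exact (mul_ne_zero (mul_ne_zero (two_ne h2) hu) hv) this
    have h3 : (-2 : F) * u * v = x ^ 2 := by linear_combination -h
    have h4 : quadraticChar F (-2) * quadraticChar F u * quadraticChar F v = 1 := by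
      rw [← map_mul, ← map_mul, h3]
      exact quadraticChar_sq_one' hx
    have h5 := chi_sq_one hv
    have h6 := chi_sq_one (neg_two_ne h2)
    calc quadraticChar F u = (quadraticChar F (-2) * quadraticChar F (-2)) *
          (quadraticChar F v * quadraticChar F v) * quadraticChar F u := by
            rw [h5, h6]; ring
      _ = quadraticChar F (-2) * quadraticChar F v *
          (quadraticChar F (-2) * quadraticChar F u * quadraticChar F v) := by ring
      _ = _ := by rw [h4, mul_one]
  · rfl

theorem sF_swap (h2 : ringChar F ≠ 2) {x u v : F} (h : x ^ 2 + 2 * u * v = 0)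
    (huv : u ≠ 0 ∨ v ≠ 0) : sF v u = quadraticChar F (-2) * sF u v := by
  have h6 := chi_sq_one (neg_two_ne h2)
  by_cases hv : v = 0
  · have hu : u ≠ 0 := by tauto
    subst hv
    unfold sF
    simp [hu]
  · by_cases hu : u = 0
    · subst hu
      unfold sF
      simp only [ne_eq, hv, not_false_eq_true, if_true, not_true_eq_false, if_false]
      rw [← mul_assoc, h6, one_mul]
    · rw [sF_of_ne h2 h hv]
      unfold sF
      simp only [ne_eq, hv, not_false_eq_true, if_true]
      rw [← mul_assoc, h6, one_mul]

theorem sF_tau2 (h2 : ringChar F ≠ 2) {x u v : F} (h : x ^ 2 + 2 * u * v = 0) :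
    sF (u + 2 * x - 2 * v) v = sF u v := by
  by_cases hv : v = 0
  · subst hv
    have hx : x = 0 := by
      have : x ^ 2 = 0 := by linear_combination h
      exact pow_eq_zero_iff (two_ne_zero) |>.mp this
    subst hx
    simp
  · rw [sF_of_ne h2 h hv]
    refine sF_of_ne (x := 2 * v - x) h2 ?_ hv
    linear_combination h

theorem sF_tau3 (h2 : ringChar F ≠ 2) {x u v : F} (h : x ^ 2 + 2 * u * v = 0)
    (huv : u ≠ 0 ∨ v ≠ 0) :
    sF (2 * u + 2 * x - v) (2 * v - u - 2 * x) = quadraticChar F 2 * sF u v := by
  have t2 := two_ne h2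
  have key : 2 * u * (2 * u + 2 * x - v) = (2 * u + x) ^ 2 := by linear_combination -h
  by_cases hu : u = 0
  · subst hu
    have hx : x = 0 := by
      have : x ^ 2 = 0 := by linear_combination h
      exact pow_eq_zero_iff (two_ne_zero) |>.mp this
    subst hx
    have hv : v ≠ 0 := by tauto
    have hv' : -v ≠ 0 := neg_ne_zero.mpr hv
    unfold sF
    simp only [mul_zero, add_zero, zero_sub, ne_eq, hv', not_false_eq_true, if_true,
      not_true_eq_false, if_false]
    rw [← mul_assoc, ← map_mul, ← map_mul]
    have : (2 : F) * -2 * v = 2 ^ 2 * (-v) := by ring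
    rw [this, map_mul, quadraticChar_sq_one' t2, one_mul]
  · by_cases hu' : 2 * u + 2 * x - v = 0
    · rw [hu', mul_zero] at key
      have h4 : 2 * u + x = 0 := pow_eq_zero_iff (two_ne_zero) |>.mp key.symm
      have hx : x = -2 * u := by linear_combination h4
      have hv : v = -2 * u := by linear_combination -hu' + 2 * hx
      have hv' : 2 * v - u - 2 * x = -u := by rw [hv, hx]; ring
      rw [hu', hv']
      unfold sF
      simp only [ne_eq, hu, not_false_eq_true, if_true,
        not_true_eq_false, if_false]
      rw [← map_mul, ← map_mul]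
      congr 1
      ring
    · unfold sF
      simp only [ne_eq, hu, hu', not_false_eq_true, if_true]
      have h5 : (2 * u + x) ≠ 0 := by
        intro h5
        rw [h5] at key
        have : 2 * u * (2 * u + 2 * x - v) = 0 := by rw [key]; ring
        exact (mul_ne_zero (mul_ne_zero t2 hu) hu') this
      have h6 : quadraticChar F 2 * quadraticChar F u * quadraticChar F (2 * u + 2 * x - v) = 1 := by
        rw [← map_mul, ← map_mul, key]
        exact quadraticChar_sq_one' h5
      have h7 := chi_sq_one hu
      have h8 := chi_sq_one t2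
      calc quadraticChar F (2 * u + 2 * x - v) = (quadraticChar F 2 * quadraticChar F 2) *
          (quadraticChar F u * quadraticChar F u) * quadraticChar F (2 * u + 2 * x - v) := by
            rw [h7, h8]; ring
        _ = quadraticChar F 2 * quadraticChar F u *
          (quadraticChar F 2 * quadraticChar F u * quadraticChar F (2 * u + 2 * x - v)) := by ring
        _ = _ := by rw [h6, mul_one]

theorem sF_sq (h2 : ringChar F ≠ 2) {u v : F} (huv : u ≠ 0 ∨ v ≠ 0) : sF u v = 1 ∨ sF u v = -1 := by
  unfold sF
  split_ifs with hu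
  · exact quadraticChar_dichotomy hu
  · have hv : v ≠ 0 := by tauto
    rw [← map_mul]
    exact quadraticChar_dichotomy (mul_ne_zero (neg_two_ne h2) hv)

end field

/-- The 2-adic part. -/
def phi (x u v : ZMod 4) : ℤ :=
  ZMod.χ₄ x * (if (u = 1 ∨ u = 3) ∧ (v = 1 ∨ v = 3) then 1
    else if (v = 1 ∨ v = 3) then - ZMod.χ₄ v
    else if (u = 1 ∨ u = 3) then ZMod.χ₄ u
    else if u + v = 0 then 1 else -1)

theorem phi_neg (x u v : ZMod 4) : phi (-x) u v = - phi x u v := by
  revert x u v; decide

theorem phi_tau2 (x u v : ZMod 4) (hx : x = 1 ∨ x = 3) :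
    phi (2 * v - x) (u + 2 * x - 2 * v) v = phi x u v := by
  revert x u v; decide

theorem phi_tau3 (x u v : ZMod 4) (hx : x = 1 ∨ x = 3) :
    phi (-3 * x - 2 * u + 2 * v) (2 * u + 2 * x - v) (2 * v - u - 2 * x) = phi x u v := by
  revert x u v; decide

theorem phi_rho_even (x u v : ZMod 4) (huv : u + v = 0 ∨ u + v = 2) :
    phi (-x) v u = - phi x u v := by
  revert x u v; decide

theorem phi_rho_odd (x u v : ZMod 4) (huv : u + v = 1 ∨ u + v = 3) :
    phi (-x) v u = phi x u v := by
  revert x u v; decide

theorem phi_sq (x u v : ZMod 4) (hx : x = 1 ∨ x = 3) : phi x u v = 1 ∨ phi x u v = -1 := by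
  revert x u v; decide

end Pool.Agent.Nu3
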