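import Pool.Agent.Nu3.SEven2

/-!
Divisor arithmetic for odd numbers that are not sums of two squares.
-/

namespace Pool.Agent.Nu3

open Finset

theorem odd_card_sq {x : ℕ} (hx : 0 < x) : (x ^ 2).divisors.card % 2 = 1 := by
  rw [Nat.card_divisors (by positivity)]
  rw [← Nat.odd_iff]
  refine Finset.prod_induction _ (fun k => Odd k) (fun a b ha hb => ha.mul hb) odd_one ?_
  intro p _
  rw [Nat.factorization_pow]
  simp only [Finsupp.coe_smul, Pi.smul_apply, smul_eq_mul]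
  exact ⟨x.factorization p, rfl⟩

/-- Structure of odd numbers which are not sums of two squares. -/
theorem struct_ns {m : ℕ} (hm : m % 2 = 1) (hs : ¬ ∃ x y : ℕ, m = x ^ 2 + y ^ 2) :
    ∃ q e w : ℕ, q.Prime ∧ q % 4 = 3 ∧ e % 2 = 1 ∧ ¬ q ∣ w ∧ m = q ^ e * w ∧ w % 2 = 1 := by
  rw [Nat.eq_sq_add_sq_iff] at hs
  push Not at hs
  obtain ⟨q, hq, hq4, ho⟩ := hs
  have hqp : q.Prime := Nat.prime_of_mem_primeFactors hq
  obtain ⟨e, w, hw, hmw⟩ := Nat.exists_eq_pow_mul_and_not_dvd (n := m) (by omega) q hqp.one_lt.ne'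
  refine ⟨q, e, w, hqp, hq4, ?_, hw, hmw, ?_⟩
  · have : padicValNat q m = e := by
      have := Fact.mk hqp
      have hw0 : w ≠ 0 := by rintro rfl; simp at hw
      rw [hmw, padicValNat.mul (pow_ne_zero _ hqp.ne_zero) hw0, padicValNat.prime_pow,
        padicValNat.eq_zero_of_not_dvd hw, add_zero]
    rw [this] at ho
    rw [Nat.even_iff] at ho
    omega
  · have : Odd (q ^ e * w) := by rw [← hmw]; exact Nat.odd_iff.mpr hm
    rw [Nat.odd_mul, Nat.odd_iff, Nat.odd_iff] at this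
    exact this.2

theorem sigma_pp {q : ℕ} (hq4 : q % 4 = 3) (j : ℕ) :
    ∃ k, ∑ i ∈ range (2 * j), q ^ i + 8 * k = j * (1 + q) ∨
      ∑ i ∈ range (2 * j), q ^ i = j * (1 + q) + 8 * k := by
  refine ⟨?_, Or.inr ?_⟩
  · exact ((∑ i ∈ range (2 * j), q ^ i) - j * (1 + q)) / 8
  · induction j with
    | zero => simp
    | succ j ih =>
      have h8 : ∃ l, q ^ (2 * j) = 8 * l + 1 := by
        have hq2 : q ^ 2 % 8 = 1 := by
          obtain ⟨t, ht⟩ : ∃ t, q = 4 * t + 3 := ⟨q / 4, by omega⟩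
          subst ht
          have : (4 * t + 3) ^ 2 = 8 * (2 * t ^ 2 + 3 * t + 1) + 1 := by ring
          omega
        have : q ^ (2 * j) % 8 = 1 := by
          rw [pow_mul, Nat.pow_mod, hq2]
          simp
        exact ⟨q ^ (2 * j) / 8, by omega⟩
      obtain ⟨l, hl⟩ := h8
      have e1 : ∑ i ∈ range (2 * (j + 1)), q ^ i = ∑ i ∈ range (2 * j), q ^ i +
          q ^ (2 * j) * (1 + q) := by
        rw [show 2 * (j + 1) = 2 * j + 1 + 1 from rfl, sum_range_succ, sum_range_succ]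
        ring
      have e2 : q ^ (2 * j) * (1 + q) = (1 + q) + 8 * (l * (1 + q)) := by rw [hl]; ring
      have e3 : (j + 1) * (1 + q) = j * (1 + q) + (1 + q) := by ring
      rw [e1, e2, e3]
      omega

theorem sigma_even_of_card_even {w : ℕ} (hw : w % 2 = 1) :
    (∑ d ∈ w.divisors, d) % 2 = w.divisors.card % 2 := by
  have h : ∀ d ∈ w.divisors, d % 2 = 1 := by
    intro d hd
    rw [Nat.mem_divisors] at hd
    obtain ⟨k, hk⟩ := hd.1
    have : Odd (d * k) := by rw [← hk]; exact Nat.odd_iff.mpr hw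
    rw [Nat.odd_mul, Nat.odd_iff, Nat.odd_iff] at this
    exact this.1
  rw [Finset.sum_nat_mod, Finset.sum_congr rfl h]
  simp

/-- `8 ∣ σ(m)`. -/
theorem sigma_eight {m : ℕ} (hm : m % 2 = 1) (hs : ¬ ∃ x y : ℕ, m = x ^ 2 + y ^ 2)
    (hd : 4 ∣ m.divisors.card) : 8 ∣ ∑ d ∈ m.divisors, d := by
  obtain ⟨q, e, w, hq, hq4, he, hw, hmw, hwo⟩ := struct_ns hm hs
  have hco : (q ^ e).Coprime w := Nat.Coprime.pow_left _ ((Nat.Prime.coprime_iff_not_dvd hq).mpr hw)
  rw [hmw] at hd ⊢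
  rw [hco.card_divisors_mul] at hd
  rw [hco.sum_divisors_mul]
  rw [Nat.divisors_prime_pow hq] at hd ⊢
  rw [card_map, card_range] at hd
  rw [sum_map]
  simp only [Function.Embedding.coeFn_mk]
  obtain ⟨j, hj⟩ : ∃ j, e + 1 = 2 * j := ⟨(e + 1) / 2, by omega⟩
  rw [hj] at hd ⊢
  obtain ⟨t, ht⟩ : ∃ t, q = 4 * t + 3 := ⟨q / 4, by omega⟩
  have hmain : 8 ∣ (∑ i ∈ range (2 * j), q ^ i) ∨
      (4 ∣ (∑ i ∈ range (2 * j), q ^ i) ∧ w.divisors.card % 2 = 0) := by
    obtain ⟨k, hk⟩ := sigma_pp hq4 j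
    have e1 : j * (1 + q) = 4 * (j * (t + 1)) := by rw [ht]; ring
    rcases Nat.even_or_odd' j with ⟨i, hi | hi⟩
    · left
      have e2 : 4 * (j * (t + 1)) = 8 * (i * (t + 1)) := by rw [hi]; ring
      omega
    · right
      refine ⟨by omega, ?_⟩
      by_contra hcon
      have hod : Odd w.divisors.card := Nat.odd_iff.mpr (by omega)
      obtain ⟨s, hs⟩ := hod
      have : 2 * j * w.divisors.card = 4 * (2 * i * s + i + s) + 2 := by
        rw [hi, hs]; ring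
      omega
  rcases hmain with h | ⟨h1, h2⟩
  · exact h.mul_right _
  · have h3 := sigma_even_of_card_even hwo
    have h4 : 2 ∣ ∑ d ∈ w.divisors, d := by omega
    exact Nat.mul_dvd_mul h1 h4

/-- if `m` is odd, not a sum of two squares and `4 ∤ d(m)` then `m ≡ 3 mod 4`. -/
theorem mod4_of {m : ℕ} (hm : m % 2 = 1) (hs : ¬ ∃ x y : ℕ, m = x ^ 2 + y ^ 2)
    (hd : ¬ 4 ∣ m.divisors.card) : m % 4 = 3 := by
  obtain ⟨q, e, w, hq, hq4, he, hw, hmw, hwo⟩ := struct_ns hm hs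
  have hco : (q ^ e).Coprime w := Nat.Coprime.pow_left _ ((Nat.Prime.coprime_iff_not_dvd hq).mpr hw)
  rw [hmw, hco.card_divisors_mul, Nat.divisors_prime_pow hq, card_map, card_range] at hd
  have hwsq : IsSquare w := by
    by_contra hcon
    have := even_card_divisors hcon
    apply hd
    have h2 : 2 ∣ e + 1 := by omega
    exact Nat.mul_dvd_mul h2 this
  obtain ⟨r, hr⟩ := hwsq
  have h1 : w % 4 = 1 := by
    rcases Nat.even_or_odd' r with ⟨i, hi | hi⟩
    · exfalso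
      have : w = 2 * (2 * i * i) := by rw [hr, hi]; ring
      omega
    · have : w = 4 * (i * i + i) + 1 := by rw [hr, hi]; ring
      omega
  have h2 : q ^ e % 4 = 3 := by
    obtain ⟨j, hj⟩ : ∃ j, e = 2 * j + 1 := ⟨e / 2, by omega⟩
    have hq2 : q ^ 2 % 4 = 1 := by
      obtain ⟨t, ht⟩ : ∃ t, q = 4 * t + 3 := ⟨q / 4, by omega⟩
      subst ht
      have : (4 * t + 3) ^ 2 = 4 * (4 * t ^ 2 + 6 * t + 2) + 1 := by ring
      omega
    have h3 : q ^ (2 * j) % 4 = 1 := by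
      rw [pow_mul, Nat.pow_mod, hq2]
      simp
    rw [hj, pow_succ, Nat.mul_mod, h3, hq4]
  rw [hmw, Nat.mul_mod, h1, h2]

theorem two_m {m : ℕ} (hm : m % 2 = 1) :
    (2 * m).divisors.card = 2 * m.divisors.card ∧
    ∑ d ∈ (2 * m).divisors, d = 3 * ∑ d ∈ m.divisors, d := by
  have hco : Nat.Coprime 2 m := by
    rw [Nat.coprime_two_left, Nat.odd_iff]; exact hm
  have h2 : Nat.divisors 2 = {1, 2} := by decide
  rw [hco.card_divisors_mul, hco.sum_divisors_mul, h2]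
  simp

end Pool.Agent.Nu3
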