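import Pool.Agent.Nu3.Nu2a

/-!
`ν₂` modulo 4.
-/

namespace Pool.Agent.Nu3

open Finset

/-- quadruples `(a,i,b,j)` of positive integers with `a i + b j = n`. -/
def X2 (n : ℕ) : Finset (ℕ × ℕ × ℕ × ℕ) :=
  ((Icc 1 n) ×ˢ (Icc 1 n) ×ˢ (Icc 1 n) ×ˢ (Icc 1 n)).filter
    (fun e => e.1 * e.2.1 + e.2.2.1 * e.2.2.2 = n)

theorem mem_X2 {n a i b j : ℕ} :
    (a, i, b, j) ∈ X2 n ↔ 0 < a ∧ 0 < i ∧ 0 < b ∧ 0 < j ∧ a * i + b * j = n := by
  unfold X2
  simp only [mem_filter, mem_product, mem_Icc]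
  constructor
  · rintro ⟨⟨⟨h1, _⟩, ⟨h2, _⟩, ⟨h3, _⟩, ⟨h4, _⟩⟩, h⟩
    exact ⟨h1, h2, h3, h4, h⟩
  · rintro ⟨h1, h2, h3, h4, h⟩
    have a1 : a ≤ a * i := Nat.le_mul_of_pos_right a h2
    have a2 : i ≤ a * i := Nat.le_mul_of_pos_left i h1
    have a3 : b ≤ b * j := Nat.le_mul_of_pos_right b h4
    have a4 : j ≤ b * j := Nat.le_mul_of_pos_left j h3
    exact ⟨⟨⟨h1, by omega⟩, ⟨h2, by omega⟩, ⟨h3, by omega⟩, ⟨h4, by omega⟩⟩, h⟩

theorem card_X2 (n : ℕ) :
    (X2 n).card = ∑ k ∈ Ioo 0 n, k.divisors.card * (n - k).divisors.card := by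
  rw [card_eq_sum_card_fiberwise (f := fun e : ℕ × ℕ × ℕ × ℕ => e.1 * e.2.1) (t := Ioo 0 n)]
  · refine sum_congr rfl ?_
    intro k hk
    rw [mem_Ioo] at hk
    rw [← card_product]
    refine card_nbij' (fun e => (e.1, e.2.2.1)) (fun e => (e.1, k / e.1, e.2, (n - k) / e.2))
      ?_ ?_ ?_ ?_
    · rintro ⟨a, i, b, j⟩ he
      simp only [coe_filter, Set.mem_ofPred_eq, mem_X2, coe_product, Set.mem_prod, mem_coe,
        Nat.mem_divisors] at he ⊢
      obtain ⟨⟨h1, h2, h3, h4, h5⟩, h6⟩ := he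
      exact ⟨⟨⟨i, h6.symm⟩, by omega⟩, ⟨⟨j, by omega⟩, by omega⟩⟩
    · rintro ⟨a, b⟩ he
      simp only [coe_filter, Set.mem_ofPred_eq, mem_X2, coe_product, Set.mem_prod, mem_coe,
        Nat.mem_divisors] at he ⊢
      obtain ⟨⟨⟨i, hi⟩, h1⟩, ⟨⟨j, hj⟩, h2⟩⟩ := he
      have ha : 0 < a := Nat.pos_of_ne_zero (by rintro rfl; simp at hi; omega)
      have hb : 0 < b := Nat.pos_of_ne_zero (by rintro rfl; simp at hj; omega)
      have hi0 : 0 < i := Nat.pos_of_ne_zero (by rintro rfl; simp at hi; omega)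
      have hj0 : 0 < j := Nat.pos_of_ne_zero (by rintro rfl; simp at hj; omega)
      have e1 : k / a = i := by rw [hi, Nat.mul_div_cancel_left _ ha]
      have e2 : (n - k) / b = j := by rw [hj, Nat.mul_div_cancel_left _ hb]
      rw [e1, e2]
      exact ⟨⟨ha, hi0, hb, hj0, by omega⟩, hi.symm⟩
    · rintro ⟨a, i, b, j⟩ he
      simp only [coe_filter, Set.mem_ofPred_eq, mem_X2] at he
      obtain ⟨⟨h1, h2, h3, h4, h5⟩, h6⟩ := he
      have e1 : n - k = b * j := by omega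
      simp only
      rw [e1, ← h6, Nat.mul_div_cancel_left _ h1, Nat.mul_div_cancel_left _ h3]
    · rintro ⟨a, b⟩ he
      simp
  · rintro ⟨a, i, b, j⟩ he
    simp only [mem_coe, mem_X2, coe_Ioo, Set.mem_Ioo] at he ⊢
    obtain ⟨h1, h2, h3, h4, h5⟩ := he
    have : 0 < a * i := by positivity
    have : 0 < b * j := by positivity
    exact ⟨by omega, by omega⟩

/-- quadruples with `a > b`. -/
def X2gt (n : ℕ) : Finset (ℕ × ℕ × ℕ × ℕ) := (X2 n).filter (fun e => e.2.2.1 < e.1)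

theorem card_X2_eq {n : ℕ} (hn : 0 < n) :
    ((X2 n).filter (fun e => e.1 = e.2.2.1)).card + n.divisors.card = ∑ d ∈ n.divisors, d := by
  have h1 : ((X2 n).filter (fun e => e.1 = e.2.2.1)).card =
      ∑ a ∈ n.divisors, (n / a - 1) := by
    rw [card_eq_sum_card_fiberwise (f := fun e : ℕ × ℕ × ℕ × ℕ => e.1) (t := n.divisors)]
    · refine sum_congr rfl ?_
      intro a ha
      rw [Nat.mem_divisors] at ha
      obtain ⟨⟨k, hk⟩, h0⟩ := ha
      have ha0 : 0 < a := Nat.pos_of_ne_zero (by rintro rfl; simp at hk; omega)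
      have hk0 : 0 < k := Nat.pos_of_ne_zero (by rintro rfl; simp at hk; omega)
      rw [hk, Nat.mul_div_cancel_left _ ha0]
      have : k - 1 = (Ioo 0 k).card := by simp
      rw [this]
      refine card_nbij' (fun e => e.2.1) (fun i => (a, i, a, k - i)) ?_ ?_ ?_ ?_
      · rintro ⟨a', i, b, j⟩ he
        simp only [coe_filter, Set.mem_ofPred_eq, mem_X2, mem_filter, coe_Ioo, Set.mem_Ioo] at he ⊢
        obtain ⟨⟨⟨h1, h2, h3, h4, h5⟩, h6⟩, h7⟩ := he
        subst h6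
        subst h7
        have : a' * (i + j) = a' * k := by rw [← h5]; ring
        have := Nat.eq_of_mul_eq_mul_left h1 this
        omega
      · intro i hi
        simp only [coe_filter, Set.mem_ofPred_eq, mem_X2, mem_filter, coe_Ioo, Set.mem_Ioo] at hi ⊢
        refine ⟨⟨⟨ha0, hi.1, ha0, by omega, ?_⟩, trivial⟩, trivial⟩
        rw [← Nat.mul_add]
        congr 1
        omega
      · rintro ⟨a', i, b, j⟩ he
        simp only [coe_filter, Set.mem_ofPred_eq, mem_X2, mem_filter] at he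
        obtain ⟨⟨⟨h1, h2, h3, h4, h5⟩, h6⟩, h7⟩ := he
        subst h6
        subst h7
        have : a' * (i + j) = a' * k := by rw [← h5]; ring
        have := Nat.eq_of_mul_eq_mul_left h1 this
        simp only [Prod.mk.injEq]
        exact ⟨trivial, trivial, trivial, by omega⟩
      · intro i hi
        simp
    · rintro ⟨a, i, b, j⟩ he
      simp only [coe_filter, Set.mem_ofPred_eq, mem_X2, mem_coe, Nat.mem_divisors] at he ⊢
      obtain ⟨⟨h1, h2, h3, h4, h5⟩, h6⟩ := he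
      subst h6
      exact ⟨⟨i + j, by rw [← h5]; ring⟩, by omega⟩
  have h2 : ∑ a ∈ n.divisors, (n / a - 1) + n.divisors.card = ∑ a ∈ n.divisors, n / a := by
    rw [card_eq_sum_ones, ← sum_add_distrib]
    refine sum_congr rfl ?_
    intro a ha
    rw [Nat.mem_divisors] at ha
    obtain ⟨⟨k, hk⟩, h0⟩ := ha
    have ha0 : 0 < a := Nat.pos_of_ne_zero (by rintro rfl; simp at hk; omega)
    have hk0 : 0 < k := Nat.pos_of_ne_zero (by rintro rfl; simp at hk; omega)
    rw [hk, Nat.mul_div_cancel_left _ ha0]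
    omega
  rw [h1, h2]
  exact Nat.sum_div_divisors n (fun d => d)

theorem X2_split {n : ℕ} (hn : 0 < n) :
    (X2 n).card + n.divisors.card = 2 * (X2gt n).card + ∑ d ∈ n.divisors, d := by
  have h1 : ((X2 n).filter (fun _ => True)).card =
      ((X2 n).filter (fun e => e.1 = e.2.2.1)).card +
      ((X2 n).filter (fun e => e.1 ≠ e.2.2.1)).card := by
    refine card_filter_split _ _ _ _ ?_ ?_
    · rintro ⟨a, i, b, j⟩ _
      simp only; tauto
    · rintro ⟨a, i, b, j⟩ _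
      simp only; tauto
  have h2 : ((X2 n).filter (fun e => e.1 ≠ e.2.2.1)).card =
      ((X2 n).filter (fun e => e.2.2.1 < e.1)).card +
      ((X2 n).filter (fun e => e.1 < e.2.2.1)).card := by
    refine card_filter_split _ _ _ _ ?_ ?_
    · rintro ⟨a, i, b, j⟩ _
      simp only; omega
    · rintro ⟨a, i, b, j⟩ _
      simp only; omega
  have h3 : ((X2 n).filter (fun e => e.1 < e.2.2.1)).card =
      ((X2 n).filter (fun e => e.2.2.1 < e.1)).card := by
    refine card_reflect _ _ (fun e => (e.2.2.1, e.2.2.2, e.1, e.2.1)) ?_ ?_ ?_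
    · rintro ⟨a, i, b, j⟩ he
      simp only [mem_filter, mem_X2] at he ⊢
      obtain ⟨⟨h1, h2, h3, h4, h5⟩, h6⟩ := he
      exact ⟨⟨h3, h4, h1, h2, by omega⟩, h6⟩
    · rintro ⟨a, i, b, j⟩ he
      simp only [mem_filter, mem_X2] at he ⊢
      obtain ⟨⟨h1, h2, h3, h4, h5⟩, h6⟩ := he
      exact ⟨⟨h3, h4, h1, h2, by omega⟩, h6⟩
    · rintro ⟨a, i, b, j⟩
      rfl
  have h4 := card_X2_eq hn
  rw [filter_true_of_mem (by intro _ _; trivial)] at h1
  unfold X2gt
  omega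

theorem Sall_sum {n : ℕ} (hs : ∀ x y : ℤ, x ^ 2 + y ^ 2 ≠ (n : ℤ)) :
    ∑ k ∈ (Ioo 0 n).filter (fun k => IsSquare k), (n - k).divisors.card = 2 * Sall (n : ℤ) := by
  have h1 : ((Th (n : ℤ)).filter (fun e => 0 < e.1)).card =
      ∑ k ∈ (Ioo 0 n).filter (fun k => IsSquare k), (n - k).divisors.card := by
    rw [card_eq_sum_card_fiberwise (f := fun e : ℤ × ℤ × ℤ => (e.1 ^ 2).toNat)
      (t := (Ioo 0 n).filter (fun k => IsSquare k))]
    · refine sum_congr rfl ?_
      intro k hk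
      rw [mem_filter, mem_Ioo] at hk
      obtain ⟨⟨hk1, hk2⟩, ⟨r, hr⟩⟩ := hk
      have hr0 : 0 < r := Nat.pos_of_ne_zero (by rintro rfl; omega)
      refine card_nbij' (fun e => e.2.1.toNat)
        (fun w => ((r : ℤ), (w : ℤ), (((n - k) / w : ℕ) : ℤ))) ?_ ?_ ?_ ?_
      · rintro ⟨z, a, b⟩ he
        simp only [coe_filter, Set.mem_ofPred_eq, mem_filter, mem_Th, mem_coe,
          Nat.mem_divisors] at he ⊢
        obtain ⟨⟨⟨ha, hb, h⟩, h1⟩, h2⟩ := he
        obtain ⟨z, rfl⟩ : ∃ w : ℕ, z = w := ⟨z.toNat, by omega⟩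
        obtain ⟨a, rfl⟩ : ∃ w : ℕ, a = w := ⟨a.toNat, by omega⟩
        obtain ⟨b, rfl⟩ : ∃ w : ℕ, b = w := ⟨b.toNat, by omega⟩
        have h3 : z ^ 2 + a * b = n := by exact_mod_cast h
        have h4 : z ^ 2 = k := by
          have : ((z : ℤ) ^ 2).toNat = z ^ 2 := by
            rw [← Nat.cast_pow, Int.toNat_natCast]
          omega
        rw [Int.toNat_natCast]
        exact ⟨⟨b, by omega⟩, by omega⟩
      · intro w hw
        simp only [coe_filter, Set.mem_ofPred_eq, mem_filter, mem_Th, mem_coe,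
          Nat.mem_divisors] at hw ⊢
        obtain ⟨⟨v, hv⟩, h1⟩ := hw
        have hw0 : 0 < w := Nat.pos_of_ne_zero (by rintro rfl; simp at hv; omega)
        have hv0 : 0 < v := Nat.pos_of_ne_zero (by rintro rfl; simp at hv; omega)
        rw [hv, Nat.mul_div_cancel_left _ hw0]
        refine ⟨⟨⟨by omega, by omega, ?_⟩, by omega⟩, ?_⟩
        · have : r ^ 2 + w * v = n := by rw [← hv, pow_two, ← hr]; omega
          exact_mod_cast this
        · rw [← Nat.cast_pow, Int.toNat_natCast, hr, pow_two]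
      · rintro ⟨z, a, b⟩ he
        simp only [coe_filter, Set.mem_ofPred_eq, mem_filter, mem_Th] at he
        obtain ⟨⟨⟨ha, hb, h⟩, h1⟩, h2⟩ := he
        obtain ⟨z, rfl⟩ : ∃ w : ℕ, z = w := ⟨z.toNat, by omega⟩
        obtain ⟨a, rfl⟩ : ∃ w : ℕ, a = w := ⟨a.toNat, by omega⟩
        obtain ⟨b, rfl⟩ : ∃ w : ℕ, b = w := ⟨b.toNat, by omega⟩
        have h3 : z ^ 2 + a * b = n := by exact_mod_cast h
        have h4 : z ^ 2 = k := by
          have : ((z : ℤ) ^ 2).toNat = z ^ 2 := by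
            rw [← Nat.cast_pow, Int.toNat_natCast]
          omega
        have h5 : n - k = a * b := by omega
        have h6 : r = z := by
          have : r ^ 2 = z ^ 2 := by rw [h4, hr]; ring
          exact Nat.pow_left_injective (n := 2) (by norm_num) this
        simp only [Prod.mk.injEq, Int.toNat_natCast, h5, h6]
        rw [Nat.mul_div_cancel_left _ (by omega)]
        exact ⟨trivial, trivial, rfl⟩
      · intro w hw
        simp
    · rintro ⟨z, a, b⟩ he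
      simp only [coe_filter, Set.mem_ofPred_eq, mem_Th, mem_Ioo] at he ⊢
      obtain ⟨⟨ha, hb, h⟩, h1⟩ := he
      obtain ⟨z, rfl⟩ : ∃ w : ℕ, z = w := ⟨z.toNat, by omega⟩
      obtain ⟨a, rfl⟩ : ∃ w : ℕ, a = w := ⟨a.toNat, by omega⟩
      obtain ⟨b, rfl⟩ : ∃ w : ℕ, b = w := ⟨b.toNat, by omega⟩
      have h3 : z ^ 2 + a * b = n := by exact_mod_cast h
      rw [← Nat.cast_pow, Int.toNat_natCast]
      have h4 : 0 < a * b := by
        have : 0 < a := by omega
        have : 0 < b := by omega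
        positivity
      have h5 : 0 < z ^ 2 := by
        have : 0 < z := by omega
        positivity
      exact ⟨⟨h5, by omega⟩, ⟨z, by ring⟩⟩
  have h2 : ((Th (n : ℤ)).filter (fun e => 0 < e.1)).card =
      ((Th (n : ℤ)).filter (fun e => 0 < e.1 ∧ e.2.1 < e.2.2)).card +
      ((Th (n : ℤ)).filter (fun e => 0 < e.1 ∧ e.2.2 < e.2.1)).card := by
    refine card_filter_split _ _ _ _ ?_ ?_
    · rintro ⟨z, a, b⟩ he
      rw [mem_Th] at he
      obtain ⟨ha, hb, h⟩ := he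
      have : a ≠ b := by
        rintro rfl
        exact hs z a (by rw [← h]; ring)
      simp only
      omega
    · rintro ⟨z, a, b⟩ he
      simp only
      omega
  have h3 : ((Th (n : ℤ)).filter (fun e => 0 < e.1 ∧ e.2.2 < e.2.1)).card =
      ((Th (n : ℤ)).filter (fun e => 0 < e.1 ∧ e.2.1 < e.2.2)).card := by
    refine card_reflect _ _ (fun e => (e.1, e.2.2, e.2.1)) ?_ ?_ ?_
    · rintro ⟨z, a, b⟩ he
      simp only [mem_filter, mem_Th] at he ⊢
      obtain ⟨⟨ha, hb, h⟩, h1, h2⟩ := he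
      exact ⟨⟨hb, ha, by rw [← h]; ring⟩, h1, h2⟩
    · rintro ⟨z, a, b⟩ he
      simp only [mem_filter, mem_Th] at he ⊢
      obtain ⟨⟨ha, hb, h⟩, h1, h2⟩ := he
      exact ⟨⟨hb, ha, by rw [← h]; ring⟩, h1, h2⟩
    · rintro ⟨z, a, b⟩
      rfl
  rw [← h1, h2, h3]
  unfold Sall
  ring

end Pool.Agent.Nu3
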