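import Pool.Agent.Nu3.Nu2b

/-!
`4 ∣ ν₂(2m)`.
-/

namespace Pool.Agent.Nu3

open Finset

theorem ns_two {m : ℕ} (hs : ¬ ∃ x y : ℕ, m = x ^ 2 + y ^ 2) (x y : ℤ) :
    x ^ 2 + y ^ 2 ≠ 2 * (m : ℤ) := by
  intro h
  have hpar : (2 : ℤ) ∣ x + y := by
    have h1 : (2 : ℤ) ∣ (x + y) ^ 2 := ⟨m + x * y, by linear_combination h⟩
    exact Int.prime_two.dvd_of_dvd_pow h1
  obtain ⟨s, hs'⟩ := hpar
  have hx : x = 2 * s - y := by linarith
  subst hx
  apply hs
  refine ⟨s.natAbs, (s - y).natAbs, ?_⟩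
  have : (m : ℤ) = s ^ 2 + (s - y) ^ 2 := by linarith
  zify
  rw [sq_abs, sq_abs]
  exact this

theorem conv_mod {n : ℕ} (hs : ∀ x y : ℤ, x ^ 2 + y ^ 2 ≠ (n : ℤ))
    (hmid : ∀ k, n - k = k → 8 ∣ k.divisors.card * (n - k).divisors.card) :
    ((∑ k ∈ Ioo 0 n, k.divisors.card * (n - k).divisors.card : ℕ) : ZMod 8) =
      ((2 * ∑ k ∈ (Ioo 0 n).filter (fun k => IsSquare k), (n - k).divisors.card : ℕ) : ZMod 8) := by
  have h8 : (8 : ZMod 8) = 0 := by decide
  have nb : ∀ k ∈ Ioo 0 n, IsSquare k → ¬ IsSquare (n - k) := by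
    rintro k hk ⟨r, hr⟩ ⟨s, hs'⟩
    rw [mem_Ioo] at hk
    apply hs r s
    have : n = r * r + s * s := by omega
    rw [this]
    push_cast
    ring
  set F : ℕ → ZMod 8 := fun k => ((k.divisors.card * (n - k).divisors.card : ℕ) : ZMod 8) with hF
  set G : ℕ → ZMod 8 := fun k => if IsSquare k then F k else 0 with hG
  set H : ℕ → ZMod 8 := fun k => if (IsSquare k ∨ IsSquare (n - k)) then 0 else F k with hH
  have e1 : ∀ k ∈ Ioo 0 n, F k = G k + G (n - k) + H k := by
    intro k hk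
    have h1 := nb k hk
    rw [mem_Ioo] at hk
    have h2 : F (n - k) = F k := by
      simp only [hF]
      rw [show n - (n - k) = k by omega, mul_comm]
    by_cases ha : IsSquare k
    · have hb := h1 ha
      simp [hG, hH, ha, hb]
    · by_cases hb : IsSquare (n - k)
      · simp [hG, hH, ha, hb, h2]
      · simp [hG, hH, ha, hb]
  have e2 : ∑ k ∈ Ioo 0 n, G (n - k) = ∑ k ∈ Ioo 0 n, G k := by
    refine sum_nbij' (fun k => n - k) (fun k => n - k) ?_ ?_ ?_ ?_ ?_
    · intro k hk
      rw [mem_Ioo] at hk ⊢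
      omega
    · intro k hk
      rw [mem_Ioo] at hk ⊢
      omega
    · intro k hk
      rw [mem_Ioo] at hk
      omega
    · intro k hk
      rw [mem_Ioo] at hk
      omega
    · intro k hk
      rfl
  have e3 : ∑ k ∈ Ioo 0 n, H k = 0 := by
    refine Finset.sum_involution (fun k _ => n - k) ?_ ?_ ?_ ?_
    · intro k hk
      rw [mem_Ioo] at hk
      have hkk : n - (n - k) = k := by omega
      by_cases ha : IsSquare k
      · simp [hH, ha, hkk]
      · by_cases hb : IsSquare (n - k)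
        · simp [hH, hb]
        · have h1 : H k = F k := by simp [hH, ha, hb]
          have h2 : H (n - k) = F k := by
            simp only [hH, hkk, ha, hb, or_self, if_false, hF]
            rw [mul_comm]
          rw [h1, h2]
          obtain ⟨s, hs1⟩ := even_card_divisors ha
          obtain ⟨t, ht1⟩ := even_card_divisors hb
          simp only [hF, hs1, ht1]
          push_cast
          linear_combination (s : ZMod 8) * t * h8
    · intro k hk hne heq
      apply hne
      have := hmid k heq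
      obtain ⟨s, hs1⟩ := this
      have h1 : F k = 0 := by
        simp only [hF]
        rw [hs1]
        push_cast
        rw [h8, zero_mul]
      simp only [hH]
      split_ifs
      · rfl
      · exact h1
    · intro k hk
      rw [mem_Ioo] at hk ⊢
      omega
    · intro k hk
      rw [mem_Ioo] at hk
      omega
  have e4 : ∑ k ∈ Ioo 0 n, G k = ∑ k ∈ (Ioo 0 n).filter (fun k => IsSquare k), F k := by
    rw [sum_filter]
  have e5 : 2 * ∑ k ∈ (Ioo 0 n).filter (fun k => IsSquare k), F k =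
      2 * ∑ k ∈ (Ioo 0 n).filter (fun k => IsSquare k), ((n - k).divisors.card : ZMod 8) := by
    rw [mul_sum, mul_sum]
    refine sum_congr rfl ?_
    intro k hk
    rw [mem_filter] at hk
    have hb := nb k hk.1 hk.2
    obtain ⟨r, hr⟩ := hk.2
    rw [mem_Ioo] at hk
    have hr0 : 0 < r := Nat.pos_of_ne_zero (by rintro rfl; omega)
    have h1 := odd_card_sq hr0
    rw [pow_two, ← hr] at h1
    obtain ⟨s, hs1⟩ : ∃ s, k.divisors.card = 2 * s + 1 := ⟨k.divisors.card / 2, by omega⟩
    obtain ⟨t, ht1⟩ := even_card_divisors hb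
    simp only [hF, hs1, ht1]
    push_cast
    linear_combination (s : ZMod 8) * t * h8
  have e6 : ((∑ k ∈ Ioo 0 n, k.divisors.card * (n - k).divisors.card : ℕ) : ZMod 8) =
      ∑ k ∈ Ioo 0 n, F k := by
    rw [Nat.cast_sum]
  rw [e6, sum_congr rfl e1, sum_add_distrib, sum_add_distrib, e2, e3, e4, add_zero, ← two_mul, e5]
  push_cast
  rfl

/-- `4 ∣ ν₂(2m)`. -/
theorem nu2_four {m : ℕ} (hm : m % 2 = 1) (hs : ¬ ∃ x y : ℕ, m = x ^ 2 + y ^ 2)
    (hd : 4 ∣ m.divisors.card) : 4 ∣ (X2gt (2 * m)).card := by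
  have hs2 := ns_two hs
  have h1 := X2_split (n := 2 * m) (by omega)
  obtain ⟨h2, h3⟩ := two_m hm
  obtain ⟨t, ht⟩ := sigma_eight hm hs hd
  have h4 := conv_mod (n := 2 * m) (by intro x y; push_cast; exact hs2 x y) (by
    intro k hk
    have hkm : k = m := by omega
    have hkm2 : 2 * m - k = m := by omega
    rw [hkm2, hkm]
    have : 4 * 4 ∣ m.divisors.card * m.divisors.card := Nat.mul_dvd_mul hd hd
    exact Dvd.dvd.trans (by norm_num) this)
  rw [← card_X2, Sall_sum (by intro x y; push_cast; exact hs2 x y)] at h4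
  obtain ⟨s, hs3⟩ := Sall_even hm hs2 hd
  have h5 : (X2 (2 * m)).card % 8 = 0 := by
    rw [ZMod.natCast_eq_natCast_iff'] at h4
    rw [h4]
    push_cast
    rw [hs3]
    omega
  obtain ⟨d, hd'⟩ := hd
  omega

end Pool.Agent.Nu3
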