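import Pool.Agent.Nu3.Family

/-!
The odd members of the family.
-/

namespace Pool.Agent.Nu3

open Finset

/-- `p` divides `N` exactly once. -/
def ExD (p N : ℕ) : Prop := p ∣ N ∧ ¬ p ^ 2 ∣ N

theorem ExD.mul {p N w : ℕ} (hp : p.Prime) (h : ExD p N) (hw : ¬ p ∣ w) : ExD p (N * w) := by
  refine ⟨h.1.mul_right w, ?_⟩
  intro h2
  have hc : (p ^ 2).Coprime w := Nat.Coprime.pow_left _ ((Nat.Prime.coprime_iff_not_dvd hp).mpr hw)
  exact h.2 (hc.dvd_of_dvd_mul_right h2)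

theorem ExD.not_sq {p N : ℕ} (hp : p.Prime) (h : ExD p N) : ¬ IsSquare N := by
  rintro ⟨k, rfl⟩
  have : p ∣ k := by
    rcases (Nat.Prime.dvd_mul hp).mp h.1 with h | h <;> exact h
  obtain ⟨l, rfl⟩ := this
  exact h.2 ⟨l * l, by ring⟩

theorem ExD.int {p N : ℕ} (h : ExD p N) : (p : ℤ) ∣ N ∧ ¬ ((p : ℤ) ^ 2 ∣ N) := by
  refine ⟨by exact_mod_cast h.1, ?_⟩
  intro h2
  exact h.2 (by exact_mod_cast h2)

theorem nsq_int {N : ℕ} (h : ¬ IsSquare N) : ¬ IsSquare (N : ℤ) := by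
  rintro ⟨k, hk⟩
  apply h
  exact ⟨k.natAbs, by zify; rw [hk]; simp⟩

theorem sum_xv {N : ℕ} (hodd : N % 2 = 1) (f : ℤ × ℤ × ℤ → ℤ) :
    ∑ e ∈ (Om (N : ℤ)).filter (fun e => e.1 = e.2.2), f e =
      ∑ d ∈ N.divisors, (if d * d < N then f ((d : ℤ), (((N / d : ℕ) : ℤ) - d) / 2, (d : ℤ))
        else 0) := by
  rw [← sum_filter]
  refine sum_nbij' (fun e => e.2.2.toNat)
    (fun d => ((d : ℤ), (((N / d : ℕ) : ℤ) - d) / 2, (d : ℤ))) ?_ ?_ ?_ ?_ ?_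
  · rintro ⟨x, u, v⟩ he
    simp only [mem_filter, mem_Om] at he
    obtain ⟨⟨hu, hv, h⟩, h1⟩ := he
    subst h1
    obtain ⟨d, rfl⟩ : ∃ d : ℕ, x = d := ⟨x.toNat, by omega⟩
    have h3 : (d : ℤ) * (d + 2 * u) = N := by rw [← h]; ring
    simp only [Int.toNat_natCast, mem_filter, Nat.mem_divisors]
    refine ⟨⟨?_, by omega⟩, ?_⟩
    · have : (d : ℤ) ∣ N := ⟨_, h3.symm⟩
      exact_mod_cast this
    · have : (d : ℤ) * d < N := by nlinarith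
      exact_mod_cast this
  · intro d hd
    simp only [mem_filter, Nat.mem_divisors, mem_Om] at hd ⊢
    obtain ⟨⟨⟨k, hk⟩, h1⟩, h2⟩ := hd
    have hd0 : 0 < d := Nat.pos_of_ne_zero (by rintro rfl; simp at hk; omega)
    rw [hk, Nat.mul_div_cancel_left _ hd0]
    have hdk : d < k := by
      rw [hk] at h2
      exact lt_of_mul_lt_mul_left h2 (Nat.zero_le d)
    have hpar : d % 2 = 1 ∧ k % 2 = 1 := by
      rw [hk] at hodd
      have := Nat.odd_mul.mp (Nat.odd_iff.mpr hodd)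
      exact ⟨Nat.odd_iff.mp this.1, Nat.odd_iff.mp this.2⟩
    obtain ⟨t, ht⟩ : ∃ t : ℕ, k = d + 2 * t := ⟨(k - d) / 2, by omega⟩
    subst ht
    have e1 : (((d + 2 * t : ℕ) : ℤ) - d) / 2 = t := by omega
    rw [e1]
    refine ⟨⟨by omega, by omega, ?_⟩, trivial⟩
    push_cast
    ring
  · rintro ⟨x, u, v⟩ he
    simp only [mem_filter, mem_Om] at he
    obtain ⟨⟨hu, hv, h⟩, h1⟩ := he
    subst h1
    obtain ⟨d, rfl⟩ : ∃ d : ℕ, x = d := ⟨x.toNat, by omega⟩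
    obtain ⟨t, rfl⟩ : ∃ t : ℕ, u = t := ⟨u.toNat, by omega⟩
    have h3 : (d : ℤ) * (d + 2 * t) = N := by rw [← h]; ring
    have h3' : d * (d + 2 * t) = N := by exact_mod_cast h3
    have hd0 : 0 < d := by omega
    simp only [Int.toNat_natCast, Prod.mk.injEq]
    rw [← h3', Nat.mul_div_cancel_left _ hd0]
    refine ⟨trivial, by push_cast; omega, trivial⟩
  · intro d hd
    simp
  · rintro ⟨x, u, v⟩ he
    simp only [mem_filter, mem_Om] at he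
    obtain ⟨⟨hu, hv, h⟩, h1⟩ := he
    subst h1
    obtain ⟨d, rfl⟩ : ∃ d : ℕ, x = d := ⟨x.toNat, by omega⟩
    obtain ⟨t, rfl⟩ : ∃ t : ℕ, u = t := ⟨u.toNat, by omega⟩
    have h3 : (d : ℤ) * (d + 2 * t) = N := by rw [← h]; ring
    have h3' : d * (d + 2 * t) = N := by exact_mod_cast h3
    have hd0 : 0 < d := by omega
    simp only [Int.toNat_natCast]
    rw [← h3', Nat.mul_div_cancel_left _ hd0]
    have e1 : (((d + 2 * t : ℕ) : ℤ) - d) / 2 = t := by push_cast; omega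
    rw [e1]

theorem cast_eq_of_dvd {n : ℕ} {a b : ℤ} {m : ℤ} (hn : (n : ℤ) ∣ m) (h : m ∣ a - b) :
    (a : ZMod n) = (b : ZMod n) := by
  rw [← sub_eq_zero, ← Int.cast_sub, ZMod.intCast_zmod_eq_zero_iff_dvd]
  exact hn.trans h

theorem lam_congr {p q : ℕ} [Fact p.Prime] [Fact q.Prime] {x u v x' u' v' : ℤ}
    (hx : (4 * p * q : ℤ) ∣ x - x') (hu : (4 * p * q : ℤ) ∣ u - u')
    (hv : (4 * p * q : ℤ) ∣ v - v') : lam p q (x, u, v) = lam p q (x', u', v') := by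
  have d4 : ((4 : ℕ) : ℤ) ∣ (4 * p * q : ℤ) := ⟨p * q, by push_cast; ring⟩
  have dp : ((p : ℕ) : ℤ) ∣ (4 * p * q : ℤ) := ⟨4 * q, by push_cast; ring⟩
  have dq : ((q : ℕ) : ℤ) ∣ (4 * p * q : ℤ) := ⟨4 * p, by push_cast; ring⟩
  unfold lam
  simp only
  rw [cast_eq_of_dvd d4 hx, cast_eq_of_dvd d4 hu, cast_eq_of_dvd d4 hv,
    cast_eq_of_dvd dp hu, cast_eq_of_dvd dp hv, cast_eq_of_dvd dq hu, cast_eq_of_dvd dq hv]
  have h2 : (2 : ℤ) ∣ u + v ↔ (2 : ℤ) ∣ u' + v' := by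
    have a1 := (show (2 : ℤ) ∣ 4 * p * q from ⟨2 * p * q, by ring⟩).trans hu
    have a2 := (show (2 : ℤ) ∣ 4 * p * q from ⟨2 * p * q, by ring⟩).trans hv
    omega
  simp only [h2]

theorem lam_sq' {N : ℤ} (hodd : N % 2 = 1) {p q : ℕ} [Fact p.Prime] [Fact q.Prime]
    (hp8 : p % 8 = 3) (hq8 : q % 8 = 5)
    (hp : (p : ℤ) ∣ N) (hp2 : ¬ ((p : ℤ) ^ 2 ∣ N)) (hq : (q : ℤ) ∣ N) (hq2 : ¬ ((q : ℤ) ^ 2 ∣ N))
    {x u v : ℤ} (h : x ^ 2 + 2 * u * v = N) : lam p q (x, u, v) = 1 ∨ lam p q (x, u, v) = -1 := by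
  have hx := odd_x hodd h
  have h1 := phi_sq x u v (cast4 x hx)
  have h2 := sF_sq (ringChar_ne_two (p := p) (by omega)) (loc_ne hp hp2 h)
  have h3 := sF_sq (ringChar_ne_two (p := q) (by omega)) (loc_ne hq hq2 h)
  unfold lam
  simp only
  split_ifs with h4
  · rcases h1 with h1 | h1 <;> rcases h3 with h3 | h3 <;> simp [h1, h3]
  · rcases h1 with h1 | h1 <;> rcases h2 with h2 | h2 <;> simp [h1, h2]

/-- The sign attached to a divisor of `N1`. -/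
noncomputable def gg (p q N1 : ℕ) [Fact p.Prime] [Fact q.Prime] (d : ℕ) : ℤ :=
  lam p q ((d : ℤ), (((N1 / d : ℕ) : ℤ) - d) / 2, (d : ℤ))

theorem one_mod_pow {m : ℤ} {l : ℕ} (h : m ∣ (l : ℤ) - 1) (a : ℕ) : m ∣ ((l ^ a : ℕ) : ℤ) - 1 := by
  push_cast
  have h2 : (l : ℤ) - 1 ∣ (l : ℤ) ^ a - 1 := by
    simpa using sub_dvd_pow_sub_pow (l : ℤ) 1 a
  exact h.trans h2

theorem one_mod_mul {m : ℤ} {x y : ℤ} (hx : m ∣ x - 1) (hy : m ∣ y - 1) : m ∣ x * y - 1 := by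
  have : x * y - 1 = (x - 1) * y + (y - 1) := by ring
  rw [this]
  exact dvd_add (hx.mul_right y) hy

structure Fam (p q N1 l1 l2 : ℕ) : Prop where
  hp : p.Prime
  hq : q.Prime
  hp8 : p % 8 = 3
  hq8 : q % 8 = 5
  hN1 : N1 % 2 = 1
  hpN : ExD p N1
  hqN : ExD q N1
  h1 : l1.Prime
  h2 : l2.Prime
  hne : l1 ≠ l2
  hl1 : (8 * p * q : ℤ) ∣ (l1 : ℤ) - 1
  hl2 : (8 * p * q : ℤ) ∣ (l2 : ℤ) - 1
  hl1N : N1 < l1
  hl2N : N1 < l2

namespace Fam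

variable {p q N1 l1 l2 : ℕ} (F : Fam p q N1 l1 l2)
include F

theorem N1pos : 0 < N1 := by have := F.hN1; omega

theorem n1 : ¬ l1 ∣ N1 := fun h => by
  have := Nat.le_of_dvd F.N1pos h
  have := F.hl1N
  omega

theorem n2 : ¬ l2 ∣ N1 := fun h => by
  have := Nat.le_of_dvd F.N1pos h
  have := F.hl2N
  omega

theorem w_mod (a b : ℕ) : (8 * p * q : ℤ) ∣ ((l1 ^ a * l2 ^ b : ℕ) : ℤ) - 1 := by
  have := one_mod_mul (one_mod_pow F.hl1 a) (one_mod_pow F.hl2 b)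
  push_cast at this ⊢
  exact this

theorem w_odd (a b : ℕ) : (l1 ^ a * l2 ^ b) % 2 = 1 := by
  have h := F.w_mod a b
  have h2 : (2 : ℤ) ∣ ((l1 ^ a * l2 ^ b : ℕ) : ℤ) - 1 :=
    (show (2 : ℤ) ∣ 8 * p * q from ⟨4 * p * q, by ring⟩).trans h
  omega

theorem w_not (r : ℕ) (hr : r = p ∨ r = q) (a b : ℕ) : ¬ r ∣ (l1 ^ a * l2 ^ b) := by
  intro h
  have h1 : (r : ℤ) ∣ ((l1 ^ a * l2 ^ b : ℕ) : ℤ) - 1 := by
    refine Dvd.dvd.trans ?_ (F.w_mod a b)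
    rcases hr with rfl | rfl
    · exact ⟨8 * q, by ring⟩
    · exact ⟨8 * p, by ring⟩
  have h2 : (r : ℤ) ∣ ((l1 ^ a * l2 ^ b : ℕ) : ℤ) := by exact_mod_cast h
  have h3 : (r : ℤ) ∣ 1 := by
    have := dvd_sub h2 h1
    simpa using this
  have h4 : r = 1 := by
    have := Int.natAbs_dvd_natAbs.mpr h3
    simpa using this
  rcases hr with rfl | rfl
  · exact F.hp.one_lt.ne' h4
  · exact F.hq.one_lt.ne' h4

theorem exp (a b : ℕ) : ExD p (N1 * (l1 ^ a * l2 ^ b)) :=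
  F.hpN.mul F.hp (F.w_not p (Or.inl rfl) a b)

theorem exq (a b : ℕ) : ExD q (N1 * (l1 ^ a * l2 ^ b)) :=
  F.hqN.mul F.hq (F.w_not q (Or.inr rfl) a b)

theorem odd (a b : ℕ) : (N1 * (l1 ^ a * l2 ^ b)) % 2 = 1 := by
  rw [Nat.mul_mod, F.hN1, F.w_odd a b]

theorem gg_const [Fact p.Prime] [Fact q.Prime] (i j : ℕ) {d : ℕ} (hd : d ∈ N1.divisors) {a b : ℕ}
    (ha : a ≤ i) (hb : b ≤ j) :
    gg p q (N1 * (l1 ^ i * l2 ^ j)) (d * (l1 ^ a * l2 ^ b)) = gg p q N1 d := by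
  rw [Nat.mem_divisors] at hd
  obtain ⟨⟨e, he⟩, _⟩ := hd
  have hd0 : 0 < d := Nat.pos_of_ne_zero (by rintro rfl; simp at he; have := F.N1pos; omega)
  have l1p := F.h1.pos
  have l2p := F.h2.pos
  have e1 : N1 / d = e := by rw [he, Nat.mul_div_cancel_left _ hd0]
  have e2 : N1 * (l1 ^ i * l2 ^ j) / (d * (l1 ^ a * l2 ^ b)) = e * (l1 ^ (i - a) * l2 ^ (j - b)) := by
    have : N1 * (l1 ^ i * l2 ^ j) = (d * (l1 ^ a * l2 ^ b)) * (e * (l1 ^ (i - a) * l2 ^ (j - b))) := by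
      have p1 : l1 ^ i = l1 ^ a * l1 ^ (i - a) := by rw [← pow_add]; congr 1; omega
      have p2 : l2 ^ j = l2 ^ b * l2 ^ (j - b) := by rw [← pow_add]; congr 1; omega
      rw [p1, p2, he]; ring
    rw [this, Nat.mul_div_cancel_left _ (by positivity)]
  unfold gg
  rw [e1, e2]
  have hw := F.w_mod a b
  have hw' := F.w_mod (i - a) (j - b)
  have hdd : (8 * p * q : ℤ) ∣ ((d * (l1 ^ a * l2 ^ b) : ℕ) : ℤ) - d := by
    have : ((d * (l1 ^ a * l2 ^ b) : ℕ) : ℤ) - d = d * (((l1 ^ a * l2 ^ b : ℕ) : ℤ) - 1) := by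
      push_cast; ring
    rw [this]
    exact hw.mul_left _
  have hee : (8 * p * q : ℤ) ∣ ((e * (l1 ^ (i - a) * l2 ^ (j - b)) : ℕ) : ℤ) - e := by
    have : ((e * (l1 ^ (i - a) * l2 ^ (j - b)) : ℕ) : ℤ) - e =
        e * (((l1 ^ (i - a) * l2 ^ (j - b) : ℕ) : ℤ) - 1) := by
      push_cast; ring
    rw [this]
    exact hw'.mul_left _
  have hodd : d % 2 = 1 ∧ e % 2 = 1 := by
    have h := F.hN1
    rw [he] at h
    have := Nat.odd_mul.mp (Nat.odd_iff.mpr h)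
    exact ⟨Nat.odd_iff.mp this.1, Nat.odd_iff.mp this.2⟩
  have d48 : (4 * p * q : ℤ) ∣ 8 * p * q := ⟨2, by ring⟩
  refine lam_congr (d48.trans hdd) ?_ (d48.trans hdd)
  set X : ℤ := ((d * (l1 ^ a * l2 ^ b) : ℕ) : ℤ) with hX
  set Y : ℤ := ((e * (l1 ^ (i - a) * l2 ^ (j - b)) : ℕ) : ℤ) with hY
  obtain ⟨k, hk⟩ := hdd
  obtain ⟨m, hm⟩ := hee
  have hX' : X = d + 2 * (4 * p * q * k) := by linarith
  have hY' : Y = e + 2 * (4 * p * q * m) := by linarith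
  refine ⟨m - k, ?_⟩
  have : (4 * p * q : ℤ) * (m - k) = 4 * p * q * m - 4 * p * q * k := by ring
  rw [this, hX', hY']
  omega

theorem rel0 [Fact p.Prime] [Fact q.Prime] (i j : ℕ) :
    (4 : ℤ) ∣ 2 * (C ((N1 * (l1 ^ i * l2 ^ j) : ℕ) : ℤ) : ℤ) +
      ∑ d ∈ N1.divisors, gg p q N1 d * Asum (hh l1 l2 ((d : ℝ) ^ 2) N1) i j := by
  have hodd := F.odd i j
  have hx := F.exp i j
  have hy := F.exq i j
  have h := two_C_mod (N := ((N1 * (l1 ^ i * l2 ^ j) : ℕ) : ℤ)) (by omega)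
    (nsq_int (hx.not_sq F.hp)) F.hp8 F.hq8 hx.int.1 hx.int.2 hy.int.1 hy.int.2
  rw [sum_xv hodd] at h
  have h2 := sum_thresh F.h1 F.h2 F.hne F.n1 F.n2 i j N1
    (fun d => gg p q (N1 * (l1 ^ i * l2 ^ j)) d) (gg p q N1)
    (fun d hd a ha b hb => F.gg_const i j hd ha hb)
  rw [← h2]
  exact h

end Fam

end Pool.Agent.Nu3
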