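import Pool.Agent.Nu3.Lam

/-!
The parity of `C N` for odd `N` having a prime `3 mod 8` and a prime `5 mod 8` exactly dividing it.
-/

namespace Pool.Agent.Nu3

open Finset

/-- The full sign. -/
noncomputable def lam (p q : ℕ) [Fact p.Prime] [Fact q.Prime] (e : ℤ × ℤ × ℤ) : ℤ :=
  phi (e.1 : ZMod 4) (e.2.1 : ZMod 4) (e.2.2 : ZMod 4) *
    (if (2 : ℤ) ∣ e.2.1 + e.2.2 then sF (e.2.1 : ZMod q) (e.2.2 : ZMod q)
      else sF (e.2.1 : ZMod p) (e.2.2 : ZMod p))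

theorem ringChar_ne_two {p : ℕ} [Fact p.Prime] (h : p % 2 = 1) : ringChar (ZMod p) ≠ 2 := by
  rw [ZMod.ringChar_zmod_n]
  omega

theorem chi2_3 {p : ℕ} [Fact p.Prime] (h : p % 8 = 3) :
    quadraticChar (ZMod p) 2 = -1 ∧ quadraticChar (ZMod p) (-2) = 1 := by
  have h2 : ringChar (ZMod p) ≠ 2 := ringChar_ne_two (by omega)
  rw [quadraticChar_two h2, quadraticChar_neg_two h2, ZMod.card]
  rw [← ZMod.natCast_mod p 8, h]
  decide

theorem chi2_5 {p : ℕ} [Fact p.Prime] (h : p % 8 = 5) :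
    quadraticChar (ZMod p) 2 = -1 ∧ quadraticChar (ZMod p) (-2) = -1 := by
  have h2 : ringChar (ZMod p) ≠ 2 := ringChar_ne_two (by omega)
  rw [quadraticChar_two h2, quadraticChar_neg_two h2, ZMod.card]
  rw [← ZMod.natCast_mod p 8, h]
  decide

theorem loc_eq {N x u v : ℤ} {p : ℕ} (hp : (p : ℤ) ∣ N) (h : x ^ 2 + 2 * u * v = N) :
    (x : ZMod p) ^ 2 + 2 * (u : ZMod p) * (v : ZMod p) = 0 := by
  have : ((x ^ 2 + 2 * u * v : ℤ) : ZMod p) = 0 := by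
    rw [h, ZMod.intCast_zmod_eq_zero_iff_dvd]
    exact hp
  push_cast at this
  exact this

theorem loc_ne {N x u v : ℤ} {p : ℕ} [hpp : Fact p.Prime] (hp : (p : ℤ) ∣ N)
    (hp2 : ¬ ((p : ℤ) ^ 2 ∣ N)) (h : x ^ 2 + 2 * u * v = N) :
    (u : ZMod p) ≠ 0 ∨ (v : ZMod p) ≠ 0 := by
  by_contra hc
  push Not at hc
  obtain ⟨hu, hv⟩ := hc
  rw [ZMod.intCast_zmod_eq_zero_iff_dvd] at hu hv
  have hx : (p : ℤ) ∣ x := by
    have h1 : (p : ℤ) ∣ x ^ 2 := by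
      have : x ^ 2 = N - 2 * u * v := by linarith
      rw [this]
      exact dvd_sub hp (Dvd.dvd.mul_left hv _)
    exact (Nat.prime_iff_prime_int.mp hpp.out).dvd_of_dvd_pow h1
  apply hp2
  rw [← h]
  obtain ⟨a, rfl⟩ := hu
  obtain ⟨b, rfl⟩ := hv
  obtain ⟨c, rfl⟩ := hx
  exact ⟨c ^ 2 + 2 * a * b, by ring⟩

theorem cast4 (x : ℤ) (hx : x % 2 = 1) : (x : ZMod 4) = 1 ∨ (x : ZMod 4) = 3 := by
  have h : x % 4 = 1 ∨ x % 4 = 3 := by omega
  rcases h with h | h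
  · left
    have : ((x : ℤ) : ZMod 4) = ((1 : ℤ) : ZMod 4) := by
      rw [ZMod.intCast_eq_intCast_iff_dvd_sub]
      push_cast
      omega
    simpa using this
  · right
    have : ((x : ℤ) : ZMod 4) = ((3 : ℤ) : ZMod 4) := by
      rw [ZMod.intCast_eq_intCast_iff_dvd_sub]
      push_cast
      omega
    simpa using this

theorem cast4_even (x : ℤ) (hx : (2 : ℤ) ∣ x) : (x : ZMod 4) = 0 ∨ (x : ZMod 4) = 2 := by
  have h : x % 4 = 0 ∨ x % 4 = 2 := by omega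
  rcases h with h | h
  · left
    have : ((x : ℤ) : ZMod 4) = ((0 : ℤ) : ZMod 4) := by
      rw [ZMod.intCast_eq_intCast_iff_dvd_sub]
      push_cast
      omega
    simpa using this
  · right
    have : ((x : ℤ) : ZMod 4) = ((2 : ℤ) : ZMod 4) := by
      rw [ZMod.intCast_eq_intCast_iff_dvd_sub]
      push_cast
      omega
    simpa using this

theorem odd_x {N x u v : ℤ} (hN : N % 2 = 1) (h : x ^ 2 + 2 * u * v = N) : x % 2 = 1 := by
  rcases Int.emod_two_eq_zero_or_one x with h0 | h0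
  · exfalso
    obtain ⟨k, hk⟩ : (2 : ℤ) ∣ x := by omega
    rw [hk] at h
    have : N = 2 * (2 * k ^ 2 + u * v) := by rw [← h]; ring
    omega
  · exact h0

theorem lam_sq {N : ℤ} (hodd : N % 2 = 1) {p q : ℕ} [Fact p.Prime] [Fact q.Prime]
    (hp8 : p % 8 = 3) (hq8 : q % 8 = 5)
    (hp : (p : ℤ) ∣ N) (hp2 : ¬ ((p : ℤ) ^ 2 ∣ N)) (hq : (q : ℤ) ∣ N) (hq2 : ¬ ((q : ℤ) ^ 2 ∣ N))
    {x u v : ℤ} (he : (x, u, v) ∈ Om N) : lam p q (x, u, v) = 1 ∨ lam p q (x, u, v) = -1 := by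
  rw [mem_Om] at he
  obtain ⟨hu, hv, h⟩ := he
  have hx := odd_x hodd h
  have h1 := phi_sq x u v (cast4 x hx)
  have h2 := sF_sq (ringChar_ne_two (p := p) (by omega)) (loc_ne hp hp2 h)
  have h3 := sF_sq (ringChar_ne_two (p := q) (by omega)) (loc_ne hq hq2 h)
  unfold lam
  simp only
  split_ifs with h4
  · rcases h1 with h1 | h1 <;> rcases h3 with h3 | h3 <;> simp [h1, h3]
  · rcases h1 with h1 | h1 <;> rcases h2 with h2 | h2 <;> simp [h1, h2]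

theorem lam_identity {N : ℤ} (hodd : N % 2 = 1) (hN : ¬ IsSquare N) {p q : ℕ}
    [Fact p.Prime] [Fact q.Prime] (hp8 : p % 8 = 3) (hq8 : q % 8 = 5)
    (hp : (p : ℤ) ∣ N) (hp2 : ¬ ((p : ℤ) ^ 2 ∣ N)) (hq : (q : ℤ) ∣ N) (hq2 : ¬ ((q : ℤ) ^ 2 ∣ N)) :
    2 * ∑ e ∈ (Om N).filter (fun e => e.2.2 < e.1), lam p q e =
      - ∑ e ∈ (Om N).filter (fun e => e.1 = e.2.2), lam p q e := by
  have rp := ringChar_ne_two (p := p) (by omega)
  have rq := ringChar_ne_two (p := q) (by omega)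
  obtain ⟨c3, c3'⟩ := chi2_3 hp8
  obtain ⟨c5, c5'⟩ := chi2_5 hq8
  refine twisted hN (lam p q) ?_ ?_ ?_ ?_
  · intro x u v he
    unfold lam
    simp only
    push_cast
    rw [phi_neg]
    ring
  · intro x u v he
    rw [mem_Om] at he
    obtain ⟨hu, hv, h⟩ := he
    unfold lam
    simp only
    have hs : (v + u : ℤ) = u + v := by ring
    rw [hs]
    push_cast
    split_ifs with h4
    · have h5 : (u : ZMod 4) + (v : ZMod 4) = 0 ∨ (u : ZMod 4) + (v : ZMod 4) = 2 := by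
        have := cast4_even _ h4
        push_cast at this
        exact this
      rw [phi_rho_even _ _ _ h5, sF_swap rq (loc_eq hq h) (loc_ne hq hq2 h), c5']
      ring
    · have h5 : (u : ZMod 4) + (v : ZMod 4) = 1 ∨ (u : ZMod 4) + (v : ZMod 4) = 3 := by
        have := cast4 (u + v) (by omega)
        push_cast at this
        exact this
      rw [phi_rho_odd _ _ _ h5, sF_swap rp (loc_eq hp h) (loc_ne hp hp2 h), c3']
      ring
  · intro x u v he _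
    rw [mem_Om] at he
    obtain ⟨hu, hv, h⟩ := he
    have hx := odd_x hodd h
    unfold lam
    simp only
    have hs : (2 : ℤ) ∣ (u + 2 * x - 2 * v) + v ↔ (2 : ℤ) ∣ u + v := by omega
    simp only [hs]
    push_cast
    rw [phi_tau2 _ _ _ (cast4 x hx), sF_tau2 rq (loc_eq hq h), sF_tau2 rp (loc_eq hp h)]
  · intro x u v he _ _
    rw [mem_Om] at he
    obtain ⟨hu, hv, h⟩ := he
    have hx := odd_x hodd h
    unfold lam
    simp only
    have hs : (2 : ℤ) ∣ (2 * u + 2 * x - v) + (2 * v - u - 2 * x) ↔ (2 : ℤ) ∣ u + v := by omega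
    simp only [hs]
    push_cast
    rw [phi_tau3 _ _ _ (cast4 x hx), sF_tau3 rq (loc_eq hq h) (loc_ne hq hq2 h),
      sF_tau3 rp (loc_eq hp h) (loc_ne hp hp2 h), c3, c5]
    split_ifs <;> ring

theorem two_dvd_sum_sub_card {α : Type*} (s : Finset α) (f : α → ℤ)
    (hf : ∀ a ∈ s, f a = 1 ∨ f a = -1) : (2 : ℤ) ∣ ∑ a ∈ s, f a - (s.card : ℤ) := by
  have : ∑ a ∈ s, f a - (s.card : ℤ) = ∑ a ∈ s, (f a - 1) := by
    rw [sum_sub_distrib]
    simp
  rw [this]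
  refine dvd_sum ?_
  intro a ha
  rcases hf a ha with h | h <;> rw [h] <;> norm_num

theorem two_C_mod {N : ℤ} (hodd : N % 2 = 1) (hN : ¬ IsSquare N) {p q : ℕ}
    [Fact p.Prime] [Fact q.Prime] (hp8 : p % 8 = 3) (hq8 : q % 8 = 5)
    (hp : (p : ℤ) ∣ N) (hp2 : ¬ ((p : ℤ) ^ 2 ∣ N)) (hq : (q : ℤ) ∣ N) (hq2 : ¬ ((q : ℤ) ^ 2 ∣ N)) :
    (4 : ℤ) ∣ 2 * (C N : ℤ) + ∑ e ∈ (Om N).filter (fun e => e.1 = e.2.2), lam p q e := by
  have h1 := lam_identity hodd hN hp8 hq8 hp hp2 hq hq2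
  have h2 : (2 : ℤ) ∣ ∑ e ∈ (Om N).filter (fun e => e.2.2 < e.1), lam p q e - (C N : ℤ) := by
    refine two_dvd_sum_sub_card _ _ ?_
    rintro ⟨x, u, v⟩ he
    rw [mem_filter] at he
    exact lam_sq hodd hp8 hq8 hp hp2 hq hq2 he.1
  obtain ⟨k, hk⟩ := h2
  have h3 : ∑ e ∈ (Om N).filter (fun e => e.1 = e.2.2), lam p q e =
    - (2 * ∑ e ∈ (Om N).filter (fun e => e.2.2 < e.1), lam p q e) := by rw [h1]; ring
  rw [h3]
  refine ⟨-k, ?_⟩
  linear_combination (-2) * hk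

end Pool.Agent.Nu3
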