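import Pool.Agent.Nu3.Nu2c

/-!
Partitions with two or three part sizes.
-/

namespace Pool.Agent.Nu3

open Finset

/-- `nu k n` is the number of partitions of `n` in which exactly `k` distinct part sizes occur. -/
def nu (k n : ℕ) : ℕ :=
  (Finset.univ.filter (fun p : n.Partition => p.parts.toFinset.card = k)).card

theorem nu2_eq (n : ℕ) : nu 2 n = (X2gt n).card := by
  symm
  unfold nu X2gt
  refine Finset.card_bij
    (fun e he => (⟨Multiset.replicate e.2.1 e.1 + Multiset.replicate e.2.2.2 e.2.2.1, ?_, ?_⟩ :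
      n.Partition)) ?_ ?_ ?_
  · obtain ⟨a, i, b, j⟩ := e
    simp only [mem_filter, mem_X2] at he
    obtain ⟨⟨h1, h2, h3, h4, h5⟩, h6⟩ := he
    intro x hx
    rw [Multiset.mem_add, Multiset.mem_replicate, Multiset.mem_replicate] at hx
    rcases hx with ⟨_, rfl⟩ | ⟨_, rfl⟩
    · exact h1
    · exact h3
  · obtain ⟨a, i, b, j⟩ := e
    simp only [mem_filter, mem_X2] at he
    obtain ⟨⟨h1, h2, h3, h4, h5⟩, h6⟩ := he
    rw [Multiset.sum_add, Multiset.sum_replicate, Multiset.sum_replicate]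
    simp only [smul_eq_mul]
    rw [← h5]
    ring
  · rintro ⟨a, i, b, j⟩ he
    simp only [mem_filter, mem_X2] at he
    obtain ⟨⟨h1, h2, h3, h4, h5⟩, h6⟩ := he
    rw [mem_filter]
    refine ⟨mem_univ _, ?_⟩
    have : (Multiset.replicate i a + Multiset.replicate j b).toFinset = {a, b} := by
      ext x
      simp only [Multiset.mem_toFinset, Multiset.mem_add, Multiset.mem_replicate, mem_insert,
        mem_singleton]
      omega
    simp only [this]
    rw [card_pair (by omega)]
  · rintro ⟨a, i, b, j⟩ he ⟨a', i', b', j'⟩ he' heq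
    simp only [mem_filter, mem_X2] at he he'
    obtain ⟨⟨h1, h2, h3, h4, h5⟩, h6⟩ := he
    obtain ⟨⟨h1', h2', h3', h4', h5'⟩, h6'⟩ := he'
    simp only [Nat.Partition.mk.injEq] at heq
    have hmem : ∀ x, (x = a ∨ x = b) ↔ (x = a' ∨ x = b') := by
      intro x
      have := congrArg (fun M => x ∈ M) heq
      simp only [Multiset.mem_add, Multiset.mem_replicate, eq_iff_iff] at this
      omega
    have ha := hmem a
    have hb := hmem b
    have ha' := hmem a'
    have hb' := hmem b'
    have e1 : a = a' := by omega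
    have e2 : b = b' := by omega
    subst e1
    subst e2
    have c1 := congrArg (fun M => Multiset.count a M) heq
    have c2 := congrArg (fun M => Multiset.count b M) heq
    have hne : b ≠ a := by omega
    simp only [Multiset.count_add, Multiset.count_replicate, if_true, hne, hne.symm, if_false,
      add_zero, zero_add] at c1 c2
    simp [c1, c2]
  · intro p hp
    rw [mem_filter] at hp
    obtain ⟨_, hp⟩ := hp
    rw [Finset.card_eq_two] at hp
    obtain ⟨x, y, hxy, hS⟩ := hp
    obtain ⟨a, b, hab, hS⟩ : ∃ a b, b < a ∧ p.parts.toFinset = {a, b} := by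
      rcases lt_or_gt_of_ne hxy with h | h
      · exact ⟨y, x, h, by rw [hS, pair_comm]⟩
      · exact ⟨x, y, h, hS⟩
    have hmem : ∀ x, x ∈ p.parts ↔ (x = a ∨ x = b) := by
      intro x
      rw [← Multiset.mem_toFinset, hS]
      simp
    have hapos : 0 < a := p.parts_pos ((hmem a).mpr (Or.inl rfl))
    have hbpos : 0 < b := p.parts_pos ((hmem b).mpr (Or.inr rfl))
    have hca : 0 < Multiset.count a p.parts :=
      Multiset.count_pos.mpr ((hmem a).mpr (Or.inl rfl))
    have hcb : 0 < Multiset.count b p.parts :=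
      Multiset.count_pos.mpr ((hmem b).mpr (Or.inr rfl))
    have hparts : Multiset.replicate (Multiset.count a p.parts) a +
        Multiset.replicate (Multiset.count b p.parts) b = p.parts := by
      ext x
      rw [Multiset.count_add, Multiset.count_replicate, Multiset.count_replicate]
      by_cases hx : x = a
      · subst hx
        have : b ≠ x := by omega
        simp [this]
      · by_cases hx' : x = b
        · subst hx'
          have : a ≠ x := by omega
          simp [this]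
        · have h1 : a ≠ x := fun h => hx h.symm
          have h2 : b ≠ x := fun h => hx' h.symm
          have : Multiset.count x p.parts = 0 := by
            rw [Multiset.count_eq_zero, hmem]
            rintro (h | h)
            · exact hx h
            · exact hx' h
          simp [h1, h2, this]
    refine ⟨(a, Multiset.count a p.parts, b, Multiset.count b p.parts), ?_, ?_⟩
    · rw [mem_filter, mem_X2]
      refine ⟨⟨hapos, hca, hbpos, hcb, ?_⟩, hab⟩
      have := congrArg Multiset.sum hparts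
      rw [p.parts_sum, Multiset.sum_add, Multiset.sum_replicate, Multiset.sum_replicate] at this
      simp only [smul_eq_mul] at this
      linarith
    · ext1
      exact hparts

/-- six-tuples -/
def X3 (n : ℕ) : Finset (ℕ × ℕ × ℕ × ℕ × ℕ × ℕ) :=
  ((Icc 1 n) ×ˢ (Icc 1 n) ×ˢ (Icc 1 n) ×ˢ (Icc 1 n) ×ˢ (Icc 1 n) ×ˢ (Icc 1 n)).filter
    (fun e => e.1 * (e.2.2.2.1 + e.2.2.2.2.1 + e.2.2.2.2.2) + e.2.1 * (e.2.2.2.1 + e.2.2.2.2.1) +
      e.2.2.1 * e.2.2.2.1 = n)

theorem mem_X3 {n m1 m2 m3 g1 g2 g3 : ℕ} :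
    (m1, m2, m3, g1, g2, g3) ∈ X3 n ↔ (0 < m1 ∧ 0 < m2 ∧ 0 < m3) ∧ (0 < g1 ∧ 0 < g2 ∧ 0 < g3) ∧
      m1 * (g1 + g2 + g3) + m2 * (g1 + g2) + m3 * g1 = n := by
  unfold X3
  simp only [mem_filter, mem_product, mem_Icc]
  constructor
  · rintro ⟨⟨⟨h1, _⟩, ⟨h2, _⟩, ⟨h3, _⟩, ⟨h4, _⟩, ⟨h5, _⟩, ⟨h6, _⟩⟩, h⟩
    exact ⟨⟨h1, h2, h3⟩, ⟨h4, h5, h6⟩, h⟩
  · rintro ⟨⟨h1, h2, h3⟩, ⟨h4, h5, h6⟩, h⟩
    have a1 : m1 ≤ m1 * (g1 + g2 + g3) := Nat.le_mul_of_pos_right m1 (by omega)
    have a2 : m2 ≤ m2 * (g1 + g2) := Nat.le_mul_of_pos_right m2 (by omega)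
    have a3 : m3 ≤ m3 * g1 := Nat.le_mul_of_pos_right m3 (by omega)
    have a4 : g1 + g2 + g3 ≤ m1 * (g1 + g2 + g3) := Nat.le_mul_of_pos_left _ h1
    exact ⟨⟨⟨h1, by omega⟩, ⟨h2, by omega⟩, ⟨h3, by omega⟩, ⟨h4, by omega⟩, ⟨h5, by omega⟩,
      ⟨h6, by omega⟩⟩, h⟩

theorem nu3_eq (n : ℕ) : nu 3 n = (X3 n).card := by
  symm
  unfold nu
  refine Finset.card_bij
    (fun e he => (⟨Multiset.replicate e.1 (e.2.2.2.1 + e.2.2.2.2.1 + e.2.2.2.2.2) +
      Multiset.replicate e.2.1 (e.2.2.2.1 + e.2.2.2.2.1) +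
      Multiset.replicate e.2.2.1 e.2.2.2.1, ?_, ?_⟩ : n.Partition)) ?_ ?_ ?_
  · obtain ⟨m1, m2, m3, g1, g2, g3⟩ := e
    simp only [mem_X3] at he
    obtain ⟨⟨h1, h2, h3⟩, ⟨h4, h5, h6⟩, h⟩ := he
    intro x hx
    rw [Multiset.mem_add, Multiset.mem_add, Multiset.mem_replicate, Multiset.mem_replicate,
      Multiset.mem_replicate] at hx
    simp only at hx
    omega
  · obtain ⟨m1, m2, m3, g1, g2, g3⟩ := e
    simp only [mem_X3] at he
    obtain ⟨⟨h1, h2, h3⟩, ⟨h4, h5, h6⟩, h⟩ := he
    rw [Multiset.sum_add, Multiset.sum_add, Multiset.sum_replicate, Multiset.sum_replicate,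
      Multiset.sum_replicate]
    simp only [smul_eq_mul]
    exact h
  · rintro ⟨m1, m2, m3, g1, g2, g3⟩ he
    simp only [mem_X3] at he
    obtain ⟨⟨h1, h2, h3⟩, ⟨h4, h5, h6⟩, h⟩ := he
    rw [mem_filter]
    refine ⟨mem_univ _, ?_⟩
    have : (Multiset.replicate m1 (g1 + g2 + g3) + Multiset.replicate m2 (g1 + g2) +
        Multiset.replicate m3 g1).toFinset = {g1 + g2 + g3, g1 + g2, g1} := by
      ext x
      simp only [Multiset.mem_toFinset, Multiset.mem_add, Multiset.mem_replicate, mem_insert,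
        mem_singleton]
      omega
    simp only [this]
    rw [card_eq_three]
    exact ⟨g1 + g2 + g3, g1 + g2, g1, by omega, by omega, by omega, rfl⟩
  · rintro ⟨m1, m2, m3, g1, g2, g3⟩ he ⟨m1', m2', m3', g1', g2', g3'⟩ he' heq
    simp only [mem_X3] at he he'
    obtain ⟨⟨h1, h2, h3⟩, ⟨h4, h5, h6⟩, h⟩ := he
    obtain ⟨⟨h1', h2', h3'⟩, ⟨h4', h5', h6'⟩, h'⟩ := he'
    simp only [Nat.Partition.mk.injEq] at heq
    have hmem : ∀ x, (x = g1 + g2 + g3 ∨ x = g1 + g2 ∨ x = g1) ↔
        (x = g1' + g2' + g3' ∨ x = g1' + g2' ∨ x = g1') := by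
      intro x
      have := congrArg (fun M => x ∈ M) heq
      simp only [Multiset.mem_add, Multiset.mem_replicate, eq_iff_iff] at this
      omega
    have ha := (hmem (g1 + g2 + g3)).mp (Or.inl rfl)
    have hb := (hmem (g1 + g2)).mp (Or.inr (Or.inl rfl))
    have hc := (hmem g1).mp (Or.inr (Or.inr rfl))
    have ha' := (hmem (g1' + g2' + g3')).mpr (Or.inl rfl)
    have hb' := (hmem (g1' + g2')).mpr (Or.inr (Or.inl rfl))
    have hc' := (hmem g1').mpr (Or.inr (Or.inr rfl))
    have e1 : g1 = g1' := by omega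
    have e2 : g1 + g2 + g3 = g1' + g2' + g3' := by omega
    have e3 : g1 + g2 = g1' + g2' := by omega
    obtain rfl := e1
    obtain rfl : g2 = g2' := by omega
    obtain rfl : g3 = g3' := by omega
    have c1 := congrArg (fun M => Multiset.count (g1 + g2 + g3) M) heq
    have c2 := congrArg (fun M => Multiset.count (g1 + g2) M) heq
    have c3 := congrArg (fun M => Multiset.count g1 M) heq
    have n1 : g1 + g2 + g3 ≠ g1 + g2 := by omega
    have n2 : g1 + g2 + g3 ≠ g1 := by omega
    have n3 : g1 + g2 ≠ g1 := by omega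
    simp only [Multiset.count_add, Multiset.count_replicate, if_true, n1, n2, n3, n1.symm,
      n2.symm, n3.symm, if_false, add_zero, zero_add] at c1 c2 c3
    simp [c1, c2, c3]
  · intro p hp
    rw [mem_filter] at hp
    obtain ⟨_, hp⟩ := hp
    rw [Finset.card_eq_three] at hp
    obtain ⟨x, y, z, hxy, hxz, hyz, hS⟩ := hp
    obtain ⟨a, b, c, hc0, hcb, hba, hmem⟩ : ∃ a b c, 0 < c ∧ c < b ∧ b < a ∧
        ∀ x, x ∈ p.parts ↔ (x = a ∨ x = b ∨ x = c) := by
      have hm0 : ∀ w, w ∈ p.parts ↔ (w = x ∨ w = y ∨ w = z) := by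
        intro w
        rw [← Multiset.mem_toFinset, hS]
        simp
      have hx0 : 0 < x := p.parts_pos ((hm0 x).mpr (Or.inl rfl))
      have hy0 : 0 < y := p.parts_pos ((hm0 y).mpr (Or.inr (Or.inl rfl)))
      have hz0 : 0 < z := p.parts_pos ((hm0 z).mpr (Or.inr (Or.inr rfl)))
      rcases lt_or_gt_of_ne hxy with h1 | h1 <;> rcases lt_or_gt_of_ne hxz with h2 | h2 <;>
        rcases lt_or_gt_of_ne hyz with h3 | h3
      · exact ⟨z, y, x, hx0, h1, h3, fun w => by rw [hm0]; omega⟩
      · exact ⟨y, z, x, hx0, h2, h3, fun w => by rw [hm0]; omega⟩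
      · omega
      · exact ⟨y, x, z, hz0, h2, h1, fun w => by rw [hm0]; omega⟩
      · exact ⟨z, x, y, hy0, h1, h2, fun w => by rw [hm0]; omega⟩
      · omega
      · exact ⟨x, z, y, hy0, h3, h2, fun w => by rw [hm0]; omega⟩
      · exact ⟨x, y, z, hz0, h3, h1, fun w => by rw [hm0]⟩
    have hca : 0 < Multiset.count a p.parts :=
      Multiset.count_pos.mpr ((hmem a).mpr (Or.inl rfl))
    have hcb' : 0 < Multiset.count b p.parts :=
      Multiset.count_pos.mpr ((hmem b).mpr (Or.inr (Or.inl rfl)))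
    have hcc : 0 < Multiset.count c p.parts :=
      Multiset.count_pos.mpr ((hmem c).mpr (Or.inr (Or.inr rfl)))
    have hparts : Multiset.replicate (Multiset.count a p.parts) a +
        Multiset.replicate (Multiset.count b p.parts) b +
        Multiset.replicate (Multiset.count c p.parts) c = p.parts := by
      ext w
      rw [Multiset.count_add, Multiset.count_add, Multiset.count_replicate,
        Multiset.count_replicate, Multiset.count_replicate]
      by_cases hx : w = a
      · subst hx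
        have n1 : b ≠ w := by omega
        have n2 : c ≠ w := by omega
        simp [n1, n2]
      · by_cases hx' : w = b
        · subst hx'
          have n1 : a ≠ w := by omega
          have n2 : c ≠ w := by omega
          simp [n1, n2]
        · by_cases hx'' : w = c
          · subst hx''
            have n1 : a ≠ w := by omega
            have n2 : b ≠ w := by omega
            simp [n1, n2]
          · have h1 : a ≠ w := fun h => hx h.symm
            have h2 : b ≠ w := fun h => hx' h.symm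
            have h3 : c ≠ w := fun h => hx'' h.symm
            have : Multiset.count w p.parts = 0 := by
              rw [Multiset.count_eq_zero, hmem]
              rintro (h | h | h)
              · exact hx h
              · exact hx' h
              · exact hx'' h
            simp [h1, h2, h3, this]
    refine ⟨(Multiset.count a p.parts, Multiset.count b p.parts, Multiset.count c p.parts,
      c, b - c, a - b), ?_, ?_⟩
    · rw [mem_X3]
      refine ⟨⟨hca, hcb', hcc⟩, ⟨by omega, by omega, by omega⟩, ?_⟩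
      have e1 : c + (b - c) + (a - b) = a := by omega
      have e2 : c + (b - c) = b := by omega
      rw [e1, e2]
      have := congrArg Multiset.sum hparts
      rw [p.parts_sum, Multiset.sum_add, Multiset.sum_add, Multiset.sum_replicate,
        Multiset.sum_replicate, Multiset.sum_replicate] at this
      simp only [smul_eq_mul] at this
      exact this
    · ext1
      have e1 : b + (a - b) = a := by omega
      have e2 : c + (b - c) = b := by omega
      simp only [e2, e1]
      exact hparts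

theorem nu3_C (n : ℕ) : nu 3 n % 2 = C (n : ℤ) % 2 := by
  rw [nu3_eq]
  have h1 : ((X3 n).filter (fun _ => True)).card =
      ((X3 n).filter (fun e => (e.2.2.2.1, e.2.2.2.2.1, e.2.2.2.2.2) =
        (e.1, e.2.1, e.2.2.1))).card +
      ((X3 n).filter (fun e => (e.2.2.2.1, e.2.2.2.2.1, e.2.2.2.2.2) ≠
        (e.1, e.2.1, e.2.2.1))).card := by
    refine card_filter_split _ _ _ _ ?_ ?_
    · rintro e _
      tauto
    · rintro e _
      tauto
  rw [filter_true_of_mem (by intro _ _; trivial)] at h1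
  have h2 : 2 ∣ ((X3 n).filter (fun e => (e.2.2.2.1, e.2.2.2.2.1, e.2.2.2.2.2) ≠
        (e.1, e.2.1, e.2.2.1))).card := by
    refine even_of_invol _ (fun e => (e.2.2.2.1, e.2.2.2.2.1, e.2.2.2.2.2, e.1, e.2.1, e.2.2.1))
      ?_ ?_ ?_
    · rintro ⟨m1, m2, m3, g1, g2, g3⟩ he
      rw [mem_filter, mem_X3] at he ⊢
      obtain ⟨⟨hm, hg, h⟩, hne⟩ := he
      exact ⟨⟨hg, hm, by rw [← h]; ring⟩, fun h => hne h.symm⟩
    · rintro ⟨m1, m2, m3, g1, g2, g3⟩ he
      rfl
    · rintro ⟨m1, m2, m3, g1, g2, g3⟩ he hcon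
      rw [mem_filter, mem_X3] at he
      simp only [Prod.mk.injEq] at hcon
      apply he.2
      simp only [Prod.mk.injEq]
      exact ⟨hcon.1, hcon.2.1, hcon.2.2.1⟩
  have h3 : ((X3 n).filter (fun e => (e.2.2.2.1, e.2.2.2.2.1, e.2.2.2.2.2) =
        (e.1, e.2.1, e.2.2.1))).card = C (n : ℤ) := by
    unfold C
    refine card_nbij' (fun e => ((e.1 : ℤ) + e.2.1, (e.2.2.1 : ℤ), (e.1 : ℤ)))
      (fun e => (e.2.2.toNat, (e.1 - e.2.2).toNat, e.2.1.toNat, e.2.2.toNat,
        (e.1 - e.2.2).toNat, e.2.1.toNat)) ?_ ?_ ?_ ?_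
    · rintro ⟨m1, m2, m3, g1, g2, g3⟩ he
      simp only [coe_filter, Set.mem_ofPred_eq, mem_X3, mem_Om, Prod.mk.injEq] at he ⊢
      obtain ⟨⟨⟨h1, h2, h3⟩, ⟨h4, h5, h6⟩, h⟩, ⟨rfl, rfl, rfl⟩⟩ := he
      refine ⟨⟨by omega, by omega, ?_⟩, by omega⟩
      rw [← h]
      push_cast
      ring
    · rintro ⟨x, u, v⟩ he
      simp only [coe_filter, Set.mem_ofPred_eq, mem_X3, mem_Om, Prod.mk.injEq] at he ⊢
      obtain ⟨⟨h1, h2, h⟩, h3⟩ := he
      obtain ⟨v, rfl⟩ : ∃ w : ℕ, v = w := ⟨v.toNat, by omega⟩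
      obtain ⟨u, rfl⟩ : ∃ w : ℕ, u = w := ⟨u.toNat, by omega⟩
      obtain ⟨y, rfl⟩ : ∃ w : ℕ, x = v + w := ⟨(x - v).toNat, by omega⟩
      have e1 : ((v : ℤ) + y - v).toNat = y := by omega
      rw [e1, Int.toNat_natCast, Int.toNat_natCast]
      refine ⟨⟨⟨by omega, by omega, by omega⟩, ⟨by omega, by omega, by omega⟩, ?_⟩,
        trivial, trivial, trivial⟩
      zify
      rw [← h]
      ring
    · rintro ⟨m1, m2, m3, g1, g2, g3⟩ he
      simp only [coe_filter, Set.mem_ofPred_eq, mem_X3, Prod.mk.injEq] at he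
      obtain ⟨⟨⟨h1, h2, h3⟩, ⟨h4, h5, h6⟩, h⟩, ⟨rfl, rfl, rfl⟩⟩ := he
      simp only [Prod.mk.injEq]
      omega
    · rintro ⟨x, u, v⟩ he
      simp only [coe_filter, Set.mem_ofPred_eq, mem_Om] at he
      obtain ⟨⟨h1, h2, h⟩, h3⟩ := he
      simp only [Prod.mk.injEq]
      omega
  omega

end Pool.Agent.Nu3
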