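import Pool.Agent.Nu3.Main2

/-!
Evenness of `S(2m) = #{x^2+uv=2m, u<v}` when `m` is odd, not a sum of two squares and `4 ∣ d(m)`.
-/

namespace Pool.Agent.Nu3

open Finset

/-- `S(n)`. -/
noncomputable def Sall (n : ℤ) : ℕ := ((Th n).filter (fun e => 0 < e.1 ∧ e.2.1 < e.2.2)).card

/-- `x^2+2u^2=N`, `x>0`. -/
noncomputable def Pall (N : ℤ) : ℕ :=
  ((Om N).filter (fun e => 0 < e.1 ∧ e.2.1 = e.2.2)).card
/-- `2s^2-x^2=N`, `x>0`. -/
noncomputable def Rall (N : ℤ) : ℕ :=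
  ((Om N).filter (fun e => e.2.2 = e.2.1 + 2 * e.1 ∧ 0 < e.1)).card

theorem parTh {m z a b : ℤ} (hm : m % 2 = 1) (h : z ^ 2 + a * b = 2 * m) (hz : ¬ (2 : ℤ) ∣ z) :
    a % 2 = 1 ∧ b % 2 = 1 ∧ (4 : ℤ) ∣ b - a := by
  obtain ⟨k, hk⟩ := sq_mod8 (x := z) (by omega)
  have hab : a * b % 4 = 1 := by omega
  have ha : a % 2 = 1 := by
    rcases Int.emod_two_eq_zero_or_one a with h0 | h0
    · exfalso
      obtain ⟨c, rfl⟩ : (2 : ℤ) ∣ a := by omega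
      have : 2 * c * b = 2 * (c * b) := by ring
      omega
    · exact h0
  have hb : b % 2 = 1 := by
    rcases Int.emod_two_eq_zero_or_one b with h0 | h0
    · exfalso
      obtain ⟨c, rfl⟩ : (2 : ℤ) ∣ b := by omega
      have : a * (2 * c) = 2 * (a * c) := by ring
      omega
    · exact h0
  refine ⟨ha, hb, ?_⟩
  obtain ⟨k, hk⟩ : ∃ k, a = 4 * k + 1 ∨ a = 4 * k + 3 := ⟨a / 4, by omega⟩
  obtain ⟨l, hl⟩ : ∃ l, b = 4 * l + 1 ∨ b = 4 * l + 3 := ⟨b / 4, by omega⟩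
  rcases hk with rfl | rfl <;> rcases hl with rfl | rfl
  · omega
  · exfalso
    have : (4 * k + 1) * (4 * l + 3) = 4 * (4 * k * l + 3 * k + l) + 3 := by ring
    omega
  · exfalso
    have : (4 * k + 3) * (4 * l + 1) = 4 * (4 * k * l + k + 3 * l) + 3 := by ring
    omega
  · omega

theorem parTh' {m z a b : ℤ} (hm : m % 2 = 1) (h : z ^ 2 + a * b = 2 * m) (hz : (2 : ℤ) ∣ z) :
    ¬ (2 : ℤ) ∣ b - a := by
  obtain ⟨k, rfl⟩ := hz
  have hab : a * b % 4 = 2 := by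
    have : (2 * k) ^ 2 = 4 * k ^ 2 := by ring
    omega
  intro hc
  rcases Int.emod_two_eq_zero_or_one a with h0 | h0
  · obtain ⟨c, rfl⟩ : (2 : ℤ) ∣ a := by omega
    obtain ⟨d, rfl⟩ : (2 : ℤ) ∣ b := by omega
    have : 2 * c * (2 * d) = 4 * (c * d) := by ring
    omega
  · obtain ⟨c, rfl⟩ : ∃ c, a = 2 * c + 1 := ⟨a / 2, by omega⟩
    obtain ⟨d, rfl⟩ : ∃ d, b = 2 * d + 1 := ⟨b / 2, by omega⟩
    have : (2 * c + 1) * (2 * d + 1) = 2 * (2 * c * d + c + d) + 1 := by ring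
    omega

theorem Sall_split {m : ℤ} (hm : m % 2 = 1) : Sall (2 * m) = Sne (2 * m) + So (2 * m) := by
  unfold Sall Sne So
  refine card_filter_split _ _ _ _ ?_ ?_
  · rintro ⟨z, a, b⟩ he
    rw [mem_Th] at he
    obtain ⟨ha, hb, h⟩ := he
    simp only
    constructor
    · rintro ⟨h1, h2⟩
      by_cases hz : (2 : ℤ) ∣ z
      · exact Or.inl ⟨h1, h2, parTh' hm h hz⟩
      · exact Or.inr ⟨h1, h2, hz⟩
    · rintro (h | h)
      · exact ⟨h.1, h.2.1⟩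
      · exact ⟨h.1, h.2.1⟩
  · rintro ⟨z, a, b⟩ he
    rw [mem_Th] at he
    obtain ⟨ha, hb, h⟩ := he
    simp only
    rintro ⟨⟨h1, h2, h3⟩, h4, h5, h6⟩
    have := parTh hm h h6
    omega

theorem Sne_Pall {m : ℤ} (hm : m % 2 = 1) : ∃ k : ℕ, Sne (2 * m) = Pall (2 * m) + 2 * k := by
  refine ⟨((Om (2 * m)).filter (fun e => 0 < e.1 ∧ e.2.1 < e.2.2)).card, ?_⟩
  rw [Sne_eq]
  have h1 : ((Th (2 * m)).filter (fun e => 0 < e.1 ∧ ¬ (2 : ℤ) ∣ e.2.1 ∧ (2 : ℤ) ∣ e.2.2)).card =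
      ((Om (2 * m)).filter (fun e => 0 < e.1)).card := by
    refine card_nbij' (fun e => (e.1, e.2.1, e.2.2 / 2)) (fun e => (e.1, e.2.1, 2 * e.2.2))
      ?_ ?_ ?_ ?_
    · rintro ⟨z, a, b⟩ he
      simp only [coe_filter, Set.mem_ofPred_eq, mem_Om, mem_Th] at he ⊢
      obtain ⟨⟨ha, hb, h⟩, h1, h2, h3⟩ := he
      obtain ⟨c, rfl⟩ := h3
      have e1 : 2 * c / 2 = c := by omega
      rw [e1]
      exact ⟨⟨ha, by omega, by rw [← h]; ring⟩, h1⟩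
    · rintro ⟨x, u, v⟩ he
      simp only [coe_filter, Set.mem_ofPred_eq, mem_Om, mem_Th] at he ⊢
      obtain ⟨⟨ha, hb, h⟩, h1⟩ := he
      have := par2 hm h
      exact ⟨⟨ha, by omega, by rw [← h]; ring⟩, h1, by omega, ⟨v, rfl⟩⟩
    · rintro ⟨z, a, b⟩ he
      simp only [coe_filter, Set.mem_ofPred_eq, mem_Th] at he
      obtain ⟨⟨ha, hb, h⟩, h1, h2, h3⟩ := he
      simp only [Prod.mk.injEq]
      exact ⟨trivial, trivial, by omega⟩
    · rintro ⟨x, u, v⟩ he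
      simp only [Prod.mk.injEq]
      exact ⟨trivial, trivial, by omega⟩
  have h2 : ((Om (2 * m)).filter (fun e => 0 < e.1)).card = Pall (2 * m) +
      ((Om (2 * m)).filter (fun e => 0 < e.1 ∧ e.2.1 ≠ e.2.2)).card := by
    unfold Pall
    refine card_filter_split _ _ _ _ ?_ ?_
    · rintro ⟨x, u, v⟩ _
      simp only; tauto
    · rintro ⟨x, u, v⟩ _
      simp only; tauto
  have h3 : ((Om (2 * m)).filter (fun e => 0 < e.1 ∧ e.2.1 ≠ e.2.2)).card =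
      ((Om (2 * m)).filter (fun e => 0 < e.1 ∧ e.2.1 < e.2.2)).card +
      ((Om (2 * m)).filter (fun e => 0 < e.1 ∧ e.2.2 < e.2.1)).card := by
    refine card_filter_split _ _ _ _ ?_ ?_
    · rintro ⟨x, u, v⟩ _
      simp only; omega
    · rintro ⟨x, u, v⟩ _
      simp only; omega
  have h4 : ((Om (2 * m)).filter (fun e => 0 < e.1 ∧ e.2.2 < e.2.1)).card =
      ((Om (2 * m)).filter (fun e => 0 < e.1 ∧ e.2.1 < e.2.2)).card := by
    refine card_reflect _ _ (fun e => (e.1, e.2.2, e.2.1)) ?_ ?_ ?_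
    · rintro ⟨x, u, v⟩ he
      simp only [mem_filter, mem_Om] at he ⊢
      obtain ⟨⟨hu, hv, h⟩, h1, h2⟩ := he
      exact ⟨⟨hv, hu, by rw [← h]; ring⟩, h1, h2⟩
    · rintro ⟨x, u, v⟩ he
      simp only [mem_filter, mem_Om] at he ⊢
      obtain ⟨⟨hu, hv, h⟩, h1, h2⟩ := he
      exact ⟨⟨hv, hu, by rw [← h]; ring⟩, h1, h2⟩
    · rintro ⟨x, u, v⟩
      simp
  omega

theorem So_CR {m : ℤ} (hm : m % 2 = 1) : ∃ k : ℕ,
    So (2 * m) = C (2 * m) + Rall (2 * m) + 2 * k := by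
  refine ⟨((Th (2 * m)).filter (fun e => 0 < e.1 ∧ e.2.1 < e.2.2 ∧ e.2.2 < e.2.1 + 2 * e.1 ∧
      ¬ (2 : ℤ) ∣ e.1 ∧ e.2.1 + e.2.2 < 2 * e.1)).card, ?_⟩
  have nsq := nsq2 hm
  have h1 : So (2 * m) = ((Th (2 * m)).filter (fun e => 0 < e.1 ∧ e.2.1 + 2 * e.1 < e.2.2 ∧
        ¬ (2 : ℤ) ∣ e.1)).card +
      ((Th (2 * m)).filter (fun e => 0 < e.1 ∧ e.2.1 < e.2.2 ∧ e.2.2 < e.2.1 + 2 * e.1 ∧
      ¬ (2 : ℤ) ∣ e.1)).card := by
    unfold So
    refine card_filter_split _ _ _ _ ?_ ?_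
    · rintro ⟨z, a, b⟩ he
      rw [mem_Th] at he
      obtain ⟨ha, hb, h⟩ := he
      simp only
      constructor
      · rintro ⟨h1, h2, h3⟩
        have : b ≠ a + 2 * z := by
          rintro rfl
          exact nsq ⟨z + a, by rw [← h]; ring⟩
        omega
      · rintro (⟨h1, h2, h3⟩ | ⟨h1, h2, h3, h4⟩)
        · exact ⟨h1, by omega, h3⟩
        · exact ⟨h1, h2, h4⟩
    · rintro ⟨z, a, b⟩ _
      simp only
      omega
  have h2 : ((Th (2 * m)).filter (fun e => 0 < e.1 ∧ e.2.1 + 2 * e.1 < e.2.2 ∧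
        ¬ (2 : ℤ) ∣ e.1)).card = C (2 * m) := by
    unfold C
    refine card_nbij' (fun e => (e.1 + e.2.1, (e.2.2 - e.2.1 - 2 * e.1) / 2, e.2.1))
      (fun e => (e.1 - e.2.2, e.2.2, 2 * e.2.1 + 2 * e.1 - e.2.2)) ?_ ?_ ?_ ?_
    · rintro ⟨z, a, b⟩ he
      simp only [coe_filter, Set.mem_ofPred_eq, mem_Om, mem_Th] at he ⊢
      obtain ⟨⟨ha, hb, h⟩, h1, h2, h3⟩ := he
      have hp := parTh hm h h3
      obtain ⟨u, hu⟩ : ∃ u, b = 2 * u + a + 2 * z := ⟨(b - a - 2 * z) / 2, by omega⟩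
      subst hu
      have e1 : (2 * u + a + 2 * z - a - 2 * z) / 2 = u := by omega
      rw [e1]
      exact ⟨⟨by omega, by omega, by rw [← h]; ring⟩, by omega⟩
    · rintro ⟨x, u, v⟩ he
      simp only [coe_filter, Set.mem_ofPred_eq, mem_Om, mem_Th] at he ⊢
      obtain ⟨⟨ha, hb, h⟩, h1⟩ := he
      have hp := par2 hm h
      exact ⟨⟨by omega, by omega, by rw [← h]; ring⟩, by omega, by omega, by omega⟩
    · rintro ⟨z, a, b⟩ he
      simp only [coe_filter, Set.mem_ofPred_eq, mem_Th] at he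
      obtain ⟨⟨ha, hb, h⟩, h1, h2, h3⟩ := he
      have hp := parTh hm h h3
      simp only [Prod.mk.injEq]
      exact ⟨by omega, trivial, by omega⟩
    · rintro ⟨x, u, v⟩ he
      simp only [Prod.mk.injEq]
      exact ⟨by omega, by omega, trivial⟩
  have h3 : ((Th (2 * m)).filter (fun e => 0 < e.1 ∧ e.2.1 < e.2.2 ∧ e.2.2 < e.2.1 + 2 * e.1 ∧
      ¬ (2 : ℤ) ∣ e.1)).card =
      ((Th (2 * m)).filter (fun e => 0 < e.1 ∧ e.2.1 < e.2.2 ∧
        ¬ (2 : ℤ) ∣ e.1 ∧ e.2.1 + e.2.2 = 2 * e.1)).card +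
      ((Th (2 * m)).filter (fun e => 0 < e.1 ∧ e.2.1 < e.2.2 ∧ e.2.2 < e.2.1 + 2 * e.1 ∧
      ¬ (2 : ℤ) ∣ e.1 ∧ e.2.1 + e.2.2 ≠ 2 * e.1)).card := by
    refine card_filter_split _ _ _ _ ?_ ?_
    · rintro ⟨z, a, b⟩ he
      rw [mem_Th] at he
      obtain ⟨ha, hb, h⟩ := he
      simp only
      constructor
      · rintro ⟨h1, h2, h3, h4⟩
        by_cases h5 : a + b = 2 * z
        · exact Or.inl ⟨h1, h2, h4, h5⟩
        · exact Or.inr ⟨h1, h2, h3, h4, h5⟩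
      · rintro (⟨h1, h2, h3, h4⟩ | ⟨h1, h2, h3, h4, h5⟩)
        · exact ⟨h1, h2, by omega, h3⟩
        · exact ⟨h1, h2, h3, h4⟩
    · rintro ⟨z, a, b⟩ _
      simp only
      omega
  have h4 : ((Th (2 * m)).filter (fun e => 0 < e.1 ∧ e.2.1 < e.2.2 ∧ e.2.2 < e.2.1 + 2 * e.1 ∧
      ¬ (2 : ℤ) ∣ e.1 ∧ e.2.1 + e.2.2 ≠ 2 * e.1)).card =
      ((Th (2 * m)).filter (fun e => 0 < e.1 ∧ e.2.1 < e.2.2 ∧ e.2.2 < e.2.1 + 2 * e.1 ∧
      ¬ (2 : ℤ) ∣ e.1 ∧ e.2.1 + e.2.2 < 2 * e.1)).card +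
      ((Th (2 * m)).filter (fun e => 0 < e.1 ∧ e.2.1 < e.2.2 ∧ e.2.2 < e.2.1 + 2 * e.1 ∧
      ¬ (2 : ℤ) ∣ e.1 ∧ 2 * e.1 < e.2.1 + e.2.2)).card := by
    refine card_filter_split _ _ _ _ ?_ ?_
    · rintro ⟨z, a, b⟩ he
      simp only
      omega
    · rintro ⟨z, a, b⟩ _
      simp only
      omega
  have h5 : ((Th (2 * m)).filter (fun e => 0 < e.1 ∧ e.2.1 < e.2.2 ∧ e.2.2 < e.2.1 + 2 * e.1 ∧
      ¬ (2 : ℤ) ∣ e.1 ∧ 2 * e.1 < e.2.1 + e.2.2)).card =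
      ((Th (2 * m)).filter (fun e => 0 < e.1 ∧ e.2.1 < e.2.2 ∧ e.2.2 < e.2.1 + 2 * e.1 ∧
      ¬ (2 : ℤ) ∣ e.1 ∧ e.2.1 + e.2.2 < 2 * e.1)).card := by
    refine card_nbij' (fun e => ((e.2.1 + e.2.2) / 2, e.1 - (e.2.2 - e.2.1) / 2,
      e.1 + (e.2.2 - e.2.1) / 2)) (fun e => ((e.2.1 + e.2.2) / 2, e.1 - (e.2.2 - e.2.1) / 2,
      e.1 + (e.2.2 - e.2.1) / 2)) ?_ ?_ ?_ ?_
    · rintro ⟨z, a, b⟩ he
      simp only [coe_filter, Set.mem_ofPred_eq, mem_Th] at he ⊢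
      obtain ⟨⟨ha, hb, h⟩, h1, h2, h3, h4, h5⟩ := he
      have hp := parTh hm h h4
      obtain ⟨t, ht⟩ : ∃ t, b = a + 4 * t := ⟨(b - a) / 4, by omega⟩
      subst ht
      have e1 : (a + (a + 4 * t)) / 2 = a + 2 * t := by omega
      have e2 : (a + 4 * t - a) / 2 = 2 * t := by omega
      rw [e1, e2]
      exact ⟨⟨by omega, by omega, by rw [← h]; ring⟩, by omega, by omega, by omega, by omega,
        by omega⟩
    · rintro ⟨z, a, b⟩ he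
      simp only [coe_filter, Set.mem_ofPred_eq, mem_Th] at he ⊢
      obtain ⟨⟨ha, hb, h⟩, h1, h2, h3, h4, h5⟩ := he
      have hp := parTh hm h h4
      obtain ⟨t, ht⟩ : ∃ t, b = a + 4 * t := ⟨(b - a) / 4, by omega⟩
      subst ht
      have e1 : (a + (a + 4 * t)) / 2 = a + 2 * t := by omega
      have e2 : (a + 4 * t - a) / 2 = 2 * t := by omega
      rw [e1, e2]
      exact ⟨⟨by omega, by omega, by rw [← h]; ring⟩, by omega, by omega, by omega, by omega,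
        by omega⟩
    · rintro ⟨z, a, b⟩ he
      simp only [coe_filter, Set.mem_ofPred_eq, mem_Th] at he
      obtain ⟨⟨ha, hb, h⟩, h1, h2, h3, h4, h5⟩ := he
      have hp := parTh hm h h4
      simp only [Prod.mk.injEq]
      exact ⟨by omega, by omega, by omega⟩
    · rintro ⟨z, a, b⟩ he
      simp only [coe_filter, Set.mem_ofPred_eq, mem_Th] at he
      obtain ⟨⟨ha, hb, h⟩, h1, h2, h3, h4, h5⟩ := he
      have hp := parTh hm h h4
      simp only [Prod.mk.injEq]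
      exact ⟨by omega, by omega, by omega⟩
  have h6 : ((Th (2 * m)).filter (fun e => 0 < e.1 ∧ e.2.1 < e.2.2 ∧
        ¬ (2 : ℤ) ∣ e.1 ∧ e.2.1 + e.2.2 = 2 * e.1)).card = Rall (2 * m) := by
    unfold Rall
    refine card_nbij' (fun e => ((e.2.2 - e.2.1) / 2, e.2.1, e.2.2))
      (fun e => (e.2.1 + e.1, e.2.1, e.2.2)) ?_ ?_ ?_ ?_
    · rintro ⟨z, a, b⟩ he
      simp only [coe_filter, Set.mem_ofPred_eq, mem_Om, mem_Th] at he ⊢
      obtain ⟨⟨ha, hb, h⟩, h1, h2, h3, h4⟩ := he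
      obtain ⟨t, ht⟩ : ∃ t, b = a + 2 * t := ⟨(b - a) / 2, by omega⟩
      subst ht
      have hz : z = a + t := by omega
      subst hz
      have e1 : (a + 2 * t - a) / 2 = t := by omega
      rw [e1]
      exact ⟨⟨ha, hb, by rw [← h]; ring⟩, by omega, by omega⟩
    · rintro ⟨x, u, v⟩ he
      simp only [coe_filter, Set.mem_ofPred_eq, mem_Om, mem_Th] at he ⊢
      obtain ⟨⟨ha, hb, h⟩, h1, h2⟩ := he
      have hp := par2 hm h
      subst h1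
      exact ⟨⟨ha, hb, by rw [← h]; ring⟩, by omega, by omega, by omega, by omega⟩
    · rintro ⟨z, a, b⟩ he
      simp only [coe_filter, Set.mem_ofPred_eq, mem_Th] at he
      obtain ⟨⟨ha, hb, h⟩, h1, h2, h3, h4⟩ := he
      have e1 : a + (b - a) / 2 = z := by omega
      simp only [e1]
    · rintro ⟨x, u, v⟩ he
      simp only [coe_filter, Set.mem_ofPred_eq, mem_Om] at he
      obtain ⟨⟨ha, hb, h⟩, h1, h2⟩ := he
      have e1 : (v - u) / 2 = x := by omega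
      simp only [e1]
  omega

end Pool.Agent.Nu3
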