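import Pool.Agent.Nu3.SEven

/-!
Evenness of `S(2m) = #{x^2+uv=2m, u<v}` when `m` is odd, not a sum of two squares and `4 ∣ d(m)`.
-/

namespace Pool.Agent.Nu3

open Finset

/-- the number of `(x,u,v)` in `Om N` with `v = u + 2 x`, not a square case -/
theorem card_R (K : ℤ → Prop) [DecidablePred K] (hK : ∀ x, K (-x) ↔ K x) {N : ℤ}
    (hN : ∀ t : ℤ, 2 * t ^ 2 ≠ N) :
    ((Om N).filter (fun e => e.2.2 = e.2.1 + 2 * e.1 ∧ K e.1)).card =
      2 * ((Om N).filter (fun e => e.2.2 = e.2.1 + 2 * e.1 ∧ 0 < e.1 ∧ K e.1)).card := by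
  have h1 : ((Om N).filter (fun e => e.2.2 = e.2.1 + 2 * e.1 ∧ K e.1)).card =
      ((Om N).filter (fun e => e.2.2 = e.2.1 + 2 * e.1 ∧ 0 < e.1 ∧ K e.1)).card +
      ((Om N).filter (fun e => e.2.2 = e.2.1 + 2 * e.1 ∧ e.1 < 0 ∧ K e.1)).card := by
    refine card_filter_split _ _ _ _ ?_ ?_
    · rintro ⟨x, u, v⟩ he
      rw [mem_Om] at he
      obtain ⟨hu, hv, h⟩ := he
      simp only
      constructor
      · rintro ⟨a, b⟩
        have : x ≠ 0 := by
          rintro rfl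
          subst a
          exact hN u (by rw [← h]; ring)
        rcases lt_or_gt_of_ne this with h | h
        · exact Or.inr ⟨a, h, b⟩
        · exact Or.inl ⟨a, h, b⟩
      · rintro (⟨a, b, c⟩ | ⟨a, b, c⟩)
        · exact ⟨a, c⟩
        · exact ⟨a, c⟩
    · rintro ⟨x, u, v⟩ _
      simp only
      omega
  have h2 : ((Om N).filter (fun e => e.2.2 = e.2.1 + 2 * e.1 ∧ e.1 < 0 ∧ K e.1)).card =
      ((Om N).filter (fun e => e.2.2 = e.2.1 + 2 * e.1 ∧ 0 < e.1 ∧ K e.1)).card := by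
    refine card_reflect _ _ (fun e => (-e.1, e.2.2, e.2.1)) ?_ ?_ ?_
    · rintro ⟨x, u, v⟩ he
      simp only [mem_filter, mem_Om] at he ⊢
      obtain ⟨⟨hu, hv, h⟩, h1, h2, h3⟩ := he
      exact ⟨⟨hv, hu, by rw [← h]; ring⟩, by omega, by omega, (hK x).mpr h3⟩
    · rintro ⟨x, u, v⟩ he
      simp only [mem_filter, mem_Om] at he ⊢
      obtain ⟨⟨hu, hv, h⟩, h1, h2, h3⟩ := he
      exact ⟨⟨hv, hu, by rw [← h]; ring⟩, by omega, by omega, (hK x).mpr h3⟩
    · rintro ⟨x, u, v⟩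
      simp
  omega

/-- the number of triples with `x = v` for odd nonsquare `m` is half of the number of divisors -/
theorem card_xv {m : ℕ} (hm : m % 2 = 1) (hsq : ¬ IsSquare m) :
    m.divisors.card = 2 * ((Om (m : ℤ)).filter (fun e => e.1 = e.2.2)).card := by
  have h1 : ((Om (m : ℤ)).filter (fun e => e.1 = e.2.2)).card =
      (m.divisors.filter (fun w => True ∧ w * w < m)).card := by
    refine card_nbij' (fun e => e.2.2.toNat)
      (fun w => ((w : ℤ), ((((m / w : ℕ) : ℤ) - w) / 2), (w : ℤ))) ?_ ?_ ?_ ?_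
    · rintro ⟨x, u, v⟩ he
      simp only [coe_filter, Set.mem_ofPred_eq, mem_Om] at he ⊢
      obtain ⟨⟨ha, hb, h⟩, h1⟩ := he
      subst h1
      obtain ⟨w, rfl⟩ : ∃ w : ℕ, x = w := ⟨x.toNat, by omega⟩
      obtain ⟨k, rfl⟩ : ∃ k : ℕ, u = k := ⟨u.toNat, by omega⟩
      have h3 : (w * (w + 2 * k) : ℕ) = (m : ℤ) := by rw [← h]; push_cast; ring
      have h3' : w * (w + 2 * k) = m := by exact_mod_cast h3
      simp only [Int.toNat_natCast, Nat.mem_divisors]
      refine ⟨⟨⟨w + 2 * k, h3'.symm⟩, by omega⟩, trivial, ?_⟩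
      rw [← h3']
      have hw : 0 < w := by omega
      have hk : 0 < k := by omega
      nlinarith
    · intro w hw
      simp only [coe_filter, Set.mem_ofPred_eq, mem_Om, Nat.mem_divisors] at hw ⊢
      obtain ⟨⟨⟨k, hk⟩, h0⟩, _, h1⟩ := hw
      have hw0 : 0 < w := Nat.pos_of_ne_zero (by rintro rfl; simp at hk; omega)
      have hlt : w < k := by
        rw [hk] at h1
        exact lt_of_mul_lt_mul_left h1 (by omega)
      have hp : w % 2 = 1 ∧ k % 2 = 1 := by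
        have : Odd (w * k) := by rw [← hk]; exact Nat.odd_iff.mpr hm
        rw [Nat.odd_mul, Nat.odd_iff, Nat.odd_iff] at this
        exact this
      obtain ⟨t, ht⟩ : ∃ t : ℕ, k = w + 2 * t := ⟨(k - w) / 2, by omega⟩
      rw [hk, Nat.mul_div_cancel_left _ hw0, ht]
      have e1 : (((w + 2 * t : ℕ) : ℤ) - w) / 2 = t := by omega
      rw [e1]
      refine ⟨⟨by omega, by omega, ?_⟩, trivial⟩
      push_cast
      ring
    · rintro ⟨x, u, v⟩ he
      simp only [coe_filter, Set.mem_ofPred_eq, mem_Om] at he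
      obtain ⟨⟨ha, hb, h⟩, h1⟩ := he
      subst h1
      obtain ⟨w, rfl⟩ : ∃ w : ℕ, x = w := ⟨x.toNat, by omega⟩
      obtain ⟨k, rfl⟩ : ∃ k : ℕ, u = k := ⟨u.toNat, by omega⟩
      have h3 : (w * (w + 2 * k) : ℕ) = (m : ℤ) := by rw [← h]; push_cast; ring
      have h3' : w * (w + 2 * k) = m := by exact_mod_cast h3
      have hw : 0 < w := by omega
      simp only [Int.toNat_natCast, Prod.mk.injEq]
      rw [← h3', Nat.mul_div_cancel_left _ hw]
      exact ⟨trivial, by omega, trivial⟩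
    · intro w hw
      simp
  have h2 : (m.divisors.filter (fun w => True ∧ m < w * w)).card =
      (m.divisors.filter (fun w => True ∧ w * w < m)).card := by
    refine card_nbij' (fun w => m / w) (fun w => m / w) ?_ ?_ ?_ ?_
    · intro w hw
      simp only [coe_filter, Set.mem_ofPred_eq, Nat.mem_divisors] at hw ⊢
      obtain ⟨⟨⟨k, hk⟩, h0⟩, _, h1⟩ := hw
      have hw0 : 0 < w := Nat.pos_of_ne_zero (by rintro rfl; simp at hk; omega)
      rw [hk, Nat.mul_div_cancel_left _ hw0]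
      have hlt : k < w := by
        rw [hk] at h1
        exact lt_of_mul_lt_mul_left h1 (by omega)
      have hk0 : 0 < k := Nat.pos_of_ne_zero (by rintro rfl; simp at hk; omega)
      exact ⟨⟨⟨w, by ring⟩, by positivity⟩, trivial, by nlinarith⟩
    · intro w hw
      simp only [coe_filter, Set.mem_ofPred_eq, Nat.mem_divisors] at hw ⊢
      obtain ⟨⟨⟨k, hk⟩, h0⟩, _, h1⟩ := hw
      have hw0 : 0 < w := Nat.pos_of_ne_zero (by rintro rfl; simp at hk; omega)
      rw [hk, Nat.mul_div_cancel_left _ hw0]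
      have hlt : w < k := by
        rw [hk] at h1
        exact lt_of_mul_lt_mul_left h1 (by omega)
      have hk0 : 0 < k := by omega
      exact ⟨⟨⟨w, by ring⟩, by positivity⟩, trivial, by nlinarith⟩
    · intro w hw
      simp only [coe_filter, Set.mem_ofPred_eq, Nat.mem_divisors] at hw
      exact Nat.div_div_self hw.1.1 hw.1.2
    · intro w hw
      simp only [coe_filter, Set.mem_ofPred_eq, Nat.mem_divisors] at hw
      exact Nat.div_div_self hw.1.1 hw.1.2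
  have h3 := card_div_split m (fun _ => True) hsq
  rw [filter_true_of_mem (by intro _ _; trivial)] at h3
  omega

/-- For `m ≡ 3 mod 4` with `4 ∣ d(m)`: `P(m) ≡ R(m)` mod 2. -/
theorem PR_mod {m : ℕ} (hm : m % 4 = 3) (hd : 4 ∣ m.divisors.card) :
    Pall (m : ℤ) % 2 = Rall (m : ℤ) % 2 := by
  have hsq : ¬ IsSquare (m : ℤ) := by
    rintro ⟨k, hk⟩
    rcases Int.emod_two_eq_zero_or_one k with h | h
    · obtain ⟨l, rfl⟩ : (2 : ℤ) ∣ k := by omega
      have : (m : ℤ) = 4 * (l * l) := by rw [hk]; ring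
      omega
    · obtain ⟨l, hl⟩ := sq_mod8 h
      have : (m : ℤ) = 8 * l + 1 := by rw [hk, ← hl]; ring
      omega
  have hsq' : ¬ IsSquare m := by
    rintro ⟨k, hk⟩
    exact hsq ⟨k, by rw [hk]; push_cast; ring⟩
  obtain ⟨a, b, h⟩ := gen_rel (fun _ => True) hsq (by intro x; trivial)
    (by intro x u v _; trivial) (by intro x u v _; trivial)
  simp only [and_true] at h
  have e1 : ((Om (m : ℤ)).filter (fun e => e.1 = 0)).card = 0 := by
    rw [card_eq_zero, filter_eq_empty_iff]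
    rintro ⟨x, u, v⟩ he h1
    rw [mem_Om] at he
    obtain ⟨hu, hv, he⟩ := he
    simp only at h1
    subst h1
    have : (m : ℤ) = 2 * (u * v) := by rw [← he]; ring
    omega
  have e2 : ((Om (m : ℤ)).filter (fun e => e.2.2 = e.2.1 + e.1 ∧ e.1 < 0)).card = 0 := by
    rw [card_eq_zero, filter_eq_empty_iff]
    rintro ⟨x, u, v⟩ he ⟨h1, h2⟩
    rw [mem_Om] at he
    obtain ⟨hu, hv, he⟩ := he
    simp only at h1
    have hx : x = v - u := by omega
    subst hx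
    have h5 : (m : ℤ) = u ^ 2 + v ^ 2 := by rw [← he]; ring
    rcases Int.emod_two_eq_zero_or_one u with h | h <;>
      rcases Int.emod_two_eq_zero_or_one v with h' | h'
    · obtain ⟨l, rfl⟩ : (2 : ℤ) ∣ u := by omega
      obtain ⟨l', rfl⟩ : (2 : ℤ) ∣ v := by omega
      have : (m : ℤ) = 4 * (l ^ 2 + l' ^ 2) := by rw [h5]; ring
      omega
    · obtain ⟨l, rfl⟩ : (2 : ℤ) ∣ u := by omega
      obtain ⟨l', hl'⟩ := sq_mod8 h'
      have : (2 * l) ^ 2 = 4 * l ^ 2 := by ring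
      omega
    · obtain ⟨l, rfl⟩ : (2 : ℤ) ∣ v := by omega
      obtain ⟨l', hl'⟩ := sq_mod8 h
      have : (2 * l) ^ 2 = 4 * l ^ 2 := by ring
      omega
    · obtain ⟨l, hl⟩ := sq_mod8 h
      obtain ⟨l', hl'⟩ := sq_mod8 h'
      omega
  have e3 : ((Om (m : ℤ)).filter (fun e => 2 * e.2.2 < e.2.1 + 2 * e.1)).card =
      2 * C (m : ℤ) + ((Om (m : ℤ)).filter (fun e => e.1 = e.2.2)).card := by
    have := sum_E2 (N := (m : ℤ)) (fun _ => 1) (by intros; rfl)
    simp only [sum_const, nsmul_eq_mul, mul_one] at this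
    unfold C
    exact_mod_cast this
  have e4 : ((Om (m : ℤ)).filter (fun e => e.2.2 = e.2.1 + 2 * e.1)).card = 2 * Rall (m : ℤ) := by
    have := card_R (fun _ => True) (by intro x; trivial) (N := (m : ℤ)) (by intro t ht; omega)
    simp only [and_true] at this
    exact this
  have e5 := card_xv (by omega) hsq'
  have e6 : ((Om (m : ℤ)).filter (fun e => 0 < e.1 ∧ e.2.1 = e.2.2)).card = Pall (m : ℤ) := rfl
  rw [e1, e2, e3, e4, e6] at h
  omega

theorem Rall_zero {m : ℤ} (hm : m % 8 = 3) : Rall m = 0 := by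
  unfold Rall
  rw [card_eq_zero, filter_eq_empty_iff]
  rintro ⟨x, u, v⟩ he ⟨h1, h2⟩
  rw [mem_Om] at he
  obtain ⟨hu, hv, he⟩ := he
  simp only at h1 h2
  subst h1
  have hx : x % 2 = 1 := by
    rcases Int.emod_two_eq_zero_or_one x with h | h
    · obtain ⟨l, rfl⟩ : (2 : ℤ) ∣ x := by omega
      have : m = 2 * (2 * l ^ 2 + u * (u + 2 * (2 * l))) := by rw [← he]; ring
      omega
    · exact h
  obtain ⟨k, hk⟩ := sq_mod8 hx
  have h5 : m = 2 * (u + x) ^ 2 - x ^ 2 := by rw [← he]; ring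
  rcases Int.emod_two_eq_zero_or_one (u + x) with h | h
  · obtain ⟨l, hl⟩ : (2 : ℤ) ∣ u + x := by omega
    rw [hl] at h5
    have : (2 * l) ^ 2 = 4 * l ^ 2 := by ring
    omega
  · obtain ⟨l, hl⟩ := sq_mod8 h
    omega

theorem Pall_zero {m : ℤ} (hm : m % 8 = 7) : Pall m = 0 := by
  unfold Pall
  rw [card_eq_zero, filter_eq_empty_iff]
  rintro ⟨x, u, v⟩ he ⟨h1, h2⟩
  rw [mem_Om] at he
  obtain ⟨hu, hv, he⟩ := he
  simp only at h1 h2
  subst h2
  have hx : x % 2 = 1 := by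
    rcases Int.emod_two_eq_zero_or_one x with h | h
    · obtain ⟨l, rfl⟩ : (2 : ℤ) ∣ x := by omega
      have : m = 2 * (2 * l ^ 2 + u * u) := by rw [← he]; ring
      omega
    · exact h
  obtain ⟨k, hk⟩ := sq_mod8 hx
  have h5 : m = x ^ 2 + 2 * u ^ 2 := by rw [← he]; ring
  rcases Int.emod_two_eq_zero_or_one u with h | h
  · obtain ⟨l, rfl⟩ : (2 : ℤ) ∣ u := by omega
    have : (2 * l) ^ 2 = 4 * l ^ 2 := by ring
    omega
  · obtain ⟨l, hl⟩ := sq_mod8 h
    omega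

/-- `x^2+2u^2=N`, `x>0`, `4 ∤ x` -/
noncomputable def P2 (N : ℤ) : ℕ :=
  ((Om N).filter (fun e => 0 < e.1 ∧ e.2.1 = e.2.2 ∧ ¬ (4 : ℤ) ∣ e.1)).card
/-- `2s^2-x^2=N`, `x>0`, `4 ∤ x` -/
noncomputable def R2 (N : ℤ) : ℕ :=
  ((Om N).filter (fun e => e.2.2 = e.2.1 + 2 * e.1 ∧ 0 < e.1 ∧ ¬ (4 : ℤ) ∣ e.1)).card

theorem P2_zero {m : ℤ} (hm : m % 2 = 1) (h : m % 8 ≠ 3) : P2 (2 * m) = 0 := by
  unfold P2
  rw [card_eq_zero, filter_eq_empty_iff]
  rintro ⟨x, u, v⟩ he ⟨h1, h2, h3⟩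
  rw [mem_Om] at he
  obtain ⟨hu, hv, he⟩ := he
  simp only at h2 h3
  subst h2
  have hp := par2 hm he
  obtain ⟨y, rfl⟩ : (2 : ℤ) ∣ x := by omega
  obtain ⟨k, hk⟩ := sq_mod8 hp.2.1
  obtain ⟨l, hl⟩ := sq_mod8 (x := y) (by omega)
  have : m = 2 * y ^ 2 + u ^ 2 := by linarith
  omega

theorem R2_zero {m : ℤ} (hm : m % 2 = 1) (h : m % 8 ≠ 7) : R2 (2 * m) = 0 := by
  unfold R2
  rw [card_eq_zero, filter_eq_empty_iff]
  rintro ⟨x, u, v⟩ he ⟨h1, h2, h3⟩
  rw [mem_Om] at he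
  obtain ⟨hu, hv, he⟩ := he
  simp only at h1 h3
  subst h1
  have hp := par2 hm he
  obtain ⟨y, rfl⟩ : (2 : ℤ) ∣ x := by omega
  obtain ⟨k, hk⟩ := sq_mod8 (x := u + 2 * y) (by omega)
  obtain ⟨l, hl⟩ := sq_mod8 (x := y) (by omega)
  have : m = (u + 2 * y) ^ 2 - 2 * y ^ 2 := by linarith
  omega

theorem P2_eq {m : ℤ} (hm : m % 8 = 3) : P2 (2 * m) = Pall m := by
  unfold P2 Pall
  refine card_nbij' (fun e => (e.2.1, e.1 / 2, e.1 / 2)) (fun e => (2 * e.2.1, e.1, e.1)) ?_ ?_ ?_ ?_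
  · rintro ⟨x, u, v⟩ he
    simp only [coe_filter, Set.mem_ofPred_eq, mem_Om] at he ⊢
    obtain ⟨⟨ha, hb, h⟩, h1, h2, h3⟩ := he
    subst h2
    have hp := par2 (by omega) h
    obtain ⟨y, rfl⟩ : (2 : ℤ) ∣ x := by omega
    have e1 : 2 * y / 2 = y := by omega
    rw [e1]
    exact ⟨⟨by omega, by omega, by linarith⟩, ha, trivial⟩
  · rintro ⟨x, u, v⟩ he
    simp only [coe_filter, Set.mem_ofPred_eq, mem_Om] at he ⊢
    obtain ⟨⟨ha, hb, h⟩, h1, h2⟩ := he
    subst h2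
    refine ⟨⟨h1, h1, by linarith⟩, by omega, trivial, ?_⟩
    rintro ⟨t, ht⟩
    obtain rfl : u = 2 * t := by omega
    have hx : x % 2 = 1 := by
      rcases Int.emod_two_eq_zero_or_one x with h' | h'
      · obtain ⟨l, rfl⟩ : (2 : ℤ) ∣ x := by omega
        have : m = 2 * (2 * l ^ 2 + 4 * t ^ 2) := by rw [← h]; ring
        omega
      · exact h'
    obtain ⟨k, hk⟩ := sq_mod8 hx
    have : m = 8 * k + 1 + 8 * t ^ 2 := by rw [← h, hk]; ring
    omega
  · rintro ⟨x, u, v⟩ he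
    simp only [coe_filter, Set.mem_ofPred_eq, mem_Om] at he
    obtain ⟨⟨ha, hb, h⟩, h1, h2, h3⟩ := he
    subst h2
    have hp := par2 (by omega) h
    have e1 : 2 * (x / 2) = x := by omega
    simp only [e1]
  · rintro ⟨x, u, v⟩ he
    simp only [coe_filter, Set.mem_ofPred_eq, mem_Om] at he
    obtain ⟨⟨ha, hb, h⟩, h1, h2⟩ := he
    subst h2
    have e1 : 2 * u / 2 = u := by omega
    simp only [e1]

theorem R2_eq {m : ℤ} (hm : m % 8 = 7) : R2 (2 * m) = Rall m := by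
  unfold R2 Rall
  refine card_nbij' (fun e => (e.2.1, e.1 / 2, e.1 / 2 + 2 * e.2.1))
    (fun e => (2 * e.2.1, e.1, e.1 + 4 * e.2.1)) ?_ ?_ ?_ ?_
  · rintro ⟨x, u, v⟩ he
    simp only [coe_filter, Set.mem_ofPred_eq, mem_Om] at he ⊢
    obtain ⟨⟨ha, hb, h⟩, h1, h2, h3⟩ := he
    subst h1
    have hp := par2 (by omega) h
    obtain ⟨y, rfl⟩ : (2 : ℤ) ∣ x := by omega
    have e1 : 2 * y / 2 = y := by omega
    rw [e1]
    exact ⟨⟨by omega, by omega, by linarith⟩, trivial, ha⟩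
  · rintro ⟨x, u, v⟩ he
    simp only [coe_filter, Set.mem_ofPred_eq, mem_Om] at he ⊢
    obtain ⟨⟨ha, hb, h⟩, h1, h2⟩ := he
    subst h1
    refine ⟨⟨by omega, by omega, by linarith⟩, by ring, by omega, ?_⟩
    rintro ⟨t, ht⟩
    obtain rfl : u = 2 * t := by omega
    have hx : x % 2 = 1 := by
      rcases Int.emod_two_eq_zero_or_one x with h' | h'
      · obtain ⟨l, rfl⟩ : (2 : ℤ) ∣ x := by omega
        have : m = 2 * (2 * l ^ 2 + 2 * t * (2 * t + 2 * (2 * l))) := by rw [← h]; ring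
        omega
      · exact h'
    obtain ⟨k, hk⟩ := sq_mod8 hx
    have : m = 8 * k + 1 + 8 * (t * (t + x)) := by rw [← h, hk]; ring
    omega
  · rintro ⟨x, u, v⟩ he
    simp only [coe_filter, Set.mem_ofPred_eq, mem_Om] at he
    obtain ⟨⟨ha, hb, h⟩, h1, h2, h3⟩ := he
    subst h1
    have hp := par2 (by omega) h
    simp only [Prod.mk.injEq]
    exact ⟨by omega, trivial, by omega⟩
  · rintro ⟨x, u, v⟩ he
    simp only [coe_filter, Set.mem_ofPred_eq, mem_Om] at he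
    obtain ⟨⟨ha, hb, h⟩, h1, h2⟩ := he
    subst h1
    simp only [Prod.mk.injEq]
    exact ⟨trivial, by omega, by omega⟩

/-- The key evenness. -/
theorem Sall_even {m : ℕ} (hm : m % 2 = 1) (hs : ∀ x y : ℤ, x ^ 2 + y ^ 2 ≠ 2 * (m : ℤ))
    (hd : 4 ∣ m.divisors.card) : 2 ∣ Sall (2 * (m : ℤ)) := by
  have hm' : (m : ℤ) % 2 = 1 := by omega
  obtain ⟨a, b, h⟩ := rel2 hm
  rw [Q4_zero hs] at h
  obtain ⟨k1, hk1⟩ := Sne_Pall hm'
  obtain ⟨k2, hk2⟩ := So_CR hm'
  have hk3 := Sall_split hm'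
  have hP : Pall (2 * (m : ℤ)) = P4 (2 * (m : ℤ)) + P2 (2 * (m : ℤ)) := by
    unfold Pall P4 P2
    refine card_filter_split _ _ _ _ ?_ ?_
    · rintro ⟨x, u, v⟩ _
      simp only
      tauto
    · rintro ⟨x, u, v⟩ _
      simp only
      tauto
  have hR : Rall (2 * (m : ℤ)) =
      ((Om (2 * (m : ℤ))).filter (fun e => e.2.2 = e.2.1 + 2 * e.1 ∧ 0 < e.1 ∧ (4 : ℤ) ∣ e.1)).card
        + R2 (2 * (m : ℤ)) := by
    unfold Rall R2
    refine card_filter_split _ _ _ _ ?_ ?_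
    · rintro ⟨x, u, v⟩ _
      simp only
      tauto
    · rintro ⟨x, u, v⟩ _
      simp only
      tauto
  have hR4 : R4 (2 * (m : ℤ)) = 2 *
      ((Om (2 * (m : ℤ))).filter
        (fun e => e.2.2 = e.2.1 + 2 * e.1 ∧ 0 < e.1 ∧ (4 : ℤ) ∣ e.1)).card := by
    unfold R4
    refine card_R (fun x => (4 : ℤ) ∣ x) (by intro x; simp) ?_
    intro t ht
    exact hs t t (by rw [← ht]; ring)
  have hPR : (P2 (2 * (m : ℤ)) + R2 (2 * (m : ℤ))) % 2 = 0 := by
    by_cases h3 : (m : ℤ) % 8 = 3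
    · rw [P2_eq h3, R2_zero hm' (by omega)]
      have := PR_mod (m := m) (by omega) hd
      rw [Rall_zero h3] at this
      omega
    · by_cases h7 : (m : ℤ) % 8 = 7
      · rw [P2_zero hm' h3, R2_eq h7]
        have := PR_mod (m := m) (by omega) hd
        rw [Pall_zero h7] at this
        omega
      · rw [P2_zero hm' h3, R2_zero hm' h7]
  omega

end Pool.Agent.Nu3
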