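import Pool.Agent.Nu3.Gen
import Pool.Agent.Nu3.OddN

/-!
`N = 2 m` with `m` odd.
-/

namespace Pool.Agent.Nu3

open Finset

theorem par2 {m x u v : ℤ} (hm : m % 2 = 1) (h : x ^ 2 + 2 * u * v = 2 * m) :
    x % 2 = 0 ∧ u % 2 = 1 ∧ v % 2 = 1 := by
  have hx : (2 : ℤ) ∣ x := by
    have : (2 : ℤ) ∣ x ^ 2 := ⟨m - u * v, by linarith⟩
    exact Int.prime_two.dvd_of_dvd_pow this
  obtain ⟨y, rfl⟩ := hx
  have h2 : m = 2 * y ^ 2 + u * v := by linarith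
  have hu : u % 2 = 1 := by
    rcases Int.emod_two_eq_zero_or_one u with h0 | h0
    · exfalso
      obtain ⟨k, rfl⟩ : (2 : ℤ) ∣ u := by omega
      have : m = 2 * (y ^ 2 + k * v) := by rw [h2]; ring
      omega
    · exact h0
  have hv : v % 2 = 1 := by
    rcases Int.emod_two_eq_zero_or_one v with h0 | h0
    · exfalso
      obtain ⟨k, rfl⟩ : (2 : ℤ) ∣ v := by omega
      have : m = 2 * (y ^ 2 + u * k) := by rw [h2]; ring
      omega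
    · exact h0
  exact ⟨by omega, hu, hv⟩

theorem E2K {m : ℤ} (hm : m % 2 = 1) :
    ((Om (2 * m)).filter (fun e => 2 * e.2.2 < e.2.1 + 2 * e.1 ∧ (4 : ℤ) ∣ e.1)).card =
      C (2 * m) := by
  have h1 : ((Om (2 * m)).filter (fun e => 2 * e.2.2 < e.2.1 + 2 * e.1 ∧ (4 : ℤ) ∣ e.1)).card =
      ((Om (2 * m)).filter (fun e => e.2.2 < e.1 ∧ (4 : ℤ) ∣ e.1)).card +
      ((Om (2 * m)).filter (fun e => (2 * e.2.2 < e.2.1 + 2 * e.1 ∧ e.1 < e.2.2) ∧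
        (4 : ℤ) ∣ e.1)).card := by
    refine card_filter_split _ _ _ _ ?_ ?_
    · rintro ⟨x, u, v⟩ he
      rw [mem_Om] at he
      obtain ⟨hu, hv, h⟩ := he
      have := par2 hm h
      simp only
      constructor
      · rintro ⟨a, b⟩
        omega
      · omega
    · rintro ⟨x, u, v⟩ _
      simp only
      omega
  have h2 : C (2 * m) = ((Om (2 * m)).filter (fun e => e.2.2 < e.1 ∧ (4 : ℤ) ∣ e.1)).card +
      ((Om (2 * m)).filter (fun e => e.2.2 < e.1 ∧ ¬ (4 : ℤ) ∣ e.1)).card := by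
    unfold C
    refine card_filter_split _ _ _ _ ?_ ?_
    · rintro ⟨x, u, v⟩ _
      simp only
      tauto
    · rintro ⟨x, u, v⟩ _
      simp only
      tauto
  have h3 : ((Om (2 * m)).filter (fun e => (2 * e.2.2 < e.2.1 + 2 * e.1 ∧ e.1 < e.2.2) ∧
        (4 : ℤ) ∣ e.1)).card =
      ((Om (2 * m)).filter (fun e => e.2.2 < e.1 ∧ ¬ (4 : ℤ) ∣ e.1)).card := by
    refine card_reflect _ _ (fun e => (2 * e.2.2 - e.1, e.2.1 + 2 * e.1 - 2 * e.2.2, e.2.2))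
      ?_ ?_ ?_
    · rintro ⟨x, u, v⟩ he
      simp only [mem_filter, mem_Om] at he ⊢
      obtain ⟨⟨hu, hv, h⟩, h1, h2⟩ := he
      have := par2 hm h
      exact ⟨⟨by omega, by omega, by rw [← h]; ring⟩, by omega, by omega⟩
    · rintro ⟨x, u, v⟩ he
      simp only [mem_filter, mem_Om] at he ⊢
      obtain ⟨⟨hu, hv, h⟩, h1, h2⟩ := he
      have := par2 hm h
      exact ⟨⟨by omega, by omega, by rw [← h]; ring⟩, by omega, by omega⟩
    · rintro ⟨x, u, v⟩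
      simp only [Prod.mk.injEq]
      exact ⟨by ring, by ring, trivial⟩
  omega

/-- `x^2+2u^2=N`, `x>0`, `4 ∣ x`. -/
noncomputable def P4 (N : ℤ) : ℕ :=
  ((Om N).filter (fun e => 0 < e.1 ∧ e.2.1 = e.2.2 ∧ (4 : ℤ) ∣ e.1)).card
/-- `2s^2-x^2=N`, `4 ∣ x`. -/
noncomputable def R4 (N : ℤ) : ℕ :=
  ((Om N).filter (fun e => e.2.2 = e.2.1 + 2 * e.1 ∧ (4 : ℤ) ∣ e.1)).card
/-- `u^2+v^2=N`, `v<u`, `4 ∣ u-v`. -/
noncomputable def Q4 (N : ℤ) : ℕ :=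
  ((Om N).filter (fun e => e.2.2 = e.2.1 + e.1 ∧ e.1 < 0 ∧ (4 : ℤ) ∣ e.1)).card

theorem nsq2 {m : ℤ} (hm : m % 2 = 1) : ¬ IsSquare (2 * m) := by
  rintro ⟨k, hk⟩
  have hk2 : (2 : ℤ) ∣ k := by
    have : (2 : ℤ) ∣ k * k := ⟨m, hk.symm⟩
    rcases Int.prime_two.dvd_or_dvd this with h | h <;> exact h
  obtain ⟨l, rfl⟩ := hk2
  have : m = 2 * (l * l) := by linarith
  omega

theorem card_x0 {m : ℕ} (hm : 0 < m) :
    ((Om (2 * (m : ℤ))).filter (fun e => e.1 = 0 ∧ (4 : ℤ) ∣ e.1)).card = m.divisors.card := by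
  refine card_nbij' (fun e => e.2.2.toNat) (fun w => (0, ((m / w : ℕ) : ℤ), (w : ℤ))) ?_ ?_ ?_ ?_
  · rintro ⟨x, u, v⟩ he
    simp only [coe_filter, Set.mem_ofPred_eq, mem_Om] at he
    obtain ⟨⟨ha, hb, h⟩, h1, h2⟩ := he
    subst h1
    obtain ⟨w, rfl⟩ : ∃ w : ℕ, v = w := ⟨v.toNat, by omega⟩
    have h3 : u * w = m := by linarith
    have h4 : (w : ℤ) ∣ m := ⟨u, by linarith⟩
    simp only [Int.toNat_natCast, mem_coe, Nat.mem_divisors]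
    exact ⟨by exact_mod_cast h4, by omega⟩
  · intro w hw
    simp only [mem_coe, Nat.mem_divisors] at hw
    obtain ⟨⟨k, hk⟩, h1⟩ := hw
    have hw0 : 0 < w := Nat.pos_of_ne_zero (by rintro rfl; simp at hk; omega)
    have hk0 : 0 < k := Nat.pos_of_ne_zero (by rintro rfl; simp at hk; omega)
    simp only [coe_filter, Set.mem_ofPred_eq, mem_Om]
    rw [hk, Nat.mul_div_cancel_left _ hw0]
    refine ⟨⟨by positivity, by omega, ?_⟩, trivial, by omega⟩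
    push_cast
    ring
  · rintro ⟨x, u, v⟩ he
    simp only [coe_filter, Set.mem_ofPred_eq, mem_Om] at he
    obtain ⟨⟨ha, hb, h⟩, h1, h2⟩ := he
    subst h1
    obtain ⟨w, rfl⟩ : ∃ w : ℕ, v = w := ⟨v.toNat, by omega⟩
    obtain ⟨k, rfl⟩ : ∃ k : ℕ, u = k := ⟨u.toNat, by omega⟩
    have h3 : (k : ℤ) * w = m := by linarith
    have h3' : k * w = m := by exact_mod_cast h3
    have hw0 : 0 < w := by omega
    simp only [Int.toNat_natCast, Prod.mk.injEq]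
    rw [← h3', Nat.mul_div_cancel _ hw0]
    exact ⟨trivial, rfl, trivial⟩
  · intro w hw
    simp

/-- Basic relation for `N=2m`, `m` odd. -/
theorem rel2 {m : ℕ} (hm : m % 2 = 1) : ∃ a b : ℕ,
    m.divisors.card + 2 * P4 (2 * (m : ℤ)) + 4 * a =
      2 * C (2 * (m : ℤ)) + R4 (2 * (m : ℤ)) + 2 * Q4 (2 * (m : ℤ)) + 4 * b := by
  have hm' : (m : ℤ) % 2 = 1 := by omega
  obtain ⟨a, b, h⟩ := gen_rel (fun x => (4 : ℤ) ∣ x) (nsq2 hm') (by intro x; simp)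
    (by
      intro x u v he
      rw [mem_Om] at he
      obtain ⟨hu, hv, h⟩ := he
      have := par2 hm' h
      omega)
    (by
      intro x u v he
      rw [mem_Om] at he
      obtain ⟨hu, hv, h⟩ := he
      have := par2 hm' h
      omega)
  rw [card_x0 (by omega), E2K hm'] at h
  exact ⟨a, b, h⟩

theorem sq_mod8 {x : ℤ} (hx : x % 2 = 1) : ∃ k, x ^ 2 = 8 * k + 1 := by
  obtain ⟨k, rfl⟩ : ∃ k, x = 2 * k + 1 := ⟨x / 2, by omega⟩
  rcases Int.even_or_odd' k with ⟨l, rfl | rfl⟩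
  · exact ⟨2 * l ^ 2 + l, by ring⟩
  · exact ⟨2 * l ^ 2 + 3 * l + 1, by ring⟩

theorem P4_zero {m : ℤ} (hm : m % 2 = 1) (h : ∀ x y : ℤ, x ^ 2 + 2 * y ^ 2 ≠ 2 * m) :
    P4 (2 * m) = 0 := by
  unfold P4
  rw [card_eq_zero, filter_eq_empty_iff]
  rintro ⟨x, u, v⟩ he ⟨h1, h2, h3⟩
  rw [mem_Om] at he
  obtain ⟨hu, hv, he⟩ := he
  simp only at h2
  subst h2
  exact h x u (by rw [← he]; ring)

theorem R4_zero {m : ℤ} (h : ∀ x y : ℤ, 2 * x ^ 2 - y ^ 2 ≠ 2 * m) :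
    R4 (2 * m) = 0 := by
  unfold R4
  rw [card_eq_zero, filter_eq_empty_iff]
  rintro ⟨x, u, v⟩ he ⟨h1, h2⟩
  rw [mem_Om] at he
  obtain ⟨hu, hv, he⟩ := he
  simp only at h1
  subst h1
  exact h (u + x) x (by rw [← he]; ring)

theorem Q4_zero {m : ℤ} (h : ∀ x y : ℤ, x ^ 2 + y ^ 2 ≠ 2 * m) :
    Q4 (2 * m) = 0 := by
  unfold Q4
  rw [card_eq_zero, filter_eq_empty_iff]
  rintro ⟨x, u, v⟩ he ⟨h1, h2, h3⟩
  rw [mem_Om] at he
  obtain ⟨hu, hv, he⟩ := he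
  simp only at h1
  subst h1
  exact h u (u + x) (by rw [← he]; ring)

theorem P4_zero' {m : ℤ} (hm : m % 2 = 1) (h : m % 8 ≠ 1) : P4 (2 * m) = 0 := by
  unfold P4
  rw [card_eq_zero, filter_eq_empty_iff]
  rintro ⟨x, u, v⟩ he ⟨h1, h2, h3⟩
  rw [mem_Om] at he
  obtain ⟨hu, hv, he⟩ := he
  simp only at h2 h3
  subst h2
  obtain ⟨y, rfl⟩ := h3
  obtain ⟨k, hk⟩ := sq_mod8 (par2 hm he).2.1
  have : m = 8 * y ^ 2 + u ^ 2 := by linarith
  omega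

theorem R4_zero' {m : ℤ} (hm : m % 2 = 1) (h : m % 8 ≠ 1) : R4 (2 * m) = 0 := by
  unfold R4
  rw [card_eq_zero, filter_eq_empty_iff]
  rintro ⟨x, u, v⟩ he ⟨h1, h2⟩
  rw [mem_Om] at he
  obtain ⟨hu, hv, he⟩ := he
  simp only at h1 h2
  subst h1
  obtain ⟨y, rfl⟩ := h2
  have hp := par2 hm he
  obtain ⟨k, hk⟩ := sq_mod8 (x := u + 4 * y) (by omega)
  have : m = (u + 4 * y) ^ 2 - 8 * y ^ 2 := by linarith
  omega

theorem Q4_zero' {m : ℤ} (hm : m % 2 = 1) (h : m % 4 ≠ 1) : Q4 (2 * m) = 0 := by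
  unfold Q4
  rw [card_eq_zero, filter_eq_empty_iff]
  rintro ⟨x, u, v⟩ he ⟨h1, h2, h3⟩
  rw [mem_Om] at he
  obtain ⟨hu, hv, he⟩ := he
  simp only at h1 h3
  subst h1
  obtain ⟨y, rfl⟩ := h3
  have hp := par2 hm he
  obtain ⟨k, hk⟩ := sq_mod8 (x := u + 2 * y) (by omega)
  have : m = (u + 2 * y) ^ 2 + 4 * y ^ 2 := by linarith
  omega

/-- if `m % 4 = 3` then `2 C(2m) ≡ d(m)` mod 4. -/
theorem C2_3mod4 {m : ℕ} (hm : m % 4 = 3) :
    (2 * C (2 * (m : ℤ))) % 4 = m.divisors.card % 4 := by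
  obtain ⟨a, b, h⟩ := rel2 (m := m) (by omega)
  rw [P4_zero' (by omega) (by omega), R4_zero' (by omega) (by omega),
    Q4_zero' (by omega) (by omega)] at h
  omega

/-- if `2m` is not of the forms then `2 C(2m) + 2 Q ≡ d(m)` mod 4. -/
theorem C2_Q {m : ℕ} (hm : m % 2 = 1) (h1 : ∀ x y : ℤ, x ^ 2 + 2 * y ^ 2 ≠ 2 * (m : ℤ))
    (h2 : ∀ x y : ℤ, 2 * x ^ 2 - y ^ 2 ≠ 2 * (m : ℤ)) :
    (2 * C (2 * (m : ℤ)) + 2 * Q4 (2 * (m : ℤ))) % 4 = m.divisors.card % 4 := by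
  obtain ⟨a, b, h⟩ := rel2 hm
  rw [P4_zero (by omega) h1, R4_zero h2] at h
  omega

theorem C2_special {m : ℕ} (hm : m % 2 = 1) (h1 : ∀ x y : ℤ, x ^ 2 + 2 * y ^ 2 ≠ 2 * (m : ℤ))
    (h2 : ∀ x y : ℤ, 2 * x ^ 2 - y ^ 2 ≠ 2 * (m : ℤ))
    (h3 : ∀ x y : ℤ, x ^ 2 + y ^ 2 ≠ 2 * (m : ℤ)) :
    (2 * C (2 * (m : ℤ))) % 4 = m.divisors.card % 4 := by
  have h := C2_Q hm h1 h2
  rw [Q4_zero h3] at h
  omega

/-- A prime exactly dividing `N` for which `-a` is a nonresidue excludes `x^2 + a y^2 = N`. -/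
theorem kill {p : ℕ} [Fact p.Prime] {N a : ℤ} (hp : (p : ℤ) ∣ N) (hp2 : ¬ (p : ℤ) ^ 2 ∣ N)
    (ha : quadraticChar (ZMod p) ((-a : ℤ) : ZMod p) = -1) (x y : ℤ) : x ^ 2 + a * y ^ 2 ≠ N := by
  intro h
  have h1 : (x : ZMod p) ^ 2 + (a : ZMod p) * (y : ZMod p) ^ 2 = 0 := by
    have : ((x ^ 2 + a * y ^ 2 : ℤ) : ZMod p) = 0 := by
      rw [h, ZMod.intCast_zmod_eq_zero_iff_dvd]
      exact hp
    push_cast at this
    exact this
  by_cases hy : (y : ZMod p) = 0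
  · rw [hy] at h1
    have hx : (x : ZMod p) = 0 := by
      have : (x : ZMod p) ^ 2 = 0 := by linear_combination h1
      exact pow_eq_zero_iff two_ne_zero |>.mp this
    rw [ZMod.intCast_zmod_eq_zero_iff_dvd] at hx hy
    obtain ⟨c, rfl⟩ := hx
    obtain ⟨d, rfl⟩ := hy
    exact hp2 ⟨c ^ 2 + a * d ^ 2, by rw [← h]; ring⟩
  · have h2 : ((-a : ℤ) : ZMod p) = ((x : ZMod p) / (y : ZMod p)) ^ 2 := by
      push_cast
      field_simp
      linear_combination -h1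
    rw [h2] at ha
    by_cases hx : (x : ZMod p) / (y : ZMod p) = 0
    · rw [hx] at ha
      simp at ha
    · rw [quadraticChar_sq_one' hx] at ha
      norm_num at ha

end Pool.Agent.Nu3
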